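import Pool.Agent.Helper65.Barb.Iso

/-!
# Pushing forward compactly supported families of diffeomorphisms by open embeddings
-/

set_option autoImplicit false

open scoped Manifold ContDiff Topology
open Set

set_option linter.unusedSectionVars false
set_option linter.unusedVariables false

namespace Pool.Agent.Helper65.Barb

section
variable {E : Type*} [NormedAddCommGroup E] [NormedSpace ℝ E] {H : Type*} [TopologicalSpace H]
  {I : ModelWithCorners ℝ E H} {M : Type*} [TopologicalSpace M] [ChartedSpace H M] [T2Space M]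
  {V : Type*} [NormedAddCommGroup V] [NormedSpace ℝ V]

/-- the push-forward of `T` by the open embedding `δ`, extended by the identity -/
noncomputable def push (δ : PartialDiffeomorph 𝓘(ℝ, V) I V M ∞) (T : V → V) (y : M) : M :=
  open Classical in if y ∈ δ.target then δ (T (δ.toPartialEquiv.symm y)) else y

theorem push_of_mem (δ : PartialDiffeomorph 𝓘(ℝ, V) I V M ∞) (T : V → V) {x : V}
    (hx : x ∈ δ.source) : push δ T (δ x) = δ (T x) := by
  have h1 : δ x ∈ δ.target := δ.toPartialEquiv.map_source hx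
  have h2 : δ.toPartialEquiv.symm (δ x) = x := δ.toPartialEquiv.left_inv hx
  rw [push, if_pos h1, h2]

theorem push_of_notMem (δ : PartialDiffeomorph 𝓘(ℝ, V) I V M ∞) (T : V → V) {K : Set V}
    (hK : K ⊆ δ.source) (hT : ∀ x, x ∉ K → T x = x) {y : M} (hy : y ∉ δ '' K) :
    push δ T y = y := by
  rw [push]
  split_ifs with h
  · have h3 : δ (δ.toPartialEquiv.symm y) = y := δ.toPartialEquiv.right_inv h
    have h2 : δ.toPartialEquiv.symm y ∉ K := by
      intro h4
      exact hy ⟨_, h4, h3⟩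
    rw [hT _ h2, h3]
  · rfl

theorem isOpen_compl_image (δ : PartialDiffeomorph 𝓘(ℝ, V) I V M ∞) {K : Set V}
    (hKc : IsCompact K) (hK : K ⊆ δ.source) : IsOpen (δ '' K)ᶜ := by
  have h := hKc.image_of_continuousOn (δ.contMDiffOn.continuousOn.mono hK)
  exact h.isClosed.isOpen_compl

theorem isOpen_image (δ : PartialDiffeomorph 𝓘(ℝ, V) I V M ∞) {U : Set V}
    (hU : IsOpen U) (hUs : U ⊆ δ.source) : IsOpen (δ '' U) :=
  δ.toOpenPartialHomeomorph.isOpen_image_of_subset_source hU hUs

theorem contMDiff_push (δ : PartialDiffeomorph 𝓘(ℝ, V) I V M ∞) {T : ℝ × V → V}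
    (hTs : ContMDiff (𝓘(ℝ, ℝ).prod 𝓘(ℝ, V)) 𝓘(ℝ, V) ∞ T)
    {K : Set V} (hKc : IsCompact K) (hK : K ⊆ δ.source) (hT : ∀ t x, x ∉ K → T (t, x) = x)
    (hmap : ∀ t, ∀ x ∈ δ.source, T (t, x) ∈ δ.source) :
    ContMDiff (𝓘(ℝ, ℝ).prod I) I ∞ (fun p : ℝ × M => push δ (fun x => T (p.1, x)) p.2) := by
  intro p
  by_cases hp : p.2 ∈ δ.target
  · -- on the open set `ℝ × target`
    have hopen : IsOpen {q : ℝ × M | q.2 ∈ δ.target} := δ.open_target.preimage continuous_snd
    have h1 : ContMDiffOn (𝓘(ℝ, ℝ).prod I) I ∞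
        (fun q : ℝ × M => δ (T (q.1, δ.toPartialEquiv.symm q.2))) {q : ℝ × M | q.2 ∈ δ.target} := by
      have h2 : ContMDiffOn (𝓘(ℝ, ℝ).prod I) 𝓘(ℝ, V) ∞
          (fun q : ℝ × M => T (q.1, δ.toPartialEquiv.symm q.2))
          {q : ℝ × M | q.2 ∈ δ.target} := by
        apply hTs.comp_contMDiffOn
        apply ContMDiffOn.prodMk contMDiffOn_fst
        exact δ.contMDiffOn_invFun.comp contMDiffOn_snd (fun q hq => hq)
      exact δ.contMDiffOn_toFun.comp h2 (fun q hq => hmap _ _ (δ.toPartialEquiv.map_target hq))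
    have h3 := h1.contMDiffAt (hopen.mem_nhds hp)
    apply h3.congr_of_eventuallyEq
    filter_upwards [hopen.mem_nhds hp] with q hq
    rw [push, if_pos hq]
  · have hy : p.2 ∉ δ '' K := by
      rintro ⟨x, hx, hxy⟩
      apply hp
      rw [← hxy]
      exact δ.toPartialEquiv.map_source (hK hx)
    have hopen : IsOpen {q : ℝ × M | q.2 ∈ (δ '' K)ᶜ} :=
      (isOpen_compl_image δ hKc hK).preimage continuous_snd
    have h3 : ContMDiffAt (𝓘(ℝ, ℝ).prod I) I ∞ (fun q : ℝ × M => q.2) p :=
      contMDiff_snd.contMDiffAt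
    apply h3.congr_of_eventuallyEq
    filter_upwards [hopen.mem_nhds hy] with q hq
    exact push_of_notMem δ _ hK (fun x hx => hT q.1 x hx) hq

/-- A family with support in `K` maps `K` into `K`. -/
theorem DFam.mapsTo (T : DFam 𝓘(ℝ, V) V) {K : Set V} (hT : ∀ t x, x ∉ K → T.f (t, x) = x)
    (t : ℝ) {x : V} (hx : x ∈ K) : T.f (t, x) ∈ K := by
  by_contra h
  have h1 := hT t _ h
  have h2 := congrArg (fun z => T.g (t, z)) h1
  simp only [T.gf] at h2
  rw [h2] at h
  exact h hx

theorem DFam.support_inv (T : DFam 𝓘(ℝ, V) V) {K : Set V} (hT : ∀ t x, x ∉ K → T.f (t, x) = x)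
    (t : ℝ) {x : V} (hx : x ∉ K) : T.g (t, x) = x := by
  have h1 := T.gf t x
  rwa [hT t x hx] at h1

/-- the push-forward of a family -/
noncomputable def DFam.push (T : DFam 𝓘(ℝ, V) V) (δ : PartialDiffeomorph 𝓘(ℝ, V) I V M ∞)
    {K : Set V} (hKc : IsCompact K) (hK : K ⊆ δ.source)
    (hT : ∀ t x, x ∉ K → T.f (t, x) = x) : DFam I M where
  f p := Barb.push δ (fun x => T.f (p.1, x)) p.2
  g p := Barb.push δ (fun x => T.g (p.1, x)) p.2
  smooth_f := by
    apply contMDiff_push δ T.smooth_f hKc hK hT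
    intro t x hx
    by_cases h : x ∈ K
    · exact hK (T.mapsTo hT t h)
    · rw [hT t x h]; exact hx
  smooth_g := by
    apply contMDiff_push δ T.smooth_g hKc hK (fun t x hx => T.support_inv hT t hx)
    intro t x hx
    by_cases h : x ∈ K
    · have := T.inv.mapsTo (K := K) (fun t x hx => T.support_inv hT t hx) t h
      exact hK this
    · rw [T.support_inv hT t h]; exact hx
  fg t x := by
    by_cases hx : x ∈ δ '' K
    · obtain ⟨y, hy, rfl⟩ := hx
      have h1 : T.g (t, y) ∈ K :=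
        T.inv.mapsTo (K := K) (fun t x hx => T.support_inv hT t hx) t hy
      simp only
      rw [push_of_mem δ _ (hK hy), push_of_mem δ _ (hK h1)]
      congr 1
      exact T.fg t y
    · simp only
      rw [push_of_notMem δ _ hK (fun x hx => T.support_inv hT t hx) hx,
        push_of_notMem δ _ hK (fun x hx => hT t x hx) hx]
  gf t x := by
    by_cases hx : x ∈ δ '' K
    · obtain ⟨y, hy, rfl⟩ := hx
      have h1 := T.mapsTo (K := K) hT t hy
      simp only
      rw [push_of_mem δ _ (hK hy), push_of_mem δ _ (hK h1)]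
      congr 1
      exact T.gf t y
    · simp only
      rw [push_of_notMem δ _ hK (fun x hx => hT t x hx) hx,
        push_of_notMem δ _ hK (fun x hx => T.support_inv hT t hx) hx]

theorem isot_push (T : DFam 𝓘(ℝ, V) V) (δ : PartialDiffeomorph 𝓘(ℝ, V) I V M ∞)
    {K : Set V} (hKc : IsCompact K) (hK : K ⊆ δ.source)
    (hT : ∀ t x, x ∉ K → T.f (t, x) = x) :
    Isot I (Barb.push δ (fun x => T.f (0, x))) (Barb.push δ (fun x => T.f (1, x))) :=
  ⟨T.push δ hKc hK hT, fun _ => rfl, fun _ => rfl⟩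

theorem push_id (δ : PartialDiffeomorph 𝓘(ℝ, V) I V M ∞) (y : M) :
    Barb.push δ (fun x => x) y = y :=
  push_of_notMem δ _ (K := ∅) (empty_subset _) (fun _ _ => rfl) (by simp)

end

end Pool.Agent.Helper65.Barb
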