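import Pool.Agent.Helper65.Barb.Model
import Pool.Agent.Helper65.Barb.Imp

/-!
# The thickened barbell and the barbell map
-/

set_option autoImplicit false
set_option linter.unusedSectionVars false
set_option linter.unusedVariables false

open scoped Manifold ContDiff Topology ComplexConjugate
open Set

namespace Pool.Agent.Helper65.Barb

theorem rsq_nonneg (c : ℝ) (p : R4) : 0 ≤ rsq c p := by
  unfold rsq nsq; positivity

theorem contDiff_rsq (c : ℝ) : ContDiff ℝ ∞ (rsq c) :=
  contDiff_nsq ((contDiff_snd.fst.sub contDiff_const).prodMk contDiff_snd.snd)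

theorem rsq_one_eq (p : R4) : rsq 1 p = rsq 0 p - 2 * p.2.1 + 1 := by
  simp only [rsq, nsq]; ring

theorem sq_le_rsq (p : R4) : p.2.1 ^ 2 ≤ rsq 0 p := by
  simp only [rsq, nsq]; nlinarith [sq_nonneg p.2.2.re, sq_nonneg p.2.2.im]

theorem sq_le_rsq_one (p : R4) : (p.2.1 - 1) ^ 2 ≤ rsq 1 p := by
  simp only [rsq, nsq]; nlinarith [sq_nonneg p.2.2.re, sq_nonneg p.2.2.im]

theorem rsq_rotp (c θ : ℝ) (p : R4) : rsq c (rotp θ p) = rsq c p := by
  have h : ∀ z : ℂ, z.re ^ 2 + z.im ^ 2 = ‖z‖ ^ 2 := by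
    intro z; rw [← Complex.normSq_eq_norm_sq, Complex.normSq_apply]; ring
  simp only [rsq, nsq, rotp, add_assoc, h, norm_mul, Complex.norm_exp_ofReal_mul_I, one_mul]

@[simp] theorem twist_fst (c r t : ℝ) (p : R4) : ((twist c r).f (t, p)).1 = p.1 := rfl
@[simp] theorem twist_inv_fst (c r t : ℝ) (p : R4) : ((twist c r).g (t, p)).1 = p.1 := rfl

theorem rsq_twist (c r t : ℝ) (p : R4) : rsq c ((twist c r).f (t, p)) = rsq c p := by
  change nsq (((twist c r).f (t, p)).2.1 - c, ((twist c r).f (t, p)).2.2) = _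
  simp only [twist, twistF, add_sub_cancel_right, Prod.mk.eta, nsq_spin]
  rfl

theorem rsq_twist_inv (c r t : ℝ) (p : R4) : rsq c ((twist c r).g (t, p)) = rsq c p := by
  change nsq (((twist c r).g (t, p)).2.1 - c, ((twist c r).g (t, p)).2.2) = _
  simp only [twist, twistG, add_sub_cancel_right, Prod.mk.eta, nsq_spinInv]
  rfl

theorem twist_of_eta {c r t : ℝ} {p : R4} (h : eta p.1 = 1) : (twist c r).f (t, p) = p := by
  simp only [twist, twistF, spin_of_eta h]
  simp

theorem twist_of_ge {c r t : ℝ} (hr : 0 < r) {p : R4} (h : (2 * r) ^ 2 ≤ rsq c p) :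
    (twist c r).f (t, p) = p := by
  have h1 : cut (nsq (p.2.1 - c, p.2.2) / r ^ 2) = 0 := by
    apply cut_of_ge
    rw [le_div_iff₀ (by positivity)]
    change _ ≤ rsq c p
    linarith
  simp only [twist, twistF, h1, mul_zero, spin_zero]
  simp

theorem twist_of_time {c r t : ℝ} (ht : t ≤ 0) (p : R4) : (twist c r).f (t, p) = p := by
  simp only [twist, twistF, step_of_nonpos ht, zero_mul, spin_zero]
  simp

theorem cut_eq_one {c r : ℝ} (hr : 0 < r) {p : R4} (h : rsq c p ≤ r ^ 2) :
    cut (nsq (p.2.1 - c, p.2.2) / r ^ 2) = 1 := by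
  apply cut_of_le
  rw [div_le_one (by positivity)]
  exact h

theorem eta_sq (s : ℝ) : eta s ^ 2 = Complex.exp ((4 * Real.pi * step s : ℝ) * Complex.I) := by
  rw [eta, ← Complex.exp_nat_mul]
  congr 1
  push_cast
  ring

theorem twist_of_le {c r t : ℝ} (hr : 0 < r) (ht : 1 ≤ t) {p : R4} (h : rsq c p ≤ r ^ 2) :
    (twist c r).f (t, p) = rotp (4 * Real.pi * step p.1) p := by
  simp only [twist, twistF, cut_eq_one hr h, step_of_one_le ht, mul_one, spin_one, eta_sq, rotp]
  simp

/-- the support of a twist -/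
def tsupp (c r : ℝ) : Set R4 := {p | 0 ≤ p.1 ∧ p.1 ≤ 1 ∧ rsq c p ≤ (2 * r) ^ 2}

theorem twist_of_notMem {c r : ℝ} (hr : 0 < r) (t : ℝ) (p : R4) (h : p ∉ tsupp c r) :
    (twist c r).f (t, p) = p := by
  by_cases h0 : 0 ≤ p.1
  · by_cases h1 : p.1 ≤ 1
    · apply twist_of_ge hr
      by_contra h2
      exact h ⟨h0, h1, (not_le.1 h2).le⟩
    · exact twist_of_eta (eta_of_one_le (not_le.1 h1).le)
  · exact twist_of_eta (eta_of_nonpos (not_le.1 h0).le)

theorem twist_inv_of_notMem {c r : ℝ} (hr : 0 < r) (t : ℝ) (p : R4) (h : p ∉ tsupp c r) :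
    (twist c r).g (t, p) = p :=
  (twist c r).support_inv (K := tsupp c r) (fun t x hx => twist_of_notMem hr t x hx) t h

theorem twist_inv_of_ge {c r t : ℝ} (hr : 0 < r) {p : R4} (h : (2 * r) ^ 2 ≤ rsq c p) :
    (twist c r).g (t, p) = p := by
  have h1 := (twist c r).gf t p
  rwa [twist_of_ge hr h] at h1

theorem isBounded_of_rsq (c R m n : ℝ) :
    Bornology.IsBounded {p : R4 | m ≤ p.1 ∧ p.1 ≤ n ∧ rsq c p ≤ R} := by
  have h1 : {p : R4 | m ≤ p.1 ∧ p.1 ≤ n ∧ rsq c p ≤ R} ⊆
      Icc m n ×ˢ (Icc (c - (R + 1)) (c + (R + 1)) ×ˢ Metric.closedBall (0 : ℂ) (R + 1)) := by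
    rintro ⟨s, a, w⟩ ⟨h1, h2, h3⟩
    simp only [rsq, nsq] at h3
    have h4 : w.re ^ 2 + w.im ^ 2 = ‖w‖ ^ 2 := by
      rw [← Complex.normSq_eq_norm_sq, Complex.normSq_apply]; ring
    refine ⟨⟨h1, h2⟩, ⟨?_, ?_⟩, ?_⟩
    · simp only; nlinarith [sq_nonneg (a - c + 1), norm_nonneg w, sq_nonneg (a - c + 1/2)]
    · simp only; nlinarith [sq_nonneg (a - c - 1), norm_nonneg w, sq_nonneg (a - c - 1/2)]
    · rw [mem_closedBall_zero_iff]
      simp only
      nlinarith [sq_nonneg (a - c), sq_nonneg (‖w‖ - 1), sq_nonneg (‖w‖ - 1/2)]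
  apply Bornology.IsBounded.subset _ h1
  apply Bornology.IsBounded.prod (Metric.isBounded_Icc _ _)
  apply Bornology.IsBounded.prod (Metric.isBounded_Icc _ _)
  exact Metric.isBounded_closedBall

theorem continuous_rsq (c : ℝ) : Continuous (rsq c) := (contDiff_rsq c).continuous

theorem isCompact_tsupp (c r : ℝ) : IsCompact (tsupp c r) := by
  apply Metric.isCompact_of_isClosed_isBounded
  · apply IsClosed.inter (isClosed_le continuous_const continuous_fst)
    apply IsClosed.inter (isClosed_le continuous_fst continuous_const)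
    exact isClosed_le (continuous_rsq c) continuous_const
  · exact isBounded_of_rsq c _ 0 1

theorem isClosed_ball4 : IsClosed ball4 := by
  apply IsClosed.inter (isClosed_le continuous_const continuous_fst)
  apply IsClosed.inter (isClosed_le continuous_fst continuous_const)
  exact isClosed_le (continuous_rsq 0) continuous_const

theorem isCompact_NB : IsCompact NB := by
  apply Metric.isCompact_of_isClosed_isBounded
  · apply IsClosed.inter isClosed_ball4
    apply IsClosed.inter (isClosed_le continuous_const (continuous_rsq 0))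
    exact isClosed_le continuous_const (continuous_rsq 1)
  · exact (isBounded_of_rsq 0 ((9 / 2) ^ 2) (-1) 2).subset (fun p hp => hp.1)

/-- the standard isotopy spinning one arc around the other -/
noncomputable def bfam : DFam 𝓘(ℝ, R4) R4 :=
  (twist 0 2).comp ((twist 1 (1 / 5)).inv.comp (twist 0 (1 / 5)).inv)

theorem bfam_apply (t : ℝ) (p : R4) :
    bfam.f (t, p) =
      (twist 0 2).f (t, (twist 1 (1 / 5)).g (t, (twist 0 (1 / 5)).g (t, p))) := rfl

/-- the standard barbell map -/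
noncomputable def barMap (p : R4) : R4 := bfam.f (1, p)

end Pool.Agent.Helper65.Barb
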