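import Pool.Agent.Helper65.Barb.Main2

/-!
# The rotation of the 4-sphere
-/

set_option autoImplicit false
set_option linter.unusedSectionVars false
set_option linter.unusedVariables false

open scoped Manifold ContDiff Topology ComplexConjugate
open Set

namespace Pool.Agent.Helper65.Barb

theorem ext5 {x y : EuclideanSpace ℝ (Fin 5)} (h0 : x 0 = y 0) (h1 : x 1 = y 1) (h2 : x 2 = y 2)
    (h3 : x 3 = y 3) (h4 : x 4 = y 4) : x = y := by
  ext i
  fin_cases i <;> assumption

theorem contDiff_turn :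
    ContDiff ℝ ∞ (fun p : ℝ × EuclideanSpace ℝ (Fin 5) => turn p.1 p.2) := by
  rw [contDiff_euclidean]
  have hx : ∀ i : Fin 5, ContDiff ℝ ∞ (fun p : ℝ × EuclideanSpace ℝ (Fin 5) => p.2 i) := by
    intro i
    exact contDiff_euclidean.1 contDiff_snd i
  have hc : ContDiff ℝ ∞ (fun p : ℝ × EuclideanSpace ℝ (Fin 5) => Real.cos p.1) :=
    Real.contDiff_cos.comp contDiff_fst
  have hs : ContDiff ℝ ∞ (fun p : ℝ × EuclideanSpace ℝ (Fin 5) => Real.sin p.1) :=
    Real.contDiff_sin.comp contDiff_fst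
  intro i
  fin_cases i
  · exact hx 0
  · exact hx 1
  · exact hx 2
  · exact (hc.mul (hx 3)).sub (hs.mul (hx 4))
  · exact (hs.mul (hx 3)).add (hc.mul (hx 4))

@[simp] theorem spin4_coe (θ : ℝ) (x : S4) :
    (spin4 θ x : EuclideanSpace ℝ (Fin 5)) = turn θ x := rfl

/-- The action of the circle on the 4-sphere by rotation of the last two coordinates. -/
noncomputable def rot4 : CircleAction (𝓡 4) S4 where
  act θ x := spin4 θ x
  zero x := by
    apply Subtype.ext
    apply ext5 <;> simp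
  add s t x := by
    apply Subtype.ext
    apply ext5
    · simp
    · simp
    · simp
    · simp only [spin4_coe, turn_3, turn_4, Real.cos_add, Real.sin_add]; ring
    · simp only [spin4_coe, turn_3, turn_4, Real.cos_add, Real.sin_add]; ring
  period x := by
    apply Subtype.ext
    apply ext5 <;> simp
  smooth := by
    have : Fact (Module.finrank ℝ (EuclideanSpace ℝ (Fin 5)) = 4 + 1) :=
      ⟨finrank_euclideanSpace_fin⟩
    have h1 : ContMDiff (𝓘(ℝ, ℝ).prod (𝓡 4)) 𝓘(ℝ, EuclideanSpace ℝ (Fin 5)) ∞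
        (fun p : ℝ × S4 => turn p.1 p.2) := by
      have h2 : ContMDiff (𝓘(ℝ, ℝ).prod 𝓘(ℝ, EuclideanSpace ℝ (Fin 5)))
          𝓘(ℝ, EuclideanSpace ℝ (Fin 5)) ∞
          (fun p : ℝ × EuclideanSpace ℝ (Fin 5) => turn p.1 p.2) := by
        have := contDiff_turn.contMDiff
        rwa [modelWithCornersSelf_prod, ← chartedSpaceSelf_prod] at this
      exact h2.comp (contMDiff_fst.prodMk (contMDiff_coe_sphere.comp contMDiff_snd))
    exact h1.codRestrict_sphere (fun p => turn_mem p.1 p.2)

theorem rot4_coe (θ : ℝ) (x : S4) :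
    (rot4.act θ x : EuclideanSpace ℝ (Fin 5)) = turn θ x := rfl

theorem rot4_free {x : S4} (hx : x.1 3 ≠ 0 ∨ x.1 4 ≠ 0) {θ : ℝ} (h : rot4.act θ x = x) :
    ∃ k : ℤ, θ = k * (2 * Real.pi) := by
  have h0 : turn θ x = x := congrArg Subtype.val h
  have h3 : Real.cos θ * x.1 3 - Real.sin θ * x.1 4 = x.1 3 := by
    rw [← turn_3, h0]
  have h4 : Real.sin θ * x.1 3 + Real.cos θ * x.1 4 = x.1 4 := by
    rw [← turn_4, h0]
  have hpos : 0 < x.1 3 ^ 2 + x.1 4 ^ 2 := by
    rcases hx with h | h
    · positivity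
    · positivity
  have hc : Real.cos θ = 1 := by
    have : (Real.cos θ - 1) * (x.1 3 ^ 2 + x.1 4 ^ 2) = 0 := by
      linear_combination x.1 3 * h3 + x.1 4 * h4
    rcases mul_eq_zero.1 this with h | h
    · linarith
    · exact absurd h hpos.ne'
  obtain ⟨k, hk⟩ := (Real.cos_eq_one_iff θ).1 hc
  exact ⟨k, hk.symm⟩

theorem rot4_dense :
    Dense {x : S4 | ∀ θ, rot4.act θ x = x → ∃ k : ℤ, θ = k * (2 * Real.pi)} := by
  intro x
  by_cases hx : x.1 3 ≠ 0 ∨ x.1 4 ≠ 0
  · exact subset_closure (fun θ h => rot4_free hx h)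
  · push Not at hx
    obtain ⟨h3, h4⟩ := hx
    have hx1 := mem_S4.1 x.2
    rw [h3, h4] at hx1
    let c0 : ℝ → EuclideanSpace ℝ (Fin 5) := fun t =>
      !₂[Real.cos t * x.1 0, Real.cos t * x.1 1, Real.cos t * x.1 2, Real.sin t, 0]
    have hc0 : ∀ t, c0 t ∈ Metric.sphere (0 : EuclideanSpace ℝ (Fin 5)) 1 := by
      intro t
      rw [mem_S4]
      change (Real.cos t * x.1 0) ^ 2 + (Real.cos t * x.1 1) ^ 2 + (Real.cos t * x.1 2) ^ 2 +
        Real.sin t ^ 2 + 0 ^ 2 = 1
      linear_combination Real.cos t ^ 2 * hx1 + Real.sin_sq_add_cos_sq t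
    have hcc : Continuous c0 := by
      have : ContDiff ℝ 0 c0 := by
        rw [contDiff_euclidean]
        intro i
        have hc : ContDiff ℝ 0 Real.cos := Real.contDiff_cos
        have hs : ContDiff ℝ 0 Real.sin := Real.contDiff_sin
        fin_cases i
        · exact hc.mul contDiff_const
        · exact hc.mul contDiff_const
        · exact hc.mul contDiff_const
        · exact hs
        · exact contDiff_const
      exact this.continuous
    let c : ℝ → S4 := fun t => ⟨c0 t, hc0 t⟩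
    have hcont : Continuous c := hcc.subtype_mk _
    have hc00 : c 0 = x := by
      apply Subtype.ext
      apply ext5
      · change Real.cos 0 * x.1 0 = x.1 0; simp
      · change Real.cos 0 * x.1 1 = x.1 1; simp
      · change Real.cos 0 * x.1 2 = x.1 2; simp
      · change Real.sin 0 = x.1 3; simp [h3]
      · change (0 : ℝ) = x.1 4; simp [h4]
    have ht : Filter.Tendsto c (𝓝[>] 0) (𝓝 x) := by
      have := hcont.tendsto 0
      rw [hc00] at this
      exact this.mono_left nhdsWithin_le_nhds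
    apply mem_closure_of_tendsto ht
    have hev : ∀ᶠ t in 𝓝[>] (0 : ℝ), t ∈ Ioo (0 : ℝ) Real.pi := Ioo_mem_nhdsGT Real.pi_pos
    filter_upwards [hev] with t hts
    intro θ h
    apply rot4_free (Or.inl _) h
    change Real.sin t ≠ 0
    exact (Real.sin_pos_of_mem_Ioo hts).ne'

/-- the squared norm of the first three coordinates -/
noncomputable def n3 (y : ℝ × ℝ × ℝ) : ℝ := y.1 ^ 2 + y.2.1 ^ 2 + y.2.2 ^ 2

/-- radial retraction factor onto the unit ball -/
noncomputable def sc (y : ℝ × ℝ × ℝ) : ℝ := 1 / max 1 (√(n3 y))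

theorem sc_le (y : ℝ × ℝ × ℝ) : (sc y) ^ 2 * n3 y ≤ 1 := by
  have h1 : 0 ≤ n3 y := by unfold n3; positivity
  have h2 : (1 : ℝ) ≤ max 1 (√(n3 y)) := le_max_left _ _
  have h3 : √(n3 y) ≤ max 1 (√(n3 y)) := le_max_right _ _
  have h4 : n3 y ≤ (max 1 (√(n3 y))) ^ 2 := by
    calc n3 y = √(n3 y) ^ 2 := (Real.sq_sqrt h1).symm
      _ ≤ _ := by
        apply pow_le_pow_left₀ (Real.sqrt_nonneg _) h3
  rw [sc, div_pow, one_pow, one_div, inv_mul_le_iff₀ (by positivity), mul_one]
  exact h4

theorem sc_eq {y : ℝ × ℝ × ℝ} (h : n3 y ≤ 1) : sc y = 1 := by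
  have h1 : √(n3 y) ≤ 1 := Real.sqrt_le_one.2 h
  rw [sc, max_eq_left h1, div_one]

theorem continuous_sc : Continuous sc := by
  unfold sc
  apply Continuous.div continuous_const
  · apply continuous_const.max
    apply Real.continuous_sqrt.comp
    unfold n3
    fun_prop
  · intro y
    have h2 : (1 : ℝ) ≤ max 1 (√(n3 y)) := le_max_left _ _
    positivity

theorem rot4_global : rot4.Global := by
  intro F hF
  let κ0 : ℝ × ℝ × ℝ → EuclideanSpace ℝ (Fin 5) := fun y =>
    !₂[sc y * y.1, sc y * y.2.1, sc y * y.2.2, √(1 - sc y ^ 2 * n3 y), 0]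
  have hκ0 : ∀ y, κ0 y ∈ Metric.sphere (0 : EuclideanSpace ℝ (Fin 5)) 1 := by
    intro y
    rw [mem_S4]
    change (sc y * y.1) ^ 2 + (sc y * y.2.1) ^ 2 + (sc y * y.2.2) ^ 2 +
      √(1 - sc y ^ 2 * n3 y) ^ 2 + 0 ^ 2 = 1
    rw [Real.sq_sqrt (by linarith [sc_le y])]
    unfold n3
    ring
  have hκc : Continuous κ0 := by
    have : ∀ i, Continuous fun y => κ0 y i := by
      intro i
      have h3 : Continuous fun y => sc y ^ 2 * n3 y := by
        apply (continuous_sc.pow 2).mul
        unfold n3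
        fun_prop
      fin_cases i
      · exact continuous_sc.mul continuous_fst
      · exact continuous_sc.mul (continuous_fst.comp continuous_snd)
      · exact continuous_sc.mul (continuous_snd.comp continuous_snd)
      · exact Real.continuous_sqrt.comp (continuous_const.sub h3)
      · exact continuous_const
    exact (PiLp.continuous_toLp 2 _).comp (continuous_pi this)
  let κ : ℝ × ℝ × ℝ → S4 := fun y => ⟨κ0 y, hκ0 y⟩
  have hκ : Continuous κ := hκc.subtype_mk _
  have hcoord : ∀ i : Fin 5, Continuous fun x : S4 => x.1 i := by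
    intro i
    exact (continuous_apply i).comp ((PiLp.continuous_ofLp 2 _).comp continuous_subtype_val)
  obtain ⟨h, hs, hi, hFh⟩ := CircleAction.exists_lift (A := rot4) rot4_dense (F := F)
    (W := univ) (V := univ) isOpen_univ (subset_univ _) (fun x _ => hF x) κ hκ
    (fun _ => mem_univ _) (fun x : S4 => ((x.1 0, x.1 1, x.1 2) : ℝ × ℝ × ℝ))
    (((hcoord 0).prodMk ((hcoord 1).prodMk (hcoord 2))).continuousOn)
    (fun x _ θ => rfl)
    (by
      intro x _
      have hx := mem_S4.1 x.2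
      have hn : n3 (x.1 0, x.1 1, x.1 2) ≤ 1 := by
        unfold n3
        simp only
        nlinarith [sq_nonneg (x.1 3), sq_nonneg (x.1 4)]
      have hs := sc_eq hn
      have hw : √(1 - sc (x.1 0, x.1 1, x.1 2) ^ 2 * n3 (x.1 0, x.1 1, x.1 2)) =
          ‖(⟨x.1 3, x.1 4⟩ : ℂ)‖ := by
        rw [hs, Complex.norm_def, Complex.normSq_mk]
        congr 1
        unfold n3
        simp only
        linarith
      refine ⟨Complex.arg ⟨x.1 3, x.1 4⟩, ?_⟩
      have hz := Complex.norm_mul_exp_arg_mul_I ⟨x.1 3, x.1 4⟩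
      have hre := congrArg Complex.re hz
      have him := congrArg Complex.im hz
      rw [Complex.exp_mul_I] at hre him
      simp only [← Complex.ofReal_cos, ← Complex.ofReal_sin, Complex.mul_re, Complex.mul_im,
        Complex.add_re, Complex.add_im, Complex.ofReal_re, Complex.ofReal_im, Complex.I_re,
        Complex.I_im] at hre him
      apply Subtype.ext
      rw [rot4_coe]
      apply ext5
      · change sc (x.1 0, x.1 1, x.1 2) * x.1 0 = x.1 0
        rw [hs, one_mul]
      · change sc (x.1 0, x.1 1, x.1 2) * x.1 1 = x.1 1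
        rw [hs, one_mul]
      · change sc (x.1 0, x.1 1, x.1 2) * x.1 2 = x.1 2
        rw [hs, one_mul]
      · rw [turn_3]
        change _ * √(1 - sc (x.1 0, x.1 1, x.1 2) ^ 2 * n3 (x.1 0, x.1 1, x.1 2)) - _ * 0 = _
        rw [hw]
        linarith
      · rw [turn_4]
        change _ * √(1 - sc (x.1 0, x.1 1, x.1 2) ^ 2 * n3 (x.1 0, x.1 1, x.1 2)) + _ * 0 = _
        rw [hw]
        linarith)
  exact ⟨h, contMDiffOn_univ.1 hs, fun x θ => hi x (mem_univ _) θ, fun x => hFh x (mem_univ _)⟩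

end Pool.Agent.Helper65.Barb
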