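import Pool.Agent.Helper65.Barb.Iso

/-!
# Circle actions and diffeomorphisms moving points along orbits
-/

set_option autoImplicit false
set_option linter.unusedSectionVars false
set_option linter.unusedVariables false

open scoped Manifold ContDiff Topology
open Set

namespace Pool.Agent.Helper65.Barb

section
variable {E : Type*} [NormedAddCommGroup E] [NormedSpace ℝ E] {H : Type*} [TopologicalSpace H]

/-- A smooth action of the circle, written as a periodic action of the real line. -/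
structure CircleAction (I : ModelWithCorners ℝ E H) (M : Type*) [TopologicalSpace M]
    [ChartedSpace H M] where
  /-- the action -/
  act : ℝ → M → M
  zero : ∀ x, act 0 x = x
  add : ∀ s t x, act (s + t) x = act s (act t x)
  period : ∀ x, act (2 * Real.pi) x = x
  smooth : ContMDiff (𝓘(ℝ, ℝ).prod I) I ∞ (fun p : ℝ × M => act p.1 p.2)

variable {I : ModelWithCorners ℝ E H} {M : Type*} [TopologicalSpace M] [ChartedSpace H M]

namespace CircleAction

variable (A : CircleAction I M)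

theorem neg_act (t : ℝ) (x : M) : A.act (-t) (A.act t x) = x := by
  rw [← A.add, neg_add_cancel, A.zero]

theorem act_neg (t : ℝ) (x : M) : A.act t (A.act (-t) x) = x := by
  rw [← A.add, add_neg_cancel, A.zero]

theorem period_nat (n : ℕ) (x : M) : A.act (n * (2 * Real.pi)) x = x := by
  induction n with
  | zero => simp [A.zero]
  | succ n ih =>
    push_cast
    rw [add_mul, one_mul, A.add, A.period, ih]

theorem period_int (n : ℤ) (x : M) : A.act (n * (2 * Real.pi)) x = x := by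
  obtain ⟨m, rfl | rfl⟩ := n.eq_nat_or_neg
  · exact_mod_cast A.period_nat m x
  · have h := A.neg_act (m * (2 * Real.pi)) x
    rw [A.period_nat] at h
    push_cast
    rwa [neg_mul]

/-- the global bulk rotation by a smooth invariant function, as a family -/
noncomputable def bulk {h : M → ℝ} (hs : ContMDiff I 𝓘(ℝ, ℝ) ∞ h)
    (hi : ∀ x θ, h (A.act θ x) = h x) : DFam I M where
  f p := A.act (p.1 * h p.2) p.2
  g p := A.act (-(p.1 * h p.2)) p.2
  smooth_f := A.smooth.comp
    ((contMDiff_fst.mul (hs.comp contMDiff_snd)).prodMk contMDiff_snd)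
  smooth_g := A.smooth.comp
    ((contMDiff_fst.mul (hs.comp contMDiff_snd)).neg.prodMk contMDiff_snd)
  fg t x := by simp only [hi, A.act_neg]
  gf t x := by simp only [hi, A.neg_act]

theorem isot_bulk {h : M → ℝ} (hs : ContMDiff I 𝓘(ℝ, ℝ) ∞ h)
    (hi : ∀ x θ, h (A.act θ x) = h x) : Isot I (fun x => x) (fun x => A.act (h x) x) := by
  refine ⟨A.bulk hs hi, ?_, ?_⟩
  · intro x; simp [bulk, A.zero]
  · intro x; simp [bulk]

/-- `F` is, near `x`, a rotation along orbits by a smooth invariant angle. -/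
def LB (F : M → M) (x : M) : Prop :=
  ∃ V : Set M, IsOpen V ∧ x ∈ V ∧ (∀ y ∈ V, ∀ θ, A.act θ y ∈ V) ∧
    ∃ h : M → ℝ, ContMDiffOn I 𝓘(ℝ, ℝ) ∞ h V ∧ (∀ y ∈ V, ∀ θ, h (A.act θ y) = h y) ∧
      ∀ y ∈ V, F y = A.act (h y) y

variable {A}

theorem LB.comp {F G : M → M} {x : M} (hF : A.LB F x) (hG : A.LB G x) :
    A.LB (fun y => F (G y)) x := by
  obtain ⟨V, hV, hx, hVi, h, hs, hi, hFh⟩ := hF
  obtain ⟨V', hV', hx', hVi', h', hs', hi', hFh'⟩ := hG
  refine ⟨V ∩ V', hV.inter hV', ⟨hx, hx'⟩, fun y hy θ => ⟨hVi y hy.1 θ, hVi' y hy.2 θ⟩,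
    fun y => h y + h' y, ?_, ?_, ?_⟩
  · exact (hs.mono inter_subset_left).add (hs'.mono inter_subset_right)
  · intro y hy θ
    simp only [hi y hy.1, hi' y hy.2]
  · intro y hy
    simp only
    rw [hFh' y hy.2, hFh _ (hVi y hy.1 _), hi y hy.1, ← A.add]

theorem LB.inv {F F' : M → M} {x : M} (hF : A.LB F x) (h1 : ∀ y, F' (F y) = y) :
    A.LB F' x := by
  obtain ⟨V, hV, hx, hVi, h, hs, hi, hFh⟩ := hF
  refine ⟨V, hV, hx, hVi, fun y => - h y, hs.neg, ?_, ?_⟩
  · intro y hy θ
    simp only [hi y hy]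
  · intro y hy
    have h2 : F (A.act (-h y) y) = y := by
      rw [hFh _ (hVi y hy _), hi y hy, A.act_neg]
    have h3 := h1 (A.act (-h y) y)
    rw [h2] at h3
    exact h3

theorem LB.congr {F G : M → M} {x : M} (hG : A.LB G x) {W : Set M} (hW : IsOpen W) (hx : x ∈ W)
    (hWi : ∀ y ∈ W, ∀ θ, A.act θ y ∈ W) (hFG : ∀ y ∈ W, F y = G y) : A.LB F x := by
  obtain ⟨V, hV, hx', hVi, h, hs, hi, hFh⟩ := hG
  refine ⟨V ∩ W, hV.inter hW, ⟨hx', hx⟩, fun y hy θ => ⟨hVi y hy.1 θ, hWi y hy.2 θ⟩,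
    h, hs.mono inter_subset_left, fun y hy => hi y hy.1, ?_⟩
  intro y hy
  rw [hFG y hy.2, hFh y hy.1]

theorem LB.of_global {F : M → M} {h : M → ℝ} (hs : ContMDiff I 𝓘(ℝ, ℝ) ∞ h)
    (hi : ∀ x θ, h (A.act θ x) = h x) (hF : ∀ x, F x = A.act (h x) x) (x : M) : A.LB F x :=
  ⟨univ, isOpen_univ, mem_univ _, fun _ _ _ => mem_univ _, h, hs.contMDiffOn,
    fun y _ => hi y, fun y _ => hF y⟩

variable (A) in
theorem LB.id (x : M) : A.LB (fun y => y) x :=
  LB.of_global (h := fun _ => 0) contMDiff_const (fun _ _ => rfl) (fun x => (A.zero x).symm) x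

/-- **Lifting lemma.** A map which is locally a rotation along orbits by invariant angles is
globally so on sets with simply connected orbit space. -/
theorem exists_lift
    (hfree : Dense {x : M | ∀ θ, A.act θ x = x → ∃ k : ℤ, θ = k * (2 * Real.pi)})
    {F : M → M} {W V : Set M} (hVo : IsOpen V) (hVW : V ⊆ W) (hW : ∀ x ∈ W, A.LB F x)
    {Y : Type*} [TopologicalSpace Y] [SimplyConnectedSpace Y] [LocallyPathConnectedSpace Y]
    (κ : Y → M) (hκ : Continuous κ) (hκW : ∀ y, κ y ∈ W) (p : M → Y) (hp : ContinuousOn p V)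
    (hinv : ∀ x ∈ V, ∀ θ, p (A.act θ x) = p x)
    (horb : ∀ x ∈ V, ∃ θ, A.act θ (κ (p x)) = x) :
    ∃ h : M → ℝ, ContMDiffOn I 𝓘(ℝ, ℝ) ∞ h V ∧ (∀ x ∈ V, ∀ θ, h (A.act θ x) = h x) ∧
      ∀ x ∈ V, F x = A.act (h x) x := by
  classical
  choose! U hU hxU hUi H hHs hHi hHF using hW
  -- values of `exp (i H)` agree on overlaps
  have key : ∀ x ∈ W, ∀ y ∈ W, ∀ z ∈ U x ∩ U y, Circle.exp (H x z) = Circle.exp (H y z) := by
    intro x hx y hy z hz
    by_contra hne
    have c1 : ContinuousAt (fun z => Circle.exp (H x z)) z :=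
      Circle.exp.continuous.continuousAt.comp
        ((hHs x hx).continuousOn.continuousAt ((hU x hx).mem_nhds hz.1))
    have c2 : ContinuousAt (fun z => Circle.exp (H y z)) z :=
      Circle.exp.continuous.continuousAt.comp
        ((hHs y hy).continuousOn.continuousAt ((hU y hy).mem_nhds hz.2))
    have h1 : ∀ᶠ z' in 𝓝 z, Circle.exp (H x z') ≠ Circle.exp (H y z') :=
      (c1.prodMk c2).preimage_mem_nhds (isClosed_diagonal.isOpen_compl.mem_nhds hne)
    have h2 : ∀ᶠ z' in 𝓝 z, z' ∈ U x ∩ U y :=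
      ((hU x hx).inter (hU y hy)).mem_nhds hz
    obtain ⟨z', h5, h3, h4⟩ :=
      ((mem_closure_iff_frequently.1 (hfree z)).and_eventually (h1.and h2)).exists
    apply h3
    have e1 := hHF x hx z' h4.1
    have e2 := hHF y hy z' h4.2
    have e3 : A.act (H x z' - H y z') z' = z' := by
      rw [sub_eq_neg_add, A.add, ← e1, e2, A.neg_act]
    obtain ⟨k, hk⟩ := h5 _ e3
    rw [sub_eq_iff_eq_add.1 hk, Circle.exp_add, Circle.exp_int_mul_two_pi, one_mul]
  -- the circle-valued function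
  let Φ : M → Circle := fun x => Circle.exp (H x x)
  have hΦ : ∀ x ∈ W, ∀ z ∈ U x ∩ W, Φ z = Circle.exp (H x z) := by
    intro x hx z hz
    exact key z hz.2 x hx z ⟨hxU z hz.2, hz.1⟩
  have hcont : Continuous (fun y => Φ (κ y)) := by
    rw [continuous_iff_continuousAt]
    intro y
    have c1 : ContinuousAt (fun y' => Circle.exp (H (κ y) (κ y'))) y := by
      have c2 : ContinuousAt (fun z => Circle.exp (H (κ y) z)) (κ y) :=
        Circle.exp.continuous.continuousAt.comp
          ((hHs _ (hκW y)).continuousOn.continuousAt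
            ((hU _ (hκW y)).mem_nhds (hxU _ (hκW y))))
      exact ContinuousAt.comp (f := κ) c2 hκ.continuousAt
    apply c1.congr
    have h1 : ∀ᶠ y' in 𝓝 y, κ y' ∈ U (κ y) :=
      hκ.continuousAt.eventually_mem ((hU _ (hκW y)).mem_nhds (hxU _ (hκW y)))
    filter_upwards [h1] with y' hy'
    exact (hΦ _ (hκW y) _ ⟨hy', hκW y'⟩).symm
  -- lift it
  obtain ⟨y₀⟩ : Nonempty Y := inferInstance
  obtain ⟨e₀, he₀⟩ : ∃ e : ℝ, Circle.exp e = Φ (κ y₀) := ⟨_, Circle.exp_arg _⟩
  obtain ⟨L, ⟨-, hL⟩, -⟩ := Circle.isCoveringMap_exp.existsUnique_continuousMap_lifts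
    (⟨_, hcont⟩ : C(Y, Circle)) y₀ e₀ he₀
  have hL' : ∀ y, Circle.exp (L y) = Φ (κ y) := fun y => congrFun hL y
  have hval : ∀ x ∈ V, Circle.exp (L (p x)) = Circle.exp (H x x) := by
    intro x hx
    obtain ⟨θ, hθ⟩ := horb x hx
    have hz := hκW (p x)
    have h1 : x ∈ U (κ (p x)) := by
      have := hUi _ hz _ (hxU _ hz) θ
      rwa [hθ] at this
    have h2 : H (κ (p x)) x = H (κ (p x)) (κ (p x)) := by
      have := hHi _ hz _ (hxU _ hz) θ
      rwa [hθ] at this
    rw [hL']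
    change Circle.exp (H (κ (p x)) (κ (p x))) = _
    rw [← h2]
    exact (hΦ _ hz x ⟨h1, hVW hx⟩).symm
  refine ⟨fun x => L (p x), ?_, ?_, ?_⟩
  · intro x hx
    have hxW := hVW hx
    -- the difference with the local function is locally constant
    have c1 : ContinuousAt (fun z => L (p z) - H x z) x := by
      apply ContinuousAt.sub
      · exact L.continuous.continuousAt.comp (hp.continuousAt (hVo.mem_nhds hx))
      · exact (hHs x hxW).continuousOn.continuousAt ((hU x hxW).mem_nhds (hxU x hxW))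
    have h1 : ∀ᶠ z in 𝓝 x, |(L (p z) - H x z) - (L (p x) - H x x)| < 1 := by
      have := Metric.continuousAt_iff'.1 c1 1 one_pos
      filter_upwards [this] with z hz
      rwa [Real.dist_eq] at hz
    have h2 : ∀ᶠ z in 𝓝 x, z ∈ V ∩ U x := (hVo.inter (hU x hxW)).mem_nhds ⟨hx, hxU x hxW⟩
    have hdisc : ∀ z ∈ V ∩ U x, ∃ k : ℤ, L (p z) - H x z = k * (2 * Real.pi) := by
      intro z hz
      have e1 := hval z hz.1
      have e2 := hΦ x hxW z ⟨hz.2, hVW hz.1⟩
      change Circle.exp (H z z) = _ at e2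
      rw [e2] at e1
      obtain ⟨k, hk⟩ := Circle.exp_eq_exp.1 e1
      exact ⟨k, by rw [hk]; ring⟩
    have h3 : ∀ᶠ z in 𝓝 x, L (p z) = H x z + (L (p x) - H x x) := by
      filter_upwards [h1, h2] with z hz1 hz2
      obtain ⟨k, hk⟩ := hdisc z hz2
      obtain ⟨l, hl⟩ := hdisc x ⟨hx, hxU x hxW⟩
      rw [hk, hl] at hz1
      have h4 : k = l := by
        by_contra hkl
        have h5 : (1 : ℝ) ≤ |(k : ℝ) - l| := by
          have : (1 : ℤ) ≤ |k - l| := Int.one_le_abs (sub_ne_zero.2 hkl)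
          exact_mod_cast this
        have h6 : |(k : ℝ) * (2 * Real.pi) - l * (2 * Real.pi)| =
            |(k : ℝ) - l| * (2 * Real.pi) := by
          rw [← sub_mul, abs_mul, abs_of_pos Real.two_pi_pos]
        rw [h6] at hz1
        have := Real.pi_gt_three
        nlinarith
      rw [h4] at hk
      linarith
    have c2 : ContMDiffAt I 𝓘(ℝ, ℝ) ∞ (fun z => H x z + (L (p x) - H x x)) x :=
      ((hHs x hxW).contMDiffAt ((hU x hxW).mem_nhds (hxU x hxW))).add contMDiffAt_const
    exact (c2.congr_of_eventuallyEq h3).contMDiffWithinAt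
  · intro x hx θ
    simp only
    rw [hinv x hx θ]
  · intro x hx
    have hxW := hVW hx
    obtain ⟨k, hk⟩ := Circle.exp_eq_exp.1 (hval x hx)
    rw [hHF x hxW x (hxU x hxW)]
    simp only
    rw [hk, A.add, A.period_int]

end CircleAction

end

end Pool.Agent.Helper65.Barb
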