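import Pool.Agent.Helper65.Barb.Bar

/-!
# The standard barbell map is a barbell map, and any two barbell maps are isotopic
-/

set_option autoImplicit false
set_option linter.unusedSectionVars false
set_option linter.unusedVariables false

open scoped Manifold ContDiff Topology ComplexConjugate
open Set

namespace Pool.Agent.Helper65.Barb

theorem rot_add (α β : ℂ) (x y : ℝ × ℂ) : rot α β (x + y) = rot α β x + rot α β y := by
  refine Prod.ext ?_ ?_
  · simp only [rot, Prod.fst_add, Prod.snd_add, mul_add, Complex.add_im]; ring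
  · simp only [rot, Prod.fst_add, Prod.snd_add, map_add, Complex.ofReal_add]; ring

theorem spin_add (s P : ℝ) (x y : ℝ × ℂ) : spin s P (x + y) = spin s P x + spin s P y :=
  rot_add _ _ _ _

theorem twist_plateau {c r : ℝ} (hr : 0 < r) (t : ℝ) {p : R4} (h : rsq c p ≤ r ^ 2) :
    (twist c r).f (t, p) =
      (p.1, (spin p.1 (step t) (p.2.1 - c, p.2.2)).1 + c,
        (spin p.1 (step t) (p.2.1 - c, p.2.2)).2) := by
  simp only [twist, twistF, cut_eq_one hr h, mul_one]

theorem twist_inv_plateau {c r : ℝ} (hr : 0 < r) (t : ℝ) {p : R4} (h : rsq c p ≤ r ^ 2) :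
    (twist c r).g (t, p) =
      (p.1, (spinInv p.1 (step t) (p.2.1 - c, p.2.2)).1 + c,
        (spinInv p.1 (step t) (p.2.1 - c, p.2.2)).2) := by
  simp only [twist, twistG, cut_eq_one hr h, mul_one]

theorem bfam_support (t : ℝ) (p : R4) (hp : p ∉ tsupp 0 2) : bfam.f (t, p) = p := by
  have h1 : p ∉ tsupp 0 (1 / 5) := by
    intro h
    exact hp ⟨h.1, h.2.1, h.2.2.trans (by norm_num)⟩
  have h2 : p ∉ tsupp 1 (1 / 5) := by
    intro h
    refine hp ⟨h.1, h.2.1, ?_⟩
    have h3 := h.2.2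
    have h4 := sq_le_rsq_one p
    rw [rsq_one_eq] at h3 h4
    nlinarith
  rw [bfam_apply, twist_inv_of_notMem (by norm_num) t p h1,
    twist_inv_of_notMem (by norm_num) t p h2, twist_of_notMem (by norm_num) t p hp]

theorem rsq_one_ge {p : R4} (h : rsq 0 p ≤ (9 / 20) ^ 2) : (2 * (1 / 5 : ℝ)) ^ 2 ≤ rsq 1 p := by
  have h1 := sq_le_rsq p
  rw [rsq_one_eq]
  nlinarith [sq_nonneg (p.2.1 - 9 / 20)]

theorem rsq_zero_ge {p : R4} (h : rsq 1 p ≤ (9 / 20) ^ 2) : (2 * (1 / 5 : ℝ)) ^ 2 ≤ rsq 0 p := by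
  have h1 := sq_le_rsq_one p
  have h2 := sq_le_rsq p
  nlinarith [sq_nonneg (p.2.1 - 1 + 9 / 20)]

theorem rsq_zero_le {p : R4} (h : rsq 1 p ≤ (9 / 20) ^ 2) : rsq 0 p ≤ (3 / 2) ^ 2 := by
  have h1 := sq_le_rsq_one p
  rw [rsq_one_eq] at h h1
  nlinarith

theorem rsq_one_ge' {p : R4} (h : (3 / 2) ^ 2 ≤ rsq 0 p) : (2 * (1 / 5 : ℝ)) ^ 2 ≤ rsq 1 p := by
  by_contra h1
  have h2 : rsq 1 p ≤ (9 / 20) ^ 2 := by
    have := not_le.1 h1
    norm_num at this ⊢
    linarith
  have h3 := sq_le_rsq_one p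
  rw [rsq_one_eq] at h1 h2 h3
  nlinarith

theorem bfam_near_zero (t : ℝ) {p : R4} (hp : rsq 0 p ≤ (1 / 5) ^ 2) : bfam.f (t, p) = p := by
  rw [bfam_apply]
  have h1 : rsq 0 ((twist 0 (1 / 5)).g (t, p)) ≤ (1 / 5) ^ 2 := by rwa [rsq_twist_inv]
  rw [twist_inv_of_ge (c := 1) (by norm_num) (rsq_one_ge (h1.trans (by norm_num))),
    twist_plateau (by norm_num) t (h1.trans (by norm_num)),
    twist_inv_plateau (by norm_num) t (hp.trans (by norm_num))]
  simp [spin_spinInv]

theorem bfam_near_one (t s : ℝ) (y : ℝ × ℂ) (hy : nsq y ≤ (1 / 5) ^ 2) :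
    bfam.f (t, (s, (1, 0) + y)) = (s, spin s (step t) (1, 0) + y) := by
  have h0 : rsq 1 (s, (1, 0) + y) = nsq y := by simp [rsq]
  have h1 : rsq 1 (s, (1, 0) + y) ≤ (1 / 5) ^ 2 := by rw [h0]; exact hy
  have h3 : (twist 1 (1 / 5)).g (t, (s, (1, 0) + y)) = (s, (1, 0) + spinInv s (step t) y) := by
    rw [twist_inv_plateau (by norm_num) t (h1.trans (by norm_num))]
    have : ((1, 0) + y : ℝ × ℂ).1 - 1 = y.1 := by simp
    refine Prod.ext rfl (Prod.ext ?_ ?_)
    · simp [add_comm]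
    · simp
  have h4 : rsq 1 (s, (1, 0) + spinInv s (step t) y) ≤ (1 / 5) ^ 2 := by
    rw [← h3, rsq_twist_inv]; exact h1
  rw [bfam_apply, twist_inv_of_ge (c := 0) (by norm_num) (rsq_zero_ge (h1.trans (by norm_num))),
    h3, twist_plateau (by norm_num) t
      ((rsq_zero_le (h4.trans (by norm_num))).trans (by norm_num))]
  simp only [sub_zero, add_zero, Prod.mk.eta]
  rw [spin_add, spin_spinInv]

theorem tsupp_subset_interior : tsupp 0 2 ⊆ interior ball4 := by
  intro p hp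
  have hopen : IsOpen {q : R4 | -1 < q.1 ∧ q.1 < 2 ∧ rsq 0 q < (9 / 2) ^ 2} := by
    apply IsOpen.inter (isOpen_lt continuous_const continuous_fst)
    apply IsOpen.inter (isOpen_lt continuous_fst continuous_const)
    exact isOpen_lt (continuous_rsq 0) continuous_const
  apply interior_maximal _ hopen
  · obtain ⟨h1, h2, h3⟩ := hp
    exact ⟨by linarith, by linarith, lt_of_le_of_lt h3 (by norm_num)⟩
  · rintro q ⟨h1, h2, h3⟩
    exact ⟨h1.le, h2.le, h3.le⟩

/-- the standard barbell map is a barbell map -/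
theorem isBarbellMap_barMap : IsBarbellMap barMap := by
  refine ⟨bfam, ?_, fun p => rfl, ⟨tsupp 0 2, isCompact_tsupp 0 2, tsupp_subset_interior,
    fun t p hp => bfam_support t p hp⟩,
    fun t _ p hp => bfam_near_zero t (hp.trans (by norm_num)),
    fun t _ s y hy => bfam_near_one t s y (hy.trans (by norm_num))⟩
  intro p
  rw [bfam_apply]
  have h : ∀ (c r : ℝ) (q : R4), (twist c r).g (0, q) = q := by
    intro c r q
    have := (twist c r).gf 0 q
    rwa [twist_of_time le_rfl] at this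
  rw [h, h, twist_of_time le_rfl]

theorem step_mem (t : ℝ) : step t ∈ Icc (0 : ℝ) 1 :=
  ⟨Real.smoothTransition.nonneg t, Real.smoothTransition.le_one t⟩

section
variable {E : Type*} [NormedAddCommGroup E] [NormedSpace ℝ E] {H : Type*} [TopologicalSpace H]
  {I : ModelWithCorners ℝ E H} {M : Type*} [TopologicalSpace M] [ChartedSpace H M] [T2Space M]

/-- the push-forwards of any two barbell maps are isotopic -/
theorem isot_push_barbellMap (B : PartialDiffeomorph 𝓘(ℝ, R4) I R4 M ∞) (hB : NB ⊆ B.source)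
    {β β' : R4 → R4} (hβ : IsBarbellMap β) (hβ' : IsBarbellMap β') :
    Isot I (push B β') (push B β) := by
  obtain ⟨Φ, h0, h1, ⟨K, hKc, hKi, hK⟩, hz, ho⟩ := hβ
  obtain ⟨Φ', h0', h1', ⟨K', hKc', hKi', hK'⟩, hz', ho'⟩ := hβ'
  let T : DFam 𝓘(ℝ, R4) R4 := (Φ'.freeze 1).comp
    ((Φ'.reparam step contDiff_step).inv.comp (Φ.reparam step contDiff_step))
  have hT : ∀ t p, T.f (t, p) = Φ'.f (1, Φ'.g (step t, Φ.f (step t, p))) := fun t p => rfl
  let S : Set R4 := (K ∪ K') ∩ {p | (3 / 20) ^ 2 ≤ rsq 0 p ∧ (3 / 20) ^ 2 ≤ rsq 1 p}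
  have hSc : IsCompact S := by
    apply (hKc.union hKc').inter_right
    apply IsClosed.inter (isClosed_le continuous_const (continuous_rsq 0))
    exact isClosed_le continuous_const (continuous_rsq 1)
  have hSB : S ⊆ B.source := by
    intro p hp
    apply hB
    refine ⟨?_, hp.2⟩
    rcases hp.1 with h | h
    · exact interior_subset (hKi h)
    · exact interior_subset (hKi' h)
  have hinv : ∀ t p q, Φ'.f (t, p) = q → Φ'.g (t, q) = p := by
    intro t p q h
    rw [← h, Φ'.gf]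
  have hTS : ∀ t p, p ∉ S → T.f (t, p) = p := by
    intro t p hp
    rw [hT]
    have ht := step_mem t
    by_cases hK2 : p ∈ K ∪ K'
    · have hp' : rsq 0 p < (3 / 20) ^ 2 ∨ rsq 1 p < (3 / 20) ^ 2 := by
        by_contra hcon
        push Not at hcon
        exact hp ⟨hK2, hcon⟩
      rcases hp' with h | h
      · rw [hz _ ht p h.le, hinv _ _ _ (hz' _ ht p h.le), hz' 1 (by simp) p h.le]
      · obtain ⟨s, x⟩ := p
        obtain ⟨y, rfl⟩ : ∃ y : ℝ × ℂ, x = (1, 0) + y := ⟨x - (1, 0), by abel⟩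
        have hy : nsq y ≤ (3 / 20) ^ 2 := by
          have : rsq 1 (s, (1, 0) + y) = nsq y := by simp [rsq]
          rw [← this]; exact h.le
        rw [ho _ ht s y hy, hinv _ _ _ (ho' _ ht s y hy), ho' 1 (by simp) s y hy,
          step_of_one_le le_rfl, spin_one]
        simp
    · have e1 : p ∉ K := fun h => hK2 (Or.inl h)
      have e2 : p ∉ K' := fun h => hK2 (Or.inr h)
      rw [hK _ p e1, hinv _ _ _ (hK' _ p e2), hK' _ p e2]
  have key := isot_push T B hSc hSB hTS
  have e0 : (fun x => T.f (0, x)) = β' := by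
    funext x
    rw [hT, step_of_nonpos le_rfl, h0, hinv 0 x x (h0' x), h1']
  have e1 : (fun x => T.f (1, x)) = β := by
    funext x
    rw [hT, step_of_one_le le_rfl, Φ'.fg, h1]
  rwa [e0, e1] at key

end

end Pool.Agent.Helper65.Barb
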