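import Mathlib

/-!
# Circle-valued cocycles over two open sets: homotopy invariance
-/

set_option autoImplicit false
set_option linter.unusedSectionVars false
set_option linter.unusedVariables false

open scoped Topology
open Set

namespace Pool.Agent.Helper65.Barb

section
variable {X Y : Type*} [TopologicalSpace X] [TopologicalSpace Y]

theorem continuousOn_of_closed_pieces {f : X → Y} {S C D : Set X} (hC : IsClosed C)
    (hD : IsClosed D) (h1 : ContinuousOn f (S ∩ C)) (h2 : ContinuousOn f (S ∩ D))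
    (hcov : S ⊆ C ∪ D) : ContinuousOn f S := by
  intro x hx
  have hS : S = (S ∩ C) ∪ (S ∩ D) := by
    rw [← inter_union_distrib_left]
    exact (inter_eq_left.2 hcov).symm
  rw [hS]
  apply ContinuousWithinAt.union
  · by_cases hxC : x ∈ C
    · exact h1 x ⟨hx, hxC⟩
    · apply continuousWithinAt_of_notMem_closure
      intro h
      exact hxC (hC.closure_subset (closure_mono inter_subset_right h))
  · by_cases hxD : x ∈ D
    · exact h2 x ⟨hx, hxD⟩
    · apply continuousWithinAt_of_notMem_closure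
      intro h
      exact hxD (hD.closure_subset (closure_mono inter_subset_right h))

/-- The cocycle `g` on `U ∩ V` is the quotient of a continuous function on `U` and one on `V`. -/
def Splits (U V : Set X) (g : X → Circle) : Prop :=
  ∃ k l : X → Circle, ContinuousOn k U ∧ ContinuousOn l V ∧ ∀ x ∈ U ∩ V, k x = g x * l x

theorem Splits.mono {U V U' V' : Set X} {g : X → Circle} (h : Splits U V g) (hU : U' ⊆ U)
    (hV : V' ⊆ V) : Splits U' V' g := by
  obtain ⟨k, l, hk, hl, hkl⟩ := h
  exact ⟨k, l, hk.mono hU, hl.mono hV, fun x hx => hkl x ⟨hU hx.1, hV hx.2⟩⟩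

/-- A splitting over closed sets covering the space extends to a splitting over larger sets. -/
theorem Splits.extend {U V C D : Set X} {g : X → Circle} (hg : ContinuousOn g (U ∩ V))
    (hC : IsClosed C) (hD : IsClosed D) (hCU : C ⊆ U) (hDV : D ⊆ V) (hcov : C ∪ D = univ)
    (h : Splits C D g) : Splits U V g := by
  classical
  obtain ⟨k, l, hk, hl, hkl⟩ := h
  refine ⟨fun x => if x ∈ C then k x else g x * l x,
    fun x => if x ∈ D then l x else (g x)⁻¹ * k x, ?_, ?_, ?_⟩
  · apply continuousOn_of_closed_pieces hC hD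
    · apply (hk.mono (inter_subset_right (s := U))).congr
      rintro x ⟨hx, hxC⟩
      simp only
      rw [if_pos hxC]
    · have : ContinuousOn (fun x => g x * l x) (U ∩ D) :=
        (hg.mono (fun x hx => ⟨hx.1, hDV hx.2⟩)).mul (hl.mono inter_subset_right)
      apply this.congr
      rintro x ⟨hx, hxD⟩
      simp only
      split_ifs with hxC
      · exact hkl x ⟨hxC, hxD⟩
      · rfl
    · rw [hcov]; exact subset_univ _
  · apply continuousOn_of_closed_pieces hD hC
    · apply (hl.mono (inter_subset_right (s := V))).congr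
      rintro x ⟨hx, hxD⟩
      simp only
      rw [if_pos hxD]
    · have : ContinuousOn (fun x => (g x)⁻¹ * k x) (V ∩ C) :=
        (hg.mono (fun x hx => ⟨hCU hx.2, hx.1⟩)).inv.mul (hk.mono inter_subset_right)
      apply this.congr
      rintro x ⟨hx, hxC⟩
      simp only
      split_ifs with hxD
      · rw [hkl x ⟨hxC, hxD⟩, inv_mul_cancel_left]
      · rfl
    · rw [union_comm, hcov]; exact subset_univ _
  · rintro x ⟨hxU, hxV⟩
    simp only
    have hx : x ∈ C ∪ D := by rw [hcov]; exact mem_univ x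
    by_cases hxC : x ∈ C
    · by_cases hxD : x ∈ D
      · rw [if_pos hxC, if_pos hxD, hkl x ⟨hxC, hxD⟩]
      · rw [if_pos hxC, if_neg hxD, mul_inv_cancel_left]
    · rw [if_neg hxC, if_pos (hx.resolve_left hxC)]

theorem splits_iff {U V C D : Set X} {g : X → Circle} (hg : ContinuousOn g (U ∩ V))
    (hC : IsClosed C) (hD : IsClosed D) (hCU : C ⊆ U) (hDV : D ⊆ V) (hcov : C ∪ D = univ) :
    Splits U V g ↔ Splits C D g :=
  ⟨fun h => h.mono hCU hDV, fun h => h.extend hg hC hD hCU hDV hcov⟩

/-- Nearby cocycles over closed sets split simultaneously. -/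
theorem Splits.of_close [NormalSpace X] {C D : Set X} (hC : IsClosed C) (hD : IsClosed D)
    {g g' : X → Circle} (hg : ContinuousOn g (C ∩ D)) (hg' : ContinuousOn g' (C ∩ D))
    (hne : ∀ x ∈ C ∩ D, (((g' x) * (g x)⁻¹ : Circle) : ℂ) ∈ Complex.slitPlane)
    (h : Splits C D g) : Splits C D g' := by
  obtain ⟨k, l, hk, hl, hkl⟩ := h
  have hCD : IsClosed (C ∩ D) := hC.inter hD
  have hr : ContinuousOn (fun x => (((g' x) * (g x)⁻¹ : Circle) : ℂ)) (C ∩ D) :=
    continuous_subtype_val.comp_continuousOn (hg'.mul hg.inv)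
  have harg : ContinuousOn (fun x => Complex.arg (((g' x) * (g x)⁻¹ : Circle) : ℂ)) (C ∩ D) := by
    intro x hx
    exact ContinuousAt.comp_continuousWithinAt
      (f := fun x => (((g' x) * (g x)⁻¹ : Circle) : ℂ)) (g := Complex.arg)
      (Complex.continuousAt_arg (hne x hx)) (hr x hx)
  obtain ⟨e, he⟩ := ContinuousMap.exists_restrict_eq hCD
    (⟨_, continuousOn_iff_continuous_domRestrict.1 harg⟩ : C(↥(C ∩ D), ℝ))
  have he' : ∀ x ∈ C ∩ D, e x = Complex.arg (((g' x) * (g x)⁻¹ : Circle) : ℂ) := by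
    intro x hx
    exact congrArg (fun f : C(↥(C ∩ D), ℝ) => f ⟨x, hx⟩) he
  refine ⟨fun x => Circle.exp (e x) * k x, l, ?_, hl, ?_⟩
  · exact (Circle.exp.continuous.comp e.continuous).continuousOn.mul hk
  · intro x hx
    simp only
    rw [he' x hx, Circle.exp_arg, hkl x hx]
    rw [mul_assoc, inv_mul_cancel_left]

end

section
variable {X Q : Type*} [TopologicalSpace X] [CompactSpace X] [T2Space X] [TopologicalSpace Q]

/-- Along a homotopy the property of splitting does not change. -/
theorem splits_homotopy {H : X × ℝ → Q} (hH : Continuous H) {U V : Set Q} (hU : IsOpen U)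
    (hV : IsOpen V) (hUV : U ∪ V = univ) {g : Q → Circle} (hg : ContinuousOn g (U ∩ V))
    (t t' : ℝ) :
    Splits {x | H (x, t) ∈ U} {x | H (x, t) ∈ V} (fun x => g (H (x, t))) ↔
      Splits {x | H (x, t') ∈ U} {x | H (x, t') ∈ V} (fun x => g (H (x, t'))) := by
  have key : ∀ t₀ : ℝ, ∀ᶠ t in 𝓝 t₀,
      (Splits {x | H (x, t) ∈ U} {x | H (x, t) ∈ V} (fun x => g (H (x, t))) ↔
        Splits {x | H (x, t₀) ∈ U} {x | H (x, t₀) ∈ V} (fun x => g (H (x, t₀)))) := by
    intro t₀
    have hHt : ∀ t, Continuous fun x => H (x, t) := fun t =>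
      hH.comp (continuous_id.prodMk continuous_const)
    have hU0 : IsOpen {x | H (x, t₀) ∈ U} := hU.preimage (hHt t₀)
    have hV0 : IsOpen {x | H (x, t₀) ∈ V} := hV.preimage (hHt t₀)
    have hcov : ∀ q : Q, q ∈ U ∨ q ∈ V := fun q => by
      have : q ∈ U ∪ V := by rw [hUV]; exact mem_univ q
      exact this
    obtain ⟨W, hWo, hW1, hW2⟩ := normal_exists_closure_subset hU0.isClosed_compl hV0
      (fun x hx => (hcov (H (x, t₀))).resolve_left hx)
    set C : Set X := Wᶜ with hC
    set D : Set X := closure W with hD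
    have hCc : IsClosed C := hWo.isClosed_compl
    have hDc : IsClosed D := isClosed_closure
    have hCU : C ⊆ {x | H (x, t₀) ∈ U} := by
      intro x hx
      by_contra h
      exact hx (hW1 h)
    have hDV : D ⊆ {x | H (x, t₀) ∈ V} := hW2
    have hCD : C ∪ D = univ := by
      apply eq_univ_of_forall
      intro x
      by_cases hx : x ∈ W
      · exact Or.inr (subset_closure hx)
      · exact Or.inl hx
    have hsw : Continuous fun z : ℝ × X => H (z.2, z.1) :=
      hH.comp (continuous_snd.prodMk continuous_fst)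
    have e1 : ∀ᶠ t in 𝓝 t₀, ∀ x ∈ C, H (x, t) ∈ U := by
      apply hCc.isCompact.eventually_forall_of_forall_eventually
      intro x hx
      exact hsw.continuousAt.eventually_mem (hU.mem_nhds (hCU hx))
    have e2 : ∀ᶠ t in 𝓝 t₀, ∀ x ∈ D, H (x, t) ∈ V := by
      apply hDc.isCompact.eventually_forall_of_forall_eventually
      intro x hx
      exact hsw.continuousAt.eventually_mem (hV.mem_nhds (hDV hx))
    have e3 : ∀ᶠ t in 𝓝 t₀, ∀ x ∈ C ∩ D,
        (((g (H (x, t))) * (g (H (x, t₀)))⁻¹ : Circle) : ℂ) ∈ Complex.slitPlane := by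
      apply (hCc.inter hDc).isCompact.eventually_forall_of_forall_eventually
      intro x hx
      have hx' : H (x, t₀) ∈ U ∩ V := ⟨hCU hx.1, hDV hx.2⟩
      have hgc : ContinuousAt g (H (x, t₀)) := hg.continuousAt ((hU.inter hV).mem_nhds hx')
      have c1 : ContinuousAt (fun z : ℝ × X => g (H (z.2, z.1))) (t₀, x) :=
        ContinuousAt.comp (f := fun z : ℝ × X => H (z.2, z.1)) hgc hsw.continuousAt
      have c2 : ContinuousAt (fun z : ℝ × X => g (H (z.2, t₀))) (t₀, x) := by
        have h3 : Continuous fun z : ℝ × X => H (z.2, t₀) :=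
          hH.comp (continuous_snd.prodMk continuous_const)
        exact ContinuousAt.comp (f := fun z : ℝ × X => H (z.2, t₀)) hgc h3.continuousAt
      have c3 : ContinuousAt (fun z : ℝ × X =>
          (((g (H (z.2, z.1))) * (g (H (z.2, t₀)))⁻¹ : Circle) : ℂ)) (t₀, x) :=
        continuous_subtype_val.continuousAt.comp (c1.mul c2.inv)
      apply c3.eventually_mem
      apply Complex.isOpen_slitPlane.mem_nhds
      simp [Complex.slitPlane]
    filter_upwards [e1, e2, e3] with t h1 h2 h3
    have g1 : ContinuousOn (fun x => g (H (x, t))) ({x | H (x, t) ∈ U} ∩ {x | H (x, t) ∈ V}) :=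
      hg.comp (hHt t).continuousOn (fun x hx => hx)
    have g0 : ContinuousOn (fun x => g (H (x, t₀)))
        ({x | H (x, t₀) ∈ U} ∩ {x | H (x, t₀) ∈ V}) :=
      hg.comp (hHt t₀).continuousOn (fun x hx => hx)
    rw [splits_iff g1 hCc hDc h1 h2 hCD, splits_iff g0 hCc hDc hCU hDV hCD]
    have g1' := g1.mono (s := {x | H (x, t) ∈ U} ∩ {x | H (x, t) ∈ V}) (t := C ∩ D)
      (fun x hx => ⟨h1 x hx.1, h2 x hx.2⟩)
    have g0' := g0.mono (s := {x | H (x, t₀) ∈ U} ∩ {x | H (x, t₀) ∈ V}) (t := C ∩ D)
      (fun x hx => ⟨hCU hx.1, hDV hx.2⟩)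
    constructor
    · intro h
      apply h.of_close hCc hDc g1' g0'
      intro x hx
      have h4 := h3 x hx
      have h5 : (((g (H (x, t₀))) * (g (H (x, t)))⁻¹ : Circle) : ℂ) =
          (starRingEnd ℂ) (((g (H (x, t))) * (g (H (x, t₀)))⁻¹ : Circle) : ℂ) := by
        rw [← Circle.coe_inv_eq_conj]
        simp
      rw [h5]
      rw [Complex.mem_slitPlane_iff] at h4 ⊢
      rw [Complex.conj_re, Complex.conj_im]
      exact h4.imp id neg_ne_zero.2
    · intro h
      exact h.of_close hCc hDc g0' g1' h3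
  have hloc : IsLocallyConstant (fun t : ℝ =>
      Splits {x | H (x, t) ∈ U} {x | H (x, t) ∈ V} (fun x => g (H (x, t)))) := by
    rw [IsLocallyConstant.iff_eventually_eq]
    intro t₀
    filter_upwards [key t₀] with t ht
    exact propext ht
  exact iff_of_eq (hloc.apply_eq_of_preconnectedSpace t t')

end

end Pool.Agent.Helper65.Barb
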