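import Pool.Agent.Helper65.Barb.Sph
import Pool.Agent.Helper65.Barb.Cocycle

/-!
# The orbit space of the rotation of the 4-sphere, and splitting of cocycles
-/

set_option autoImplicit false
set_option linter.unusedSectionVars false
set_option linter.unusedVariables false

open scoped Manifold ContDiff Topology ComplexConjugate
open Set

namespace Pool.Agent.Helper65.Barb

/-- the underlying map of `kap` -/
noncomputable def kap0 (y : ℝ × ℝ × ℝ) : EuclideanSpace ℝ (Fin 5) :=
  !₂[sc y * y.1, sc y * y.2.1, sc y * y.2.2, √(1 - sc y ^ 2 * n3 y), 0]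

theorem kap0_mem (y : ℝ × ℝ × ℝ) :
    kap0 y ∈ Metric.sphere (0 : EuclideanSpace ℝ (Fin 5)) 1 := by
  rw [mem_S4]
  change (sc y * y.1) ^ 2 + (sc y * y.2.1) ^ 2 + (sc y * y.2.2) ^ 2 +
    √(1 - sc y ^ 2 * n3 y) ^ 2 + 0 ^ 2 = 1
  rw [Real.sq_sqrt (by linarith [sc_le y])]
  unfold n3
  ring

/-- a section of the orbit map, composed with the radial retraction of three-space -/
noncomputable def kap (y : ℝ × ℝ × ℝ) : S4 := ⟨kap0 y, kap0_mem y⟩

theorem continuous_kap : Continuous kap := by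
  have : ∀ i, Continuous fun y => kap0 y i := by
    intro i
    have h3 : Continuous fun y => sc y ^ 2 * n3 y := by
      apply (continuous_sc.pow 2).mul
      unfold n3
      fun_prop
    fin_cases i
    · exact continuous_sc.mul continuous_fst
    · exact continuous_sc.mul (continuous_fst.comp continuous_snd)
    · exact continuous_sc.mul (continuous_snd.comp continuous_snd)
    · exact Real.continuous_sqrt.comp (continuous_const.sub h3)
    · exact continuous_const
  exact ((PiLp.continuous_toLp 2 _).comp (continuous_pi this)).subtype_mk _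

/-- the orbit map -/
noncomputable def pr (x : S4) : ℝ × ℝ × ℝ := (x.1 0, x.1 1, x.1 2)

theorem pr_act (θ : ℝ) (x : S4) : pr (rot4.act θ x) = pr x := rfl

theorem n3_pr_le (x : S4) : n3 (pr x) ≤ 1 := by
  have hx := mem_S4.1 x.2
  unfold n3 pr
  simp only
  nlinarith [sq_nonneg (x.1 3), sq_nonneg (x.1 4)]

theorem exists_act_kap (x : S4) : ∃ θ, rot4.act θ (kap (pr x)) = x := by
  have hx := mem_S4.1 x.2
  have hs := sc_eq (n3_pr_le x)
  have hw : √(1 - sc (pr x) ^ 2 * n3 (pr x)) = ‖(⟨x.1 3, x.1 4⟩ : ℂ)‖ := by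
    rw [hs, Complex.norm_def, Complex.normSq_mk]
    congr 1
    unfold n3 pr
    simp only
    linarith
  refine ⟨Complex.arg ⟨x.1 3, x.1 4⟩, ?_⟩
  have hz := Complex.norm_mul_exp_arg_mul_I ⟨x.1 3, x.1 4⟩
  have hre := congrArg Complex.re hz
  have him := congrArg Complex.im hz
  rw [Complex.exp_mul_I] at hre him
  simp only [← Complex.ofReal_cos, ← Complex.ofReal_sin, Complex.mul_re, Complex.mul_im,
    Complex.add_re, Complex.add_im, Complex.ofReal_re, Complex.ofReal_im, Complex.I_re,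
    Complex.I_im] at hre him
  apply Subtype.ext
  rw [rot4_coe]
  apply ext5
  · change sc (pr x) * x.1 0 = x.1 0
    rw [hs, one_mul]
  · change sc (pr x) * x.1 1 = x.1 1
    rw [hs, one_mul]
  · change sc (pr x) * x.1 2 = x.1 2
    rw [hs, one_mul]
  · rw [turn_3]
    change _ * √(1 - sc (pr x) ^ 2 * n3 (pr x)) - _ * 0 = _
    rw [hw]
    linarith
  · rw [turn_4]
    change _ * √(1 - sc (pr x) ^ 2 * n3 (pr x)) + _ * 0 = _
    rw [hw]
    linarith

theorem smooth_pr : ContMDiff (𝓡 4) 𝓘(ℝ, ℝ × ℝ × ℝ) ∞ pr := by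
  have : Fact (Module.finrank ℝ (EuclideanSpace ℝ (Fin 5)) = 4 + 1) :=
    ⟨finrank_euclideanSpace_fin⟩
  have h1 : ContDiff ℝ ∞ (fun x : EuclideanSpace ℝ (Fin 5) => ((x 0, x 1, x 2) : ℝ × ℝ × ℝ)) := by
    have hx : ∀ i : Fin 5, ContDiff ℝ ∞ (fun x : EuclideanSpace ℝ (Fin 5) => x i) := by
      intro i
      exact contDiff_euclidean.1 contDiff_id i
    exact (hx 0).prodMk ((hx 1).prodMk (hx 2))
  exact h1.contMDiff.comp contMDiff_coe_sphere

theorem continuous_pr : Continuous pr := smooth_pr.continuous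

theorem n3_smul (t : ℝ) (y : ℝ × ℝ × ℝ) : n3 (t • y) = t ^ 2 * n3 y := by
  unfold n3
  simp only [Prod.smul_fst, Prod.smul_snd, smul_eq_mul]
  ring

theorem sc_sc (y : ℝ × ℝ × ℝ) : sc (sc y • y) = 1 := by
  apply sc_eq
  rw [n3_smul]
  exact sc_le y

theorem kap_sc (y : ℝ × ℝ × ℝ) : kap (sc y • y) = kap y := by
  apply Subtype.ext
  apply ext5
  · change sc (sc y • y) * (sc y * y.1) = sc y * y.1
    rw [sc_sc, one_mul]
  · change sc (sc y • y) * (sc y * y.2.1) = sc y * y.2.1
    rw [sc_sc, one_mul]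
  · change sc (sc y • y) * (sc y * y.2.2) = sc y * y.2.2
    rw [sc_sc, one_mul]
  · change √(1 - sc (sc y • y) ^ 2 * n3 (sc y • y)) = √(1 - sc y ^ 2 * n3 y)
    rw [sc_sc, n3_smul, one_pow, one_mul]
  · rfl

theorem sc_smul_mem (y : ℝ × ℝ × ℝ) : sc y • y ∈ Metric.closedBall (0 : ℝ × ℝ × ℝ) 1 := by
  have h : n3 (sc y • y) ≤ 1 := by rw [n3_smul]; exact sc_le y
  set z := sc y • y with hz
  unfold n3 at h
  rw [mem_closedBall_zero_iff, Prod.norm_def, Prod.norm_def]
  simp only [Real.norm_eq_abs]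
  refine max_le ?_ (max_le ?_ ?_)
  · exact abs_le_one_iff_mul_self_le_one.2 (by nlinarith [sq_nonneg z.2.1, sq_nonneg z.2.2])
  · exact abs_le_one_iff_mul_self_le_one.2 (by nlinarith [sq_nonneg z.1, sq_nonneg z.2.2])
  · exact abs_le_one_iff_mul_self_le_one.2 (by nlinarith [sq_nonneg z.1, sq_nonneg z.2.1])

/-- Splitting of cocycles on the 4-sphere, pulled back to the orbit space. -/
theorem exists_split {U V : Set S4} (hU : IsOpen U) (hV : IsOpen V) (hUV : U ∪ V = univ)
    {g : S4 → Circle} (hg : ContinuousOn g (U ∩ V)) :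
    ∃ k l : ℝ × ℝ × ℝ → Circle, ContinuousOn k {y | kap y ∈ U} ∧
      ContinuousOn l {y | kap y ∈ V} ∧
      ∀ y, kap y ∈ U → kap y ∈ V → k y = g (kap y) * l y := by
  let X : Type := ↥(Metric.closedBall (0 : ℝ × ℝ × ℝ) 1)
  let H : X × ℝ → S4 := fun z => kap (z.2 • z.1.1)
  have hH : Continuous H :=
    continuous_kap.comp (continuous_snd.smul (continuous_subtype_val.comp continuous_fst))
  have h0 : Splits {x | H (x, 0) ∈ U} {x | H (x, 0) ∈ V} (fun x => g (H (x, 0))) := by
    refine ⟨fun _ => g (kap 0), fun _ => 1, continuousOn_const, continuousOn_const, ?_⟩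
    intro x _
    simp only [H, zero_smul, mul_one]
  have h1 := (splits_homotopy hH hU hV hUV hg 0 1).1 h0
  obtain ⟨k, l, hk, hl, hkl⟩ := h1
  let ret : ℝ × ℝ × ℝ → X := fun y => ⟨sc y • y, sc_smul_mem y⟩
  have hret : Continuous ret := (continuous_sc.smul continuous_id).subtype_mk _
  have hHr : ∀ y, H (ret y, 1) = kap y := by
    intro y
    simp only [H, ret, one_smul]
    exact kap_sc y
  refine ⟨fun y => k (ret y), fun y => l (ret y), ?_, ?_, ?_⟩
  · apply hk.comp hret.continuousOn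
    intro y hy
    change H (ret y, 1) ∈ U
    rw [hHr]; exact hy
  · apply hl.comp hret.continuousOn
    intro y hy
    change H (ret y, 1) ∈ V
    rw [hHr]; exact hy
  · intro y hyU hyV
    have := hkl (ret y) ⟨by change H (ret y, 1) ∈ U; rw [hHr]; exact hyU,
      by change H (ret y, 1) ∈ V; rw [hHr]; exact hyV⟩
    simp only at this ⊢
    rw [this, hHr]

end Pool.Agent.Helper65.Barb
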