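import Pool.Agent.Helper65.Barb.Dual0

/-!
# Nested shells
-/

set_option autoImplicit false
set_option linter.unusedSectionVars false
set_option linter.unusedVariables false

open scoped Manifold ContDiff Topology ComplexConjugate
open Set

namespace Pool.Agent.Helper65.Barb

/-- a family of open thickened spheres -/
def Sh (a c r : ℝ) : Set R4 :=
  {p | -a < p.1 ∧ p.1 < 1 + a ∧ rsq c p < ((2 + a / 4) * r) ^ 2 ∧
    ((1 - a / 4) * r) ^ 2 < rsq c p}

/-- a family of closed thickened spheres -/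
def ShC (a c r : ℝ) : Set R4 :=
  {p | -a ≤ p.1 ∧ p.1 ≤ 1 + a ∧ rsq c p ≤ ((2 + a / 4) * r) ^ 2 ∧
    ((1 - a / 4) * r) ^ 2 ≤ rsq c p}

theorem Sh_subset_ShC (a c r : ℝ) : Sh a c r ⊆ ShC a c r :=
  fun _ hp => ⟨hp.1.le, hp.2.1.le, hp.2.2.1.le, hp.2.2.2.le⟩

theorem isOpen_Sh (a c r : ℝ) : IsOpen (Sh a c r) := by
  apply IsOpen.inter (isOpen_lt continuous_const continuous_fst)
  apply IsOpen.inter (isOpen_lt continuous_fst continuous_const)
  apply IsOpen.inter (isOpen_lt (continuous_rsq c) continuous_const)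
  exact isOpen_lt continuous_const (continuous_rsq c)

theorem isCompact_ShC (a c r : ℝ) : IsCompact (ShC a c r) := by
  apply Metric.isCompact_of_isClosed_isBounded
  · apply IsClosed.inter (isClosed_le continuous_const continuous_fst)
    apply IsClosed.inter (isClosed_le continuous_fst continuous_const)
    apply IsClosed.inter (isClosed_le (continuous_rsq c) continuous_const)
    exact isClosed_le continuous_const (continuous_rsq c)
  · exact (isBounded_of_rsq c (((2 + a / 4) * r) ^ 2) (-a) (1 + a)).subset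
      (fun p hp => ⟨hp.1, hp.2.1, hp.2.2.1⟩)

theorem ShC_subset_Sh {a b c r : ℝ} (hr : 0 < r) (ha : 0 ≤ a) (hab : a < b) (hb : b ≤ 1) :
    ShC a c r ⊆ Sh b c r := by
  rintro p ⟨h1, h2, h3, h4⟩
  refine ⟨by linarith, by linarith, lt_of_le_of_lt h3 ?_, lt_of_lt_of_le ?_ h4⟩
  · apply pow_lt_pow_left₀ _ (by positivity) (by norm_num)
    nlinarith
  · apply pow_lt_pow_left₀ _ (mul_nonneg (by linarith) hr.le) (by norm_num)
    nlinarith

theorem rotp_mem_Sh {a c r : ℝ} (θ : ℝ) {p : R4} (hp : p ∈ Sh a c r) : rotp θ p ∈ Sh a c r := by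
  obtain ⟨h1, h2, h3, h4⟩ := hp
  exact ⟨h1, h2, by rwa [rsq_rotp], by rwa [rsq_rotp]⟩

theorem rotp_mem_ShC {a c r : ℝ} (θ : ℝ) {p : R4} (hp : p ∈ ShC a c r) :
    rotp θ p ∈ ShC a c r := by
  obtain ⟨h1, h2, h3, h4⟩ := hp
  exact ⟨h1, h2, by rwa [rsq_rotp], by rwa [rsq_rotp]⟩

theorem Core_eq (c r : ℝ) : Core c r = ShC 0 c r := by
  ext p
  simp only [Core, ShC, mem_ofPred_eq]
  norm_num

theorem NShell_eq (c r : ℝ) : NShell c r = Sh (1 / 2) c r := by
  ext p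
  simp only [NShell, Sh, mem_ofPred_eq]
  norm_num

theorem OShell_eq (c r : ℝ) : OShell c r = Sh 1 c r := by
  ext p
  simp only [OShell, Sh, mem_ofPred_eq]
  norm_num

theorem Shell_eq (c r : ℝ) : Shell c r = ShC 1 c r := by
  ext p
  simp only [Shell, Ball, ShC, mem_ofPred_eq]
  norm_num [and_assoc]

/-- bump functions for the nested shells -/
noncomputable def chig (a b c r : ℝ) (p : R4) : ℝ :=
  bmp (-b) (-a) (1 + a) (1 + b) p.1 *
    bmp (((1 - b / 4) * r) ^ 2) (((1 - a / 4) * r) ^ 2) (((2 + a / 4) * r) ^ 2)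
      (((2 + b / 4) * r) ^ 2) (rsq c p)

theorem contDiff_chig (a b c r : ℝ) : ContDiff ℝ ∞ (chig a b c r) :=
  ((contDiff_bmp _ _ _ _).comp contDiff_fst).mul ((contDiff_bmp _ _ _ _).comp (contDiff_rsq c))

theorem chig_rotp (a b c r θ : ℝ) (p : R4) : chig a b c r (rotp θ p) = chig a b c r p := by
  simp only [chig, rsq_rotp]; rfl

theorem bmp_mem (a b c d u : ℝ) : bmp a b c d u ∈ Icc (0 : ℝ) 1 := by
  have h1 := step_mem ((u - a) / (b - a))
  have h2 := step_mem ((d - u) / (d - c))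
  exact ⟨mul_nonneg h1.1 h2.1, mul_le_one₀ h1.2 h2.1 h2.2⟩

theorem chig_mem (a b c r : ℝ) (p : R4) : chig a b c r p ∈ Icc (0 : ℝ) 1 := by
  have h1 := bmp_mem (-b) (-a) (1 + a) (1 + b) p.1
  have h2 := bmp_mem (((1 - b / 4) * r) ^ 2) (((1 - a / 4) * r) ^ 2) (((2 + a / 4) * r) ^ 2)
      (((2 + b / 4) * r) ^ 2) (rsq c p)
  exact ⟨mul_nonneg h1.1 h2.1, mul_le_one₀ h1.2 h2.1 h2.2⟩

section
variable {a b c r : ℝ}

theorem sq_aux1 (hr : 0 < r) (hab : a < b) (hb : b ≤ 1) :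
    ((1 - b / 4) * r) ^ 2 < ((1 - a / 4) * r) ^ 2 := by
  apply pow_lt_pow_left₀ _ (mul_nonneg (by linarith) hr.le) (by norm_num)
  nlinarith

theorem sq_aux2 (hr : 0 < r) (ha : 0 ≤ a) (hab : a < b) :
    ((2 + a / 4) * r) ^ 2 < ((2 + b / 4) * r) ^ 2 := by
  apply pow_lt_pow_left₀ _ (by positivity) (by norm_num)
  nlinarith

theorem chig_eq_one (hr : 0 < r) (ha : 0 ≤ a) (hab : a < b) (hb : b ≤ 1) {p : R4}
    (hp : p ∈ ShC a c r) : chig a b c r p = 1 := by
  obtain ⟨h1, h2, h3, h4⟩ := hp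
  rw [chig, bmp_eq_one (by linarith) (by linarith) h1 h2,
    bmp_eq_one (sq_aux1 hr hab hb) (sq_aux2 hr ha hab) h4 h3, one_mul]

theorem chig_eq_zero (hr : 0 < r) (ha : 0 ≤ a) (hab : a < b) (hb : b ≤ 1) {p : R4}
    (hp : p ∉ Sh b c r) : chig a b c r p = 0 := by
  rw [chig]
  by_cases h1 : -b < p.1
  · by_cases h2 : p.1 < 1 + b
    · by_cases h3 : rsq c p < ((2 + b / 4) * r) ^ 2
      · have h4 : rsq c p ≤ ((1 - b / 4) * r) ^ 2 := by
          by_contra h4
          exact hp ⟨h1, h2, h3, not_le.1 h4⟩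
        rw [bmp_eq_zero_left (u := rsq c p) (sq_aux1 hr hab hb) h4, mul_zero]
      · rw [bmp_eq_zero_right (u := rsq c p) (sq_aux2 hr ha hab) (not_lt.1 h3), mul_zero]
    · rw [bmp_eq_zero_right (u := p.1) (by linarith) (not_lt.1 h2), zero_mul]
  · rw [bmp_eq_zero_left (u := p.1) (by linarith) (not_lt.1 h1), zero_mul]

/-- coordinates on the orbit space of the model -/
noncomputable def pS (c : ℝ) (p : R4) : ℝ × ℝ × ℝ :=
  (p.1, √(rsq c p), (p.2.1 - c) / √(rsq c p))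

theorem pS_rotp (c θ : ℝ) (p : R4) : pS c (rotp θ p) = pS c p := by
  simp only [pS, rsq_rotp]; rfl

theorem continuousOn_pS (c : ℝ) : ContinuousOn (pS c) {p | 0 < rsq c p} := by
  have c1 : ContinuousOn (fun p : R4 => √(rsq c p)) {p | 0 < rsq c p} :=
    (Real.continuous_sqrt.comp (continuous_rsq c)).continuousOn
  apply continuous_fst.continuousOn.prodMk
  apply c1.prodMk
  apply ContinuousOn.div _ c1
  · intro p hp
    exact (Real.sqrt_pos.2 hp).ne'
  · exact ((continuous_fst.comp continuous_snd).sub continuous_const).continuousOn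

/-- a section over a closed shell -/
noncomputable def kS (a c r : ℝ) (y : ℝ × ℝ × ℝ) : R4 :=
  (clamp (-a) (1 + a) y.1,
    c + clamp ((1 - a / 4) * r) ((2 + a / 4) * r) y.2.1 * clamp (-1) 1 y.2.2,
    ((clamp ((1 - a / 4) * r) ((2 + a / 4) * r) y.2.1 *
      √(1 - (clamp (-1) 1 y.2.2) ^ 2) : ℝ) : ℂ))

theorem continuous_kS (a c r : ℝ) : Continuous (kS a c r) := by
  have c1 : Continuous fun y : ℝ × ℝ × ℝ =>
      clamp ((1 - a / 4) * r) ((2 + a / 4) * r) y.2.1 :=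
    (continuous_clamp _ _).comp (continuous_fst.comp continuous_snd)
  have c2 : Continuous fun y : ℝ × ℝ × ℝ => clamp (-1) 1 y.2.2 :=
    (continuous_clamp _ _).comp (continuous_snd.comp continuous_snd)
  apply Continuous.prodMk ((continuous_clamp _ _).comp continuous_fst)
  apply Continuous.prodMk (continuous_const.add (c1.mul c2))
  apply Complex.continuous_ofReal.comp
  exact c1.mul (Real.continuous_sqrt.comp (continuous_const.sub (c2.pow 2)))

theorem kS_mem (hr : 0 < r) (ha : 0 ≤ a) (ha' : a ≤ 1) (y : ℝ × ℝ × ℝ) :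
    kS a c r y ∈ ShC a c r := by
  have hm : (1 - a / 4) * r ≤ (2 + a / 4) * r := by nlinarith
  have hp : 0 ≤ (1 - a / 4) * r := mul_nonneg (by linarith) hr.le
  have h0 := clamp_mem hm y.2.1
  have h1 := clamp_mem (a := -1) (b := 1) (by norm_num) y.2.2
  have h2 := clamp_mem (a := -a) (b := 1 + a) (by linarith) y.1
  have h3 : 0 ≤ 1 - (clamp (-1) 1 y.2.2) ^ 2 := by nlinarith [h1.1, h1.2]
  have hrsq : rsq c (kS a c r y) = (clamp ((1 - a / 4) * r) ((2 + a / 4) * r) y.2.1) ^ 2 := by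
    simp only [rsq, nsq, kS, Complex.ofReal_re, Complex.ofReal_im, add_sub_cancel_left]
    rw [mul_pow, mul_pow, Real.sq_sqrt h3]
    ring
  refine ⟨h2.1, h2.2, ?_, ?_⟩
  · rw [hrsq]; exact pow_le_pow_left₀ (hp.trans h0.1) h0.2 2
  · rw [hrsq]; exact pow_le_pow_left₀ hp h0.1 2

theorem exists_rotp_kS (hr : 0 < r) (ha : 0 ≤ a) (ha' : a ≤ 1) {p : R4} (hp : p ∈ ShC a c r) :
    ∃ θ, rotp θ (kS a c r (pS c p)) = p := by
  obtain ⟨s, u, w⟩ := p
  obtain ⟨h1, h2, h3, h4⟩ := hp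
  simp only at h1 h2
  have hp0 : 0 < (1 - a / 4) * r := mul_pos (by linarith) hr
  have h5 : 0 < rsq c (s, u, w) := lt_of_lt_of_le (by positivity) h4
  set ρ := √(rsq c (s, u, w)) with hρ
  have h6 : ρ ^ 2 = rsq c (s, u, w) := Real.sq_sqrt h5.le
  have h7 : 0 < ρ := Real.sqrt_pos.2 h5
  have h8 : (1 - a / 4) * r ≤ ρ := Real.le_sqrt_of_sq_le h4
  have h9 : ρ ≤ (2 + a / 4) * r := by
    rw [hρ]; exact Real.sqrt_le_iff.2 ⟨by positivity, h3⟩
  have h10 : rsq c (s, u, w) = (u - c) ^ 2 + ‖w‖ ^ 2 := by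
    simp only [rsq, nsq]
    rw [← Complex.normSq_eq_norm_sq, Complex.normSq_apply]; ring
  have h11 : -1 ≤ (u - c) / ρ ∧ (u - c) / ρ ≤ 1 := by
    rw [le_div_iff₀ h7, div_le_iff₀ h7]
    constructor <;> nlinarith [sq_nonneg ‖w‖, abs_le_of_sq_le_sq' (a := u - c) (b := ρ)
      (by nlinarith [sq_nonneg ‖w‖]) h7.le]
  have h12 : kS a c r (pS c (s, u, w)) = (s, u, (‖w‖ : ℂ)) := by
    simp only [kS, pS, ← hρ]
    rw [clamp_eq h1 h2, clamp_eq h8 h9, clamp_eq h11.1 h11.2]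
    refine Prod.ext rfl (Prod.ext ?_ ?_)
    · simp only
      field_simp
      ring
    · simp only
      congr 1
      have h13 : ρ * √(1 - ((u - c) / ρ) ^ 2) = √(ρ ^ 2 * (1 - ((u - c) / ρ) ^ 2)) := by
        rw [Real.sqrt_mul (by positivity), Real.sqrt_sq h7.le]
      rw [h13]
      have h14 : ρ ^ 2 * (1 - ((u - c) / ρ) ^ 2) = ‖w‖ ^ 2 := by
        field_simp
        rw [h6, h10]
        ring
      rw [h14, Real.sqrt_sq (norm_nonneg w)]
  refine ⟨Complex.arg w, ?_⟩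
  rw [h12]
  simp only [rotp]
  rw [mul_comm, Complex.norm_mul_exp_arg_mul_I]

end

end Pool.Agent.Helper65.Barb
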