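import Pool.Agent.Helper65.Barb.Dual1

/-!
# The angle function of a thickened sphere
-/

set_option autoImplicit false
set_option linter.unusedSectionVars false
set_option linter.unusedVariables false

open scoped Manifold ContDiff Topology ComplexConjugate
open Set

namespace Pool.Agent.Helper65.Barb

/-- the circle-valued angle of the twist off the core, in the model -/
noncomputable def gq (c r : ℝ) (q : R4) : Circle :=
  open Classical in if rsq c q < r ^ 2 then Circle.exp (ang q) else 1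

theorem gq_rotp (c r θ : ℝ) (q : R4) : gq c r (rotp θ q) = gq c r q := by
  simp only [gq, rsq_rotp, ang_rotp]

theorem exp_ang_of_neg {q : R4} (h : q.1 ≤ 0) : Circle.exp (ang q) = 1 := by
  rw [ang, step_of_nonpos h, mul_zero, Circle.exp_zero]

theorem exp_ang_of_gt {q : R4} (h : 1 ≤ q.1) : Circle.exp (ang q) = 1 := by
  rw [ang, step_of_one_le h, mul_one]
  have := Circle.exp_int_mul_two_pi 2
  rw [← this]
  congr 1
  push_cast
  ring

theorem contDiffAt_gq {c r : ℝ} (hr : 0 < r) {q : R4} (hq : q ∉ ShC 0 c r) :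
    ContDiffAt ℝ ∞ (fun p => (gq c r p : ℂ)) q := by
  have e1 : ContDiff ℝ ∞ (fun p : R4 => (Circle.exp (ang p) : ℂ)) := by
    simp only [Circle.coe_exp]
    apply Complex.contDiff_exp.comp
    exact (Complex.ofRealCLM.contDiff.comp contDiff_ang).mul contDiff_const
  have e2 : ContDiffAt ℝ ∞ (fun _ : R4 => (1 : ℂ)) q := contDiffAt_const
  by_cases h1 : rsq c q < r ^ 2
  · apply e1.contDiffAt.congr_of_eventuallyEq
    filter_upwards [(isOpen_lt (continuous_rsq c) continuous_const).mem_nhds h1] with p hp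
    have hp' : rsq c p < r ^ 2 := hp
    simp only [gq]
    rw [if_pos hp']
  · by_cases h2 : (2 * r) ^ 2 < rsq c q
    · apply e2.congr_of_eventuallyEq
      filter_upwards [(isOpen_lt continuous_const (continuous_rsq c)).mem_nhds h2] with p hp
      have hp' : (2 * r) ^ 2 < rsq c p := hp
      simp only [gq]
      rw [if_neg (by nlinarith)]
      rfl
    · by_cases h3 : q.1 < 0
      · apply e2.congr_of_eventuallyEq
        filter_upwards [(isOpen_lt continuous_fst continuous_const).mem_nhds h3] with p hp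
        have hp' : p.1 < 0 := hp
        simp only [gq]
        split_ifs
        · rw [exp_ang_of_neg hp'.le]; rfl
        · rfl
      · by_cases h4 : 1 < q.1
        · apply e2.congr_of_eventuallyEq
          filter_upwards [(isOpen_lt continuous_const continuous_fst).mem_nhds h4] with p hp
          have hp' : 1 < p.1 := hp
          simp only [gq]
          split_ifs
          · rw [exp_ang_of_gt hp'.le]; rfl
          · rfl
        · exfalso
          apply hq
          rw [← Core_eq]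
          exact ⟨not_lt.1 h3, not_lt.1 h4, not_lt.1 h2, not_lt.1 h1⟩

theorem exists_angle (δ : PartialDiffeomorph 𝓘(ℝ, R4) (𝓡 4) R4 S4 ∞) {c r : ℝ} (hr : 0 < r)
    (hB : Shell c r ⊆ δ.source)
    (heq : ∀ p ∈ Shell c r, ∀ θ, δ (rotp θ p) = rot4.act θ (δ p)) :
    ∃ G : S4 → ℂ, ContMDiffOn (𝓡 4) 𝓘(ℝ, ℂ) ∞ G (δ '' Core c r)ᶜ ∧
      (∀ x θ, G (rot4.act θ x) = G x) ∧ (∀ y ∉ δ '' Core c r, G y ≠ 0) ∧
      ∀ q ∈ NShell c r, q ∉ Core c r → G (δ q) = gq c r q := by
  classical
  rw [Shell_eq] at hB heq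
  rw [Core_eq, NShell_eq]
  have hsub : ∀ {a b : ℝ}, 0 ≤ a → a < b → b ≤ 1 → ShC a c r ⊆ Sh b c r :=
    fun ha hab hb => ShC_subset_Sh hr ha hab hb
  have hin : ∀ {a : ℝ}, 0 ≤ a → a ≤ 1 → ShC a c r ⊆ ShC 1 c r := by
    intro a ha ha'
    rcases eq_or_lt_of_le ha' with h | h
    · rw [h]
    · exact (hsub ha h le_rfl).trans (Sh_subset_ShC _ _ _)
  have hin' : ∀ {a : ℝ}, 0 ≤ a → a ≤ 1 → Sh a c r ⊆ ShC 1 c r :=
    fun ha ha' => (Sh_subset_ShC _ _ _).trans (hin ha ha')
  have hsymm : ∀ p ∈ ShC 1 c r, δ.toPartialEquiv.symm (δ p) = p :=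
    fun p hp => δ.toPartialEquiv.left_inv (hB hp)
  have hinj : ∀ p ∈ ShC 1 c r, ∀ q ∈ ShC 1 c r, δ p = δ q → p = q :=
    fun p hp q hq h => δ.toPartialEquiv.injOn (hB hp) (hB hq) h
  have hopen : ∀ {a : ℝ}, 0 ≤ a → a ≤ 1 → IsOpen (δ '' Sh a c r) :=
    fun ha ha' => isOpen_image δ (isOpen_Sh _ _ _) ((hin' ha ha').trans hB)
  have hclosed : ∀ {a : ℝ}, 0 ≤ a → a ≤ 1 → IsOpen (δ '' ShC a c r)ᶜ :=
    fun ha ha' => isOpen_compl_image δ (isCompact_ShC _ _ _) ((hin ha ha').trans hB)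
  have hact : ∀ {a : ℝ}, 0 ≤ a → a ≤ 1 → ∀ y θ, rot4.act θ y ∈ δ '' Sh a c r ↔
      y ∈ δ '' Sh a c r := by
    intro a ha ha' y θ
    constructor
    · rintro ⟨q, hq, hqy⟩
      refine ⟨rotp (-θ) q, rotp_mem_Sh _ hq, ?_⟩
      rw [heq q (hin' ha ha' hq), hqy, rot4.neg_act]
    · rintro ⟨q, hq, rfl⟩
      exact ⟨rotp θ q, rotp_mem_Sh _ hq, heq q (hin' ha ha' hq) θ⟩
  have hactC : ∀ {a : ℝ}, 0 ≤ a → a ≤ 1 → ∀ y θ, rot4.act θ y ∈ δ '' ShC a c r ↔
      y ∈ δ '' ShC a c r := by
    intro a ha ha' y θ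
    constructor
    · rintro ⟨q, hq, hqy⟩
      refine ⟨rotp (-θ) q, rotp_mem_ShC _ hq, ?_⟩
      rw [heq q (hin ha ha' hq), hqy, rot4.neg_act]
    · rintro ⟨q, hq, rfl⟩
      exact ⟨rotp θ q, rotp_mem_ShC _ hq, heq q (hin ha ha' hq) θ⟩
  set U : Set S4 := (δ '' ShC 0 c r)ᶜ with hUdef
  set V : Set S4 := δ '' Sh 1 c r with hVdef
  have hUo : IsOpen U := hclosed le_rfl zero_le_one
  have hVo : IsOpen V := hopen zero_le_one le_rfl
  have hUV : U ∪ V = univ := by
    apply eq_univ_of_forall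
    intro y
    by_cases hy : y ∈ δ '' ShC 0 c r
    · exact Or.inr (image_mono (hsub le_rfl zero_lt_one le_rfl) hy)
    · exact Or.inl hy
  have hVt : V ⊆ δ.target := by
    rintro _ ⟨p, hp, rfl⟩
    exact δ.toPartialEquiv.map_source (hB (hin' zero_le_one le_rfl hp))
  have hsmooth : ContMDiffOn (𝓡 4) 𝓘(ℝ, R4) ∞ δ.toPartialEquiv.symm V :=
    δ.contMDiffOn_invFun.mono hVt
  have hVact : ∀ y θ, rot4.act θ y ∈ V ↔ y ∈ V := hact zero_le_one le_rfl
  have hUact : ∀ y θ, rot4.act θ y ∈ U ↔ y ∈ U := fun y θ =>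
    not_congr (hactC le_rfl zero_le_one y θ)
  have hsact : ∀ y ∈ V, ∀ θ, δ.toPartialEquiv.symm (rot4.act θ y) =
      rotp θ (δ.toPartialEquiv.symm y) := by
    rintro _ ⟨q, hq, rfl⟩ θ
    have hq1 := hin' zero_le_one le_rfl hq
    rw [← heq q hq1 θ, hsymm _ (rotp_mem_ShC θ hq1), hsymm _ hq1]
  -- the cocycle
  let g : S4 → Circle := fun y => if y ∈ V then gq c r (δ.toPartialEquiv.symm y) else 1
  have hgV : ∀ q ∈ Sh 1 c r, g (δ q) = gq c r q := by
    intro q hq
    simp only [g]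
    rw [if_pos ⟨q, hq, rfl⟩, hsymm q (hin' zero_le_one le_rfl hq)]
  have hgi : ∀ y θ, g (rot4.act θ y) = g y := by
    intro y θ
    simp only [g]
    by_cases hy : y ∈ V
    · rw [if_pos hy, if_pos ((hVact y θ).2 hy), hsact y hy, gq_rotp]
    · rw [if_neg hy, if_neg (fun h => hy ((hVact y θ).1 h))]
  have hgs : ∀ y ∈ U ∩ V, ContMDiffAt (𝓡 4) 𝓘(ℝ, ℂ) ∞ (fun z => (g z : ℂ)) y := by
    rintro y ⟨hyU, hyV⟩
    have h1 : δ.toPartialEquiv.symm y ∉ ShC 0 c r := by
      obtain ⟨q, hq, rfl⟩ := hyV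
      rw [hsymm q (hin' zero_le_one le_rfl hq)]
      exact fun h => hyU ⟨q, h, rfl⟩
    have h2 : ContMDiffAt (𝓡 4) 𝓘(ℝ, R4) ∞ δ.toPartialEquiv.symm y :=
      hsmooth.contMDiffAt (hVo.mem_nhds hyV)
    have h3 : ContMDiffAt (𝓡 4) 𝓘(ℝ, ℂ) ∞
        (fun z => (gq c r (δ.toPartialEquiv.symm z) : ℂ)) y :=
      ContMDiffAt.comp (g := fun p => (gq c r p : ℂ)) y (contDiffAt_gq hr h1).contMDiffAt h2
    apply h3.congr_of_eventuallyEq
    filter_upwards [hVo.mem_nhds hyV] with z hz
    simp only [g]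
    rw [if_pos hz]
  have hgc : ContinuousOn g (U ∩ V) := by
    intro y hy
    have h1 := (hgs y hy).continuousAt
    have h3 : Topology.IsInducing (fun z : Circle => (z : ℂ)) := ⟨rfl⟩
    have h2 : ContinuousAt g y := h3.continuousAt_iff.2 h1
    exact h2.continuousWithinAt
  obtain ⟨k, l, hk, hl, hkl⟩ := exists_split hUo hVo hUV hgc
  have hkap : ∀ x : S4, ∀ P : Set S4, (∀ y θ, rot4.act θ y ∈ P ↔ y ∈ P) →
      (kap (pr x) ∈ P ↔ x ∈ P) := by
    intro x P hP
    obtain ⟨θ, hθ⟩ := exists_act_kap x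
    conv_rhs => rw [← hθ]
    exact (hP _ _).symm
  -- lifting `l`
  have hfc : Continuous fun y : ℝ × ℝ × ℝ => l (pr (δ (kS (3 / 4) c r y))) := by
    have hmem : ∀ y, kS (3 / 4) c r y ∈ ShC (3 / 4) c r :=
      fun y => kS_mem hr (by norm_num) (by norm_num) y
    have c1 : Continuous fun y : ℝ × ℝ × ℝ => pr (δ (kS (3 / 4) c r y)) := by
      apply continuous_pr.comp
      exact δ.contMDiffOn_toFun.continuousOn.comp_continuous (continuous_kS _ _ _)
        (fun y => hB (hin (by norm_num) (by norm_num) (hmem y)))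
    apply hl.comp_continuous c1
    intro y
    rw [mem_ofPred_eq, hkap _ _ hVact]
    exact ⟨_, hsub (by norm_num) (by norm_num) le_rfl (hmem y), rfl⟩
  obtain ⟨e₀, he₀⟩ : ∃ e : ℝ, Circle.exp e = l (pr (δ (kS (3 / 4) c r 0))) :=
    ⟨_, Circle.exp_arg _⟩
  obtain ⟨L, ⟨-, hL⟩, -⟩ := Circle.isCoveringMap_exp.existsUnique_continuousMap_lifts
    (⟨_, hfc⟩ : C(ℝ × ℝ × ℝ, Circle)) 0 e₀ he₀
  have hL' : ∀ q ∈ ShC (3 / 4) c r, Circle.exp (L (pS c q)) = l (pr (δ q)) := by
    intro q hq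
    have h1 : Circle.exp (L (pS c q)) = l (pr (δ (kS (3 / 4) c r (pS c q)))) := congrFun hL _
    obtain ⟨θ, hθ⟩ := exists_rotp_kS hr (by norm_num) (by norm_num) hq
    have hq' := kS_mem hr (a := 3 / 4) (c := c) (by norm_num) (by norm_num) (pS c q)
    rw [h1]
    conv_rhs => rw [← hθ, heq _ (hin (by norm_num) (by norm_num) hq') θ, pr_act]
  -- the correction
  let m : S4 → ℝ := fun y => if y ∈ V then
    chig (11 / 16) (3 / 4) c r (δ.toPartialEquiv.symm y) *
      L (pS c (δ.toPartialEquiv.symm y)) else 0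
  have hrpos : ∀ q ∈ Sh 1 c r, 0 < rsq c q := by
    rintro q ⟨-, -, -, h⟩
    exact lt_of_le_of_lt (by positivity) h
  have hmc : Continuous m := by
    rw [continuous_iff_continuousAt]
    intro y
    by_cases hy : y ∈ V
    · have c0 : ContinuousOn δ.toPartialEquiv.symm V := hsmooth.continuousOn
      have c1 : ContinuousOn (fun y => chig (11 / 16) (3 / 4) c r (δ.toPartialEquiv.symm y) *
          L (pS c (δ.toPartialEquiv.symm y))) V := by
        apply ((contDiff_chig _ _ _ _).continuous.comp_continuousOn c0).mul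
        apply L.continuous.comp_continuousOn
        apply (continuousOn_pS c).comp c0
        rintro _ ⟨q, hq, rfl⟩
        rw [mem_ofPred_eq, hsymm q (hin' zero_le_one le_rfl hq)]
        exact hrpos q hq
      apply (c1.continuousAt (hVo.mem_nhds hy)).congr
      filter_upwards [hVo.mem_nhds hy] with z hz
      simp only [m]
      rw [if_pos hz]
    · have hy2 : y ∈ (δ '' ShC (3 / 4) c r)ᶜ := by
        intro h
        exact hy (image_mono (hsub (by norm_num) (by norm_num) le_rfl) h)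
      apply (continuousAt_const (y := (0 : ℝ))).congr
      filter_upwards [(hclosed (by norm_num) (by norm_num)).mem_nhds hy2] with z hz
      simp only [m]
      split_ifs with hzV
      · obtain ⟨q, hq, rfl⟩ := hzV
        rw [hsymm q (hin' zero_le_one le_rfl hq), chig_eq_zero hr (by norm_num) (by norm_num)
          (by norm_num) (fun h => hz ⟨q, Sh_subset_ShC _ _ _ h, rfl⟩), zero_mul]
      · rfl
  have hmi : ∀ y θ, m (rot4.act θ y) = m y := by
    intro y θ
    simp only [m]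
    by_cases hy : y ∈ V
    · rw [if_pos hy, if_pos ((hVact y θ).2 hy), hsact y hy, chig_rotp, pS_rotp]
    · rw [if_neg hy, if_neg (fun h => hy ((hVact y θ).1 h))]
  let K : S4 → Circle := fun y => k (pr y) * Circle.exp (-m y)
  have hKi : ∀ y θ, K (rot4.act θ y) = K y := by
    intro y θ
    simp only [K, pr_act, hmi]
  have hKc : ContinuousOn K U := by
    apply ContinuousOn.mul
    · apply hk.comp continuous_pr.continuousOn
      intro y hy
      rw [mem_ofPred_eq, hkap _ _ hUact]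
      exact hy
    · exact (Circle.exp.continuous.comp hmc.neg).continuousOn
  have hKg : ∀ q ∈ ShC (11 / 16) c r, q ∉ ShC 0 c r → K (δ q) = gq c r q := by
    intro q hq hq0
    have hq1 : q ∈ Sh 1 c r := hsub (by norm_num) (by norm_num) le_rfl hq
    have hqi : q ∈ ShC 1 c r := hin (by norm_num) (by norm_num) hq
    have hyV : δ q ∈ V := ⟨q, hq1, rfl⟩
    have hyU : δ q ∈ U := by
      rintro ⟨q', hq', hqq⟩
      apply hq0
      rw [← hinj q' (hin le_rfl zero_le_one hq') q hqi hqq]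
      exact hq'
    have h1 := hkl (pr (δ q)) ((hkap _ _ hUact).2 hyU) ((hkap _ _ hVact).2 hyV)
    have h2 : g (kap (pr (δ q))) = gq c r q := by
      obtain ⟨θ, hθ⟩ := exists_act_kap (δ q)
      rw [← hgV q hq1]
      conv_rhs => rw [← hθ]
      rw [hgi]
    have h3 : m (δ q) = L (pS c q) := by
      simp only [m]
      rw [if_pos hyV, hsymm q hqi, chig_eq_one hr (by norm_num) (by norm_num) (by norm_num) hq,
        one_mul]
    simp only [K]
    rw [h1, h2, h3, Circle.exp_neg, hL' q ((hsub (by norm_num) (by norm_num) (by norm_num)).trans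
      (Sh_subset_ShC (3 / 4) _ _) hq), mul_inv_cancel_right]
  -- smoothing
  obtain ⟨f, hf⟩ := exists_contMDiffMap_forall_mem_convex_of_local_const
    𝓘(ℝ, ℝ × ℝ × ℝ) (n := ⊤)
    (t := fun y : ℝ × ℝ × ℝ => if kap y ∈ δ '' Sh (1 / 2) c r then univ
      else Metric.ball (K (kap y) : ℂ) (1 / 2))
    (by
      intro y
      split_ifs
      · exact convex_univ
      · exact convex_ball _ _)
    (by
      intro y
      by_cases hy : kap y ∈ δ '' Sh (1 / 2) c r
      · refine ⟨0, ?_⟩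
        filter_upwards [continuous_kap.continuousAt.eventually_mem
          ((hopen (by norm_num) (by norm_num)).mem_nhds hy)] with z hz
        rw [if_pos hz]
        exact mem_univ _
      · have hyU : kap y ∈ U := by
          intro h
          exact hy (image_mono (hsub le_rfl (by norm_num) (by norm_num)) h)
        have c1 : ContinuousAt (fun z => (K (kap z) : ℂ)) y := by
          have c2 : ContinuousAt K (kap y) := hKc.continuousAt (hUo.mem_nhds hyU)
          have c3 : ContinuousAt (fun z => K (kap z)) y :=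
            ContinuousAt.comp (f := kap) c2 continuous_kap.continuousAt
          exact continuous_subtype_val.continuousAt.comp c3
        refine ⟨K (kap y), ?_⟩
        have h2 := c1.eventually_mem (Metric.ball_mem_nhds _ (ε := 1 / 2) (by norm_num))
        filter_upwards [h2] with z hz
        split_ifs
        · exact mem_univ _
        · rw [Metric.mem_ball, dist_comm]
          exact hz)
  let ρ : S4 → ℝ := fun y => if y ∈ V then
    chig (1 / 2) (5 / 8) c r (δ.toPartialEquiv.symm y) else 0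
  have hρi : ∀ y θ, ρ (rot4.act θ y) = ρ y := by
    intro y θ
    simp only [ρ]
    by_cases hy : y ∈ V
    · rw [if_pos hy, if_pos ((hVact y θ).2 hy), hsact y hy, chig_rotp]
    · rw [if_neg hy, if_neg (fun h => hy ((hVact y θ).1 h))]
  have hρV : ∀ q ∈ Sh 1 c r, ρ (δ q) = chig (1 / 2) (5 / 8) c r q := by
    intro q hq
    simp only [ρ]
    rw [if_pos ⟨q, hq, rfl⟩, hsymm q (hin' zero_le_one le_rfl hq)]
  have hρmem : ∀ y, ρ y ∈ Icc (0 : ℝ) 1 := by
    intro y
    simp only [ρ]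
    split_ifs
    · exact chig_mem _ _ _ _ _
    · exact ⟨le_rfl, zero_le_one⟩
  have hρ0 : ∀ y ∉ V, ∀ᶠ z in 𝓝 y, ρ z = 0 := by
    intro y hy
    have hy2 : y ∈ (δ '' ShC (5 / 8) c r)ᶜ := by
      intro h
      exact hy (image_mono (hsub (by norm_num) (by norm_num) le_rfl) h)
    filter_upwards [(hclosed (by norm_num) (by norm_num)).mem_nhds hy2] with z hz
    simp only [ρ]
    split_ifs with hzV
    · obtain ⟨q, hq, rfl⟩ := hzV
      rw [hsymm q (hin' zero_le_one le_rfl hq), chig_eq_zero hr (by norm_num) (by norm_num)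
        (by norm_num) (fun h => hz ⟨q, Sh_subset_ShC _ _ _ h, rfl⟩)]
    · rfl
  have hρs : ∀ y ∈ V, ContMDiffAt (𝓡 4) 𝓘(ℝ, ℝ) ∞ ρ y := by
    intro y hy
    have h2 : ContMDiffAt (𝓡 4) 𝓘(ℝ, R4) ∞ δ.toPartialEquiv.symm y :=
      hsmooth.contMDiffAt (hVo.mem_nhds hy)
    have h3 : ContMDiffAt (𝓡 4) 𝓘(ℝ, ℝ) ∞
        (fun z => chig (1 / 2) (5 / 8) c r (δ.toPartialEquiv.symm z)) y :=
      ContMDiffAt.comp (g := chig (1 / 2) (5 / 8) c r) y
        (contDiff_chig _ _ _ _).contMDiff.contMDiffAt h2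
    apply h3.congr_of_eventuallyEq
    filter_upwards [hVo.mem_nhds hy] with z hz
    simp only [ρ]
    rw [if_pos hz]
  have hfs : ContMDiff (𝓡 4) 𝓘(ℝ, ℂ) ∞ (fun y => f (pr y)) := f.contMDiff.comp smooth_pr
  have hG1 : ∀ q ∈ Sh (1 / 2) c r,
      ((1 - ρ (δ q) : ℝ) : ℂ) * f (pr (δ q)) + ((ρ (δ q) : ℝ) : ℂ) * (g (δ q) : ℂ) =
        gq c r q := by
    intro q hq
    have hq1 : q ∈ Sh 1 c r :=
      hsub (by norm_num) (by norm_num) le_rfl (Sh_subset_ShC _ _ _ hq)
    rw [hρV q hq1, hgV q hq1, chig_eq_one hr (by norm_num) (by norm_num) (by norm_num)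
      (Sh_subset_ShC _ _ _ hq)]
    simp
  refine ⟨fun y => (1 - ρ y) • f (pr y) + ρ y • (g y : ℂ), ?_, ?_, ?_, ?_⟩
  · intro y hy
    apply ContMDiffAt.contMDiffWithinAt
    by_cases hyV : y ∈ V
    · have h1 : ContMDiffAt (𝓡 4) 𝓘(ℝ, ℝ) ∞ (fun z => 1 - ρ z) y :=
        contMDiffAt_const.sub (hρs y hyV)
      exact (h1.smul hfs.contMDiffAt).add ((hρs y hyV).smul (hgs y ⟨hy, hyV⟩))
    · apply hfs.contMDiffAt.congr_of_eventuallyEq
      filter_upwards [hρ0 y hyV] with z hz
      rw [hz]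
      simp
  · intro y θ
    simp only [hρi, hgi, pr_act]
  · intro y hy
    have hnorm : ‖(((1 - ρ y : ℝ) : ℂ) * f (pr y) + ((ρ y : ℝ) : ℂ) * (g y : ℂ)) - (K y : ℂ)‖ <
        1 / 2 := by
      by_cases hyN : y ∈ δ '' Sh (1 / 2) c r
      · obtain ⟨q, hq, rfl⟩ := hyN
        rw [hG1 q hq, hKg q ((Sh_subset_ShC _ _ _).trans ((hsub (by norm_num) (by norm_num)
          (by norm_num)).trans (Sh_subset_ShC _ _ _)) hq) (fun h => hy ⟨q, h, rfl⟩)]
        simp
      · have h1 : kap (pr y) ∉ δ '' Sh (1 / 2) c r := by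
          rw [hkap y _ (hact (by norm_num) (by norm_num))]
          exact hyN
        have h2 := hf (pr y)
        rw [if_neg h1] at h2
        have h3 : K (kap (pr y)) = K y := by
          obtain ⟨θ, hθ⟩ := exists_act_kap y
          conv_rhs => rw [← hθ, hKi]
        rw [h3, Metric.mem_ball, dist_eq_norm] at h2
        have h4 : ((ρ y : ℝ) : ℂ) * (g y : ℂ) = ((ρ y : ℝ) : ℂ) * (K y : ℂ) := by
          by_cases hρy : ρ y = 0
          · rw [hρy]; simp
          · have hyV : y ∈ V := by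
              by_contra h
              apply hρy
              simp only [ρ]
              rw [if_neg h]
            obtain ⟨q, hq, rfl⟩ := hyV
            have h5 : q ∈ Sh (5 / 8) c r := by
              by_contra h
              apply hρy
              rw [hρV q hq, chig_eq_zero hr (by norm_num) (by norm_num) (by norm_num) h]
            rw [hgV q hq, hKg q ((Sh_subset_ShC _ _ _).trans ((hsub (by norm_num) (by norm_num)
              (by norm_num)).trans (Sh_subset_ShC _ _ _)) h5) (fun h => hy ⟨q, h, rfl⟩)]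
        have h6 : (((1 - ρ y : ℝ) : ℂ) * f (pr y) + ((ρ y : ℝ) : ℂ) * (g y : ℂ)) - (K y : ℂ) =
            ((1 - ρ y : ℝ) : ℂ) * (f (pr y) - (K y : ℂ)) := by
          rw [h4]
          push_cast
          ring
        rw [h6, norm_mul, Complex.norm_real, Real.norm_eq_abs,
          abs_of_nonneg (by linarith [(hρmem y).2])]
        calc (1 - ρ y) * ‖f (pr y) - (K y : ℂ)‖ ≤ 1 * ‖f (pr y) - (K y : ℂ)‖ :=
              mul_le_mul_of_nonneg_right (by linarith [(hρmem y).1]) (norm_nonneg _)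
          _ < 1 / 2 := by rw [one_mul]; exact h2
    intro h0
    simp only [Complex.real_smul] at h0
    rw [h0, zero_sub, norm_neg, Circle.norm_coe] at hnorm
    norm_num at hnorm
  · intro q hq hq0
    simp only [Complex.real_smul]
    exact hG1 q hq

end Pool.Agent.Helper65.Barb
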