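import Pool.Agent.Helper65.Barb.Dual2

/-!
# The diffeomorphism attached to an equivariant thickened sphere
-/

set_option autoImplicit false
set_option linter.unusedSectionVars false
set_option linter.unusedVariables false

open scoped Manifold ContDiff Topology ComplexConjugate
open Set

namespace Pool.Agent.Helper65.Barb

section
variable {E : Type*} [NormedAddCommGroup E] [NormedSpace ℝ E] {H : Type*} [TopologicalSpace H]
  {I : ModelWithCorners ℝ E H} {M : Type*} [TopologicalSpace M] [ChartedSpace H M]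

theorem isDiffeo_of {F F' : M → M} (hF : ContMDiff I I ∞ F) (hF' : ContMDiff I I ∞ F')
    (h1 : ∀ y, F (F' y) = y) (h2 : ∀ y, F' (F y) = y) : IsDiffeo I F :=
  ⟨⟨fun p => F p.2, fun p => F' p.2, hF.comp contMDiff_snd, hF'.comp contMDiff_snd,
    fun _ => h1, fun _ => h2⟩, fun _ => rfl, fun _ => rfl⟩

theorem IsDiffeo.contMDiff {F : M → M} (h : IsDiffeo I F) : ContMDiff I I ∞ F := by
  obtain ⟨D, h0, -⟩ := h
  have : F = fun x => D.f (0, x) := funext fun x => (h0 x).symm
  rw [this]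
  exact D.smooth_f.comp (contMDiff_const.prodMk contMDiff_id)

namespace CircleAction

variable {A : CircleAction I M}

theorem act_congr (A : CircleAction I M) {a b : ℝ} (h : Circle.exp a = Circle.exp b) (x : M) :
    A.act a x = A.act b x := by
  obtain ⟨k, hk⟩ := Circle.exp_eq_exp.1 h
  rw [hk, A.add, A.period_int]

theorem LB.contMDiffAt {F : M → M} {x : M} (h : A.LB F x) : ContMDiffAt I I ∞ F x := by
  obtain ⟨V, hV, hx, -, h, hs, -, hF⟩ := h
  have h1 : ContMDiffAt I 𝓘(ℝ, ℝ) ∞ h x := hs.contMDiffAt (hV.mem_nhds hx)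
  have h2 : ContMDiffAt I I ∞ (fun y => A.act (h y) y) x :=
    ContMDiffAt.comp (f := fun y => (h y, y)) x (A.smooth _) (h1.prodMk contMDiffAt_id)
  apply h2.congr_of_eventuallyEq
  filter_upwards [hV.mem_nhds hx] with y hy
  exact hF y hy

theorem LB.conj {F Φ Φ' : M → M} {x : M} (hΦ' : ContMDiff I I ∞ Φ')
    (h1 : ∀ y, Φ (Φ' y) = y) (he : ∀ θ y, Φ (A.act θ y) = A.act θ (Φ y))
    (he' : ∀ θ y, Φ' (A.act θ y) = A.act θ (Φ' y)) (h : A.LB F (Φ' x)) :
    A.LB (fun y => Φ (F (Φ' y))) x := by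
  obtain ⟨V, hV, hx, hVi, h, hs, hi, hF⟩ := h
  refine ⟨Φ' ⁻¹' V, hV.preimage hΦ'.continuous, hx, ?_, fun y => h (Φ' y), ?_, ?_, ?_⟩
  · intro y hy θ
    rw [mem_preimage, he']
    exact hVi _ hy θ
  · exact hs.comp hΦ'.contMDiffOn (fun y hy => hy)
  · intro y hy θ
    beta_reduce
    rw [he', hi _ hy]
  · intro y hy
    beta_reduce
    rw [hF _ hy, he, h1]

/-- local form of a rotation by the argument of a nonvanishing complex function -/
theorem LB_arg {G : M → ℂ} {U : Set M} (hU : IsOpen U) (hs : ContMDiffOn I 𝓘(ℝ, ℂ) ∞ G U)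
    (hUi : ∀ y ∈ U, ∀ θ, A.act θ y ∈ U) (hi : ∀ x θ, G (A.act θ x) = G x)
    (h0 : ∀ y ∈ U, G y ≠ 0) {F : M → M} (hF : ∀ y ∈ U, F y = A.act (Complex.arg (G y)) y)
    {x : M} (hx : x ∈ U) : A.LB F x := by
  have hz0 := h0 x hx
  have hGc : ContinuousOn G U := hs.continuousOn
  have hc : ContinuousOn (fun y => G y * conj (G x)) U := hGc.mul continuousOn_const
  have hWo : IsOpen (U ∩ (fun y => G y * conj (G x)) ⁻¹' Complex.slitPlane) :=
    hc.isOpen_inter_preimage hU Complex.isOpen_slitPlane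
  refine ⟨U ∩ (fun y => G y * conj (G x)) ⁻¹' Complex.slitPlane, hWo, ⟨hx, ?_⟩, ?_,
    fun y => Complex.arg (G y * conj (G x)) + Complex.arg (G x), ?_, ?_, ?_⟩
  · rw [mem_preimage, Complex.mul_conj]
    left
    rw [Complex.ofReal_re]
    exact Complex.normSq_pos.2 hz0
  · rintro y ⟨hy1, hy2⟩ θ
    refine ⟨hUi y hy1 θ, ?_⟩
    rw [mem_preimage, hi]
    exact hy2
  · apply ContMDiffOn.add _ contMDiffOn_const
    intro y hy
    apply ContMDiffAt.contMDiffWithinAt
    have e1 : ContDiffAt ℝ ∞ (fun z : ℂ => Complex.arg z) (G y * conj (G x)) := by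
      have e2 : ContDiffAt ℂ ∞ Complex.log (G y * conj (G x)) := Complex.contDiffAt_log hy.2
      have e3 : ContDiffAt ℝ ∞ (fun z : ℂ => (Complex.log z).im) (G y * conj (G x)) :=
        Complex.imCLM.contDiff.contDiffAt.comp _ (e2.restrict_scalars ℝ)
      simpa only [Complex.log_im] using e3
    have e4 : ContMDiffAt I 𝓘(ℝ, ℂ) ∞ (fun z => G z * conj (G x)) y := by
      have e5 : ContMDiffAt I 𝓘(ℝ, ℂ) ∞ G y := hs.contMDiffAt (hU.mem_nhds hy.1)
      have e6 : ContDiff ℝ ∞ (fun z : ℂ => z * conj (G x)) := contDiff_id.mul contDiff_const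
      exact e6.contMDiff.contMDiffAt.comp y e5
    exact ContMDiffAt.comp (g := fun z : ℂ => Complex.arg z) y e1.contMDiffAt e4
  · rintro y - θ
    beta_reduce
    rw [hi]
  · rintro y ⟨hy1, hy2⟩
    rw [hF y hy1]
    apply A.act_congr
    rw [Circle.exp_add]
    apply Circle.ext
    rw [Circle.coe_mul, Circle.coe_exp, Circle.coe_exp, Circle.coe_exp]
    have a1 := Complex.norm_mul_exp_arg_mul_I (G y)
    have a2 := Complex.norm_mul_exp_arg_mul_I (G x)
    have a3 := Complex.norm_mul_exp_arg_mul_I (G y * conj (G x))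
    have n1 : (‖G y‖ : ℂ) ≠ 0 := by
      rw [Complex.ofReal_ne_zero, norm_ne_zero_iff]; exact h0 y hy1
    have n2 : (‖G x‖ : ℂ) ≠ 0 := by
      rw [Complex.ofReal_ne_zero, norm_ne_zero_iff]; exact hz0
    rw [norm_mul, RCLike.norm_conj, Complex.ofReal_mul] at a3
    have a4 : conj (G x) * G x = (‖G x‖ : ℂ) ^ 2 := by
      rw [mul_comm, Complex.mul_conj, Complex.normSq_eq_norm_sq]
      push_cast
      ring
    apply mul_left_cancel₀ (mul_ne_zero n1 (pow_ne_zero 2 n2))
    calc (‖G y‖ : ℂ) * (‖G x‖ : ℂ) ^ 2 * Complex.exp (Complex.arg (G y) * Complex.I)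
        = (‖G x‖ : ℂ) ^ 2 * (‖G y‖ * Complex.exp (Complex.arg (G y) * Complex.I)) := by ring
      _ = (‖G x‖ : ℂ) ^ 2 * G y := by rw [a1]
      _ = (G y * conj (G x)) * G x := by rw [← a4]; ring
      _ = (‖G y‖ * ‖G x‖ * Complex.exp (Complex.arg (G y * conj (G x)) * Complex.I)) *
          (‖G x‖ * Complex.exp (Complex.arg (G x) * Complex.I)) := by rw [a3, a2]
      _ = _ := by ring

end CircleAction

/-- `F` is a twist along the equivariant thickened sphere `δ(Shell c r)`: near the core it is the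
push-forward of the model twist, and off the core it is locally a rotation along orbits. -/
def IsTwist (A : CircleAction I M) (δ : PartialDiffeomorph 𝓘(ℝ, R4) I R4 M ∞) (c r : ℝ)
    (F : M → M) : Prop :=
  IsDiffeo I F ∧ (∀ p ∈ NShell c r, F (δ p) = δ ((twist c r).f (1, p))) ∧
    ∀ y ∉ δ '' Core c r, A.LB F y

end

theorem twist_off_core {c r : ℝ} (hr : 0 < r) {q : R4} (hq : q ∉ Core c r) :
    (twist c r).f (1, q) = rotp (if rsq c q < r ^ 2 then ang q else 0) q := by
  split_ifs with h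
  · exact twist_of_le hr le_rfl h.le
  · rw [rotp_zero]
    by_cases h2 : (2 * r) ^ 2 ≤ rsq c q
    · exact twist_of_ge hr h2
    · apply twist_of_notMem hr
      rintro ⟨h3, h4, h5⟩
      exact hq ⟨h3, h4, h5, not_lt.1 h⟩

/-- Existence of twists on the 4-sphere. -/
theorem exists_isTwist (δ : PartialDiffeomorph 𝓘(ℝ, R4) (𝓡 4) R4 S4 ∞) {c r : ℝ} (hr : 0 < r)
    (hB : Shell c r ⊆ δ.source)
    (heq : ∀ p ∈ Shell c r, ∀ θ, δ (rotp θ p) = rot4.act θ (δ p)) :
    ∃ F, IsTwist rot4 δ c r F := by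
  classical
  obtain ⟨G, hGs, hGi, hG0, hGN⟩ := exists_angle δ hr hB heq
  have hNS : NShell c r ⊆ Shell c r := NShell_subset_Shell hr
  have hCN : Core c r ⊆ NShell c r := Core_subset_NShell hr
  have hCS : Core c r ⊆ Shell c r := hCN.trans hNS
  have hinj : ∀ p ∈ Shell c r, ∀ q ∈ Shell c r, δ p = δ q → p = q :=
    fun p hp q hq h => δ.toPartialEquiv.injOn (hB hp) (hB hq) h
  have hsymm : ∀ p ∈ Shell c r, δ.toPartialEquiv.symm (δ p) = p :=
    fun p hp => δ.toPartialEquiv.left_inv (hB hp)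
  have hNo : IsOpen (δ '' NShell c r) := isOpen_image δ (isOpen_NShell _ _) (hNS.trans hB)
  have hNt : δ '' NShell c r ⊆ δ.target := by
    rintro _ ⟨p, hp, rfl⟩
    exact δ.toPartialEquiv.map_source (hB (hNS hp))
  have hCcomp : IsCompact (Core c r) := by rw [Core_eq]; exact isCompact_ShC _ _ _
  have hUo : IsOpen (δ '' Core c r)ᶜ := isOpen_compl_image δ hCcomp (hCS.trans hB)
  have hCrot : ∀ {p : R4} (θ : ℝ), p ∈ Core c r → rotp θ p ∈ Core c r := by
    intro p θ hp
    rw [Core_eq] at hp ⊢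
    exact rotp_mem_ShC θ hp
  have hUact : ∀ y ∈ (δ '' Core c r)ᶜ, ∀ θ, rot4.act θ y ∈ (δ '' Core c r)ᶜ := by
    rintro y hy θ ⟨q, hq, hqy⟩
    apply hy
    refine ⟨rotp (-θ) q, hCrot _ hq, ?_⟩
    rw [heq q (hCS hq), hqy, rot4.neg_act]
  have hNact : ∀ y ∉ δ '' NShell c r, ∀ θ, rot4.act θ y ∉ δ '' NShell c r := by
    rintro y hy θ ⟨q, hq, hqy⟩
    apply hy
    refine ⟨rotp (-θ) q, rotp_mem_NShell _ hq, ?_⟩
    rw [heq q (hNS hq), hqy, rot4.neg_act]
  let F : S4 → S4 := fun y => if y ∈ δ '' NShell c r then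
    δ ((twist c r).f (1, δ.toPartialEquiv.symm y)) else rot4.act (Complex.arg (G y)) y
  let F' : S4 → S4 := fun y => if y ∈ δ '' NShell c r then
    δ ((twist c r).g (1, δ.toPartialEquiv.symm y)) else rot4.act (-Complex.arg (G y)) y
  have hFN : ∀ q ∈ NShell c r, F (δ q) = δ ((twist c r).f (1, q)) := by
    intro q hq
    simp only [F]
    rw [if_pos ⟨q, hq, rfl⟩, hsymm q (hNS hq)]
  have hF'N : ∀ q ∈ NShell c r, F' (δ q) = δ ((twist c r).g (1, q)) := by
    intro q hq
    simp only [F']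
    rw [if_pos ⟨q, hq, rfl⟩, hsymm q (hNS hq)]
  have hFU : ∀ y ∈ (δ '' Core c r)ᶜ, F y = rot4.act (Complex.arg (G y)) y := by
    intro y hy
    by_cases hyN : y ∈ δ '' NShell c r
    · obtain ⟨q, hq, rfl⟩ := hyN
      have hqC : q ∉ Core c r := fun h => hy ⟨q, h, rfl⟩
      rw [hFN q hq, twist_off_core hr hqC, heq q (hNS hq)]
      apply rot4.act_congr
      rw [hGN q hq hqC]
      have : ∀ z : Circle, Circle.exp (Complex.arg (z : ℂ)) = z := Circle.exp_arg
      rw [this, gq]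
      split_ifs
      · rfl
      · exact Circle.exp_zero
    · simp only [F]
      rw [if_neg hyN]
  have h1 : ∀ y, F (F' y) = y := by
    intro y
    by_cases hyN : y ∈ δ '' NShell c r
    · obtain ⟨q, hq, rfl⟩ := hyN
      rw [hF'N q hq, hFN _ (twist_inv_mem_NShell hq), (twist c r).fg]
    · have e1 : F' y = rot4.act (-Complex.arg (G y)) y := by
        simp only [F']; rw [if_neg hyN]
      have e2 : F (F' y) = rot4.act (Complex.arg (G (F' y))) (F' y) := by
        simp only [F]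
        rw [if_neg]
        rw [e1]
        exact hNact y hyN _
      rw [e2, e1, hGi, rot4.act_neg]
  have h2 : ∀ y, F' (F y) = y := by
    intro y
    by_cases hyN : y ∈ δ '' NShell c r
    · obtain ⟨q, hq, rfl⟩ := hyN
      rw [hFN q hq, hF'N _ (twist_mem_NShell hq), (twist c r).gf]
    · have e1 : F y = rot4.act (Complex.arg (G y)) y := by
        simp only [F]; rw [if_neg hyN]
      have e2 : F' (F y) = rot4.act (-Complex.arg (G (F y))) (F y) := by
        simp only [F']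
        rw [if_neg]
        rw [e1]
        exact hNact y hyN _
      rw [e2, e1, hGi, rot4.neg_act]
  have hLB : ∀ y ∉ δ '' Core c r, rot4.LB F y := fun y hy =>
    CircleAction.LB_arg hUo hGs hUact hGi (fun z hz => hG0 z hz) hFU hy
  have hsm : ∀ (T : R4 → R4), ContDiff ℝ ∞ T → (∀ q ∈ NShell c r, T q ∈ NShell c r) →
      ∀ y ∈ δ '' NShell c r, ContMDiffAt (𝓡 4) (𝓡 4) ∞
        (fun z => δ (T (δ.toPartialEquiv.symm z))) y := by
    intro T hT hTN y hy
    have e1 : ContMDiffAt (𝓡 4) 𝓘(ℝ, R4) ∞ (fun z => T (δ.toPartialEquiv.symm z)) y :=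
      ContMDiffAt.comp (g := T) y hT.contMDiff.contMDiffAt
        ((δ.contMDiffOn_invFun.mono hNt).contMDiffAt (hNo.mem_nhds hy))
    have e2 : ContMDiffAt 𝓘(ℝ, R4) (𝓡 4) ∞ δ (T (δ.toPartialEquiv.symm y)) := by
      apply δ.contMDiffOn_toFun.contMDiffAt
      apply δ.open_source.mem_nhds
      obtain ⟨q, hq, rfl⟩ := hy
      rw [hsymm q (hNS hq)]
      exact hB (hNS (hTN q hq))
    exact ContMDiffAt.comp (g := δ) y e2 e1
  have hTf : ContDiff ℝ ∞ (fun q : R4 => (twist c r).f (1, q)) :=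
    (contDiff_twistF c r).comp (contDiff_const.prodMk contDiff_id)
  have hTg : ContDiff ℝ ∞ (fun q : R4 => (twist c r).g (1, q)) :=
    (contDiff_twistG c r).comp (contDiff_const.prodMk contDiff_id)
  have hFs : ContMDiff (𝓡 4) (𝓡 4) ∞ F := by
    intro y
    by_cases hyN : y ∈ δ '' NShell c r
    · apply (hsm _ hTf (fun q hq => twist_mem_NShell hq) y hyN).congr_of_eventuallyEq
      filter_upwards [hNo.mem_nhds hyN] with z hz
      simp only [F]
      rw [if_pos hz]
    · exact (hLB y (fun h => hyN (image_mono hCN h))).contMDiffAt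
  have hF's : ContMDiff (𝓡 4) (𝓡 4) ∞ F' := by
    intro y
    by_cases hyN : y ∈ δ '' NShell c r
    · apply (hsm _ hTg (fun q hq => twist_inv_mem_NShell hq) y hyN).congr_of_eventuallyEq
      filter_upwards [hNo.mem_nhds hyN] with z hz
      simp only [F']
      rw [if_pos hz]
    · exact ((hLB y (fun h => hyN (image_mono hCN h))).inv h2).contMDiffAt
  exact ⟨F, isDiffeo_of hFs hF's h1 h2, hFN, hLB⟩

end Pool.Agent.Helper65.Barb
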