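import Pool.Agent.Helper65.Barb.Sph

/-!
# Implantations
-/

set_option autoImplicit false
set_option linter.unusedSectionVars false
set_option linter.unusedVariables false

open scoped Manifold ContDiff Topology ComplexConjugate
open Set

namespace Pool.Agent.Helper65.Barb

theorem IsBarbellMap.eq_self {β : R4 → R4} (hβ : IsBarbellMap β) {p : R4} (hp : p ∉ NB) :
    β p = p := by
  obtain ⟨Φ, -, h1, ⟨K, -, hKi, hK⟩, hz, ho⟩ := hβ
  rw [← h1]
  by_cases hpK : p ∈ K
  · have hpb := interior_subset (hKi hpK)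
    by_cases h0 : rsq 0 p ≤ (3 / 20) ^ 2
    · exact hz 1 (by simp) p h0
    · have h2 : rsq 1 p ≤ (3 / 20) ^ 2 := by
        by_contra h2
        exact hp ⟨hpb, (not_le.1 h0).le, (not_le.1 h2).le⟩
      obtain ⟨s, x⟩ := p
      obtain ⟨y, rfl⟩ : ∃ y : ℝ × ℂ, x = (1, 0) + y := ⟨x - (1, 0), by abel⟩
      have hy : nsq y ≤ (3 / 20) ^ 2 := by
        have : rsq 1 (s, (1, 0) + y) = nsq y := by simp [rsq]
        rw [← this]; exact h2
      rw [ho 1 (by simp) s y hy, step_of_one_le le_rfl, spin_one]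
      simp
  · exact hK 1 p hpK

theorem implantation_eq_push (B : PartialDiffeomorph 𝓘(ℝ, R4) (𝓡 4) R4 S4 ∞)
    (hB : NB ⊆ B.source) {β : R4 → R4} (hβ : IsBarbellMap β) : implantation B β = push B β := by
  funext y
  by_cases hy : y ∈ B '' NB
  · rw [implantation, if_pos hy]
    obtain ⟨p, hp, rfl⟩ := hy
    have h2 : B.toPartialEquiv.symm (B p) = p := B.toPartialEquiv.left_inv (hB hp)
    rw [h2, push_of_mem B _ (hB hp)]
  · rw [implantation, if_neg hy,
      push_of_notMem B _ hB (fun x hx => hβ.eq_self hx) hy]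

end Pool.Agent.Helper65.Barb
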