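import Pool.Agent.Helper65.Barb.Formula
import Pool.Agent.Helper65.Barb.Implant

/-!
# Barbells in the 4-sphere invariant under the rotation
-/

set_option autoImplicit false
set_option linter.unusedSectionVars false
set_option linter.unusedVariables false

open scoped Manifold ContDiff Topology ComplexConjugate
open Set

namespace Pool.Agent.Helper65.Barb

theorem RotMove.exists_isMove {Φ : S4 → S4} (h : RotMove Φ) : ∃ Φ', IsMove rot4 Φ Φ' := by
  obtain ⟨h1, h2⟩ := h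
  obtain ⟨Φ', -, e1, e2⟩ := h1.left.exists_inv
  exact ⟨Φ', h1, e1, e2, h2⟩

/-- the similarity as a diffeomorphism -/
noncomputable def sclDiffeo (c : ℝ) {r : ℝ} (hr : 0 < r) : R4 ≃ₘ⟮𝓘(ℝ, R4), 𝓘(ℝ, R4)⟯ R4 where
  toFun := scl c r
  invFun := sclInv c r
  left_inv := sclInv_scl hr
  right_inv := scl_sclInv hr
  contMDiff_toFun := (contDiff_scl c r).contMDiff
  contMDiff_invFun := (contDiff_sclInv c r).contMDiff

theorem scl_zero_one (p : R4) : scl 0 1 p = p := by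
  refine Prod.ext rfl (Prod.ext ?_ ?_)
  · simp [scl]
  · simp [scl]

/-- `F` is a twist along the thickened sphere `σ` -/
def TwistAlong (σ : R4 → S4) (F : S4 → S4) : Prop :=
  ∃ δ : PartialDiffeomorph 𝓘(ℝ, R4) (𝓡 4) R4 S4 ∞, IsSphere rot4 δ 0 1 ∧
    (∀ p ∈ Shell 0 1, δ p = σ p) ∧ IsTwist rot4 δ 0 1 F

theorem IsSpunSphere.exists_twist {σ : R4 → S4} (h : IsSpunSphere σ) :
    ∃ F, TwistAlong σ F := by
  obtain ⟨⟨δ, h1, h2⟩, h3⟩ := h
  have hrot : ∀ p ∈ Shell 0 1, ∀ θ, rotp θ p ∈ Shell 0 1 := by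
    intro p hp θ
    rw [Shell_eq] at hp ⊢
    exact rotp_mem_ShC θ hp
  have hs : IsSphere rot4 δ 0 1 := by
    refine ⟨one_pos, h1, ?_⟩
    intro p hp θ
    rw [h2 p hp, h2 _ (hrot p hp θ), h3 p hp θ]
    rfl
  obtain ⟨F, hF⟩ := exists_isTwist δ one_pos h1 hs.equiv
  exact ⟨F, δ, hs, h2, hF⟩

theorem TwistAlong.same {σ σ' : R4 → S4} {F F' : S4 → S4} (hF : TwistAlong σ F)
    (hF' : TwistAlong σ' F') (h : SameSphere σ σ') : Isot (𝓡 4) F F' := by
  obtain ⟨δ, hs, hδ, ht⟩ := hF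
  obtain ⟨δ', hs', hδ', ht'⟩ := hF'
  obtain ⟨Φ, hΦ, hm⟩ := h
  obtain ⟨Φ', hΦ'⟩ := hΦ.exists_isMove
  apply ht.isot_of_move rot4_global hs hs' hΦ' _ ht'
  intro p hp
  rw [scl_zero_one, hδ p hp, hδ' p hp, hm p hp]

theorem TwistAlong.opposite {σ σ' : R4 → S4} {F F' : S4 → S4} (hF : TwistAlong σ F)
    (hF' : TwistAlong σ' F') (h : OppositeSphere σ σ') :
    Isot (𝓡 4) (fun y => F' (F y)) (fun y => y) := by
  obtain ⟨δ, hs, hδ, ht⟩ := hF
  obtain ⟨δ', hs', hδ', ht'⟩ := hF'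
  obtain ⟨Φ, hΦ, hm⟩ := h
  obtain ⟨Φ', hΦ'⟩ := hΦ.exists_isMove
  apply ht.isot_reverse rot4_global hs hs' hΦ' _ ht'
  intro p hp
  have hf : flip p ∈ Shell 0 1 := by
    rw [Shell_eq] at hp ⊢
    exact flip_mem_ShC hp
  rw [scl_zero_one, scl_zero_one, hδ p hp, hδ' _ hf, hm p hp]

theorem TwistAlong.ball {σ : R4 → S4} {F : S4 → S4} (hF : TwistAlong σ F)
    (h : BoundsInvariantBall σ) : Isot (𝓡 4) F (fun y => y) := by
  obtain ⟨δ, hs, hδ, ht⟩ := hF
  obtain ⟨δ', h1, h2, h3⟩ := h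
  apply ht.isot_one rot4_global hs
  exact ⟨δ', h1, h2, fun p hp => by rw [h3 p hp, hδ p hp]⟩

/-- a sphere of an equivariant embedding is a spun sphere, and twists correspond -/
theorem isSpunSphere_scl {B : PartialDiffeomorph 𝓘(ℝ, R4) (𝓡 4) R4 S4 ∞} {c r : ℝ}
    (hs : IsSphere rot4 B c r) : IsSpunSphere (fun p => B (scl c r p)) := by
  refine ⟨⟨(sclDiffeo c hs.pos).toPartialDiffeomorph.trans B, ?_, fun p _ => rfl⟩, ?_⟩
  · intro p hp
    refine ⟨trivial, ?_⟩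
    exact hs.sub (Shell_scl hs.pos hp)
  · intro p hp θ
    beta_reduce
    rw [scl_rotp, hs.equiv _ (Shell_scl hs.pos hp)]
    rfl

theorem TwistAlong.isTwist {B : PartialDiffeomorph 𝓘(ℝ, R4) (𝓡 4) R4 S4 ∞} {c r : ℝ}
    (hs : IsSphere rot4 B c r) {F : S4 → S4} (hF : TwistAlong (fun p => B (scl c r p)) F) :
    IsTwist rot4 B c r F := by
  obtain ⟨δ, hs', hδ, ht⟩ := hF
  have := ht.transport hs' hs (IsMove.id rot4) (by
    intro p hp
    rw [scl_zero_one, hδ p hp])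
  exact this

/-- the implantation of an invariant barbell in terms of twists along its three spheres -/
theorem formula4 {B : PartialDiffeomorph 𝓘(ℝ, R4) (𝓡 4) R4 S4 ∞} (hB : IsSpun B)
    {β : R4 → R4} (hβ : IsBarbellMap β) {F0 F1 F2 : S4 → S4} (h0 : TwistAlong (cuffA B) F0)
    (h1 : TwistAlong (cuffB B) F1) (h2 : TwistAlong (tubeSum B) F2) :
    Isot (𝓡 4) (fun y => implantation B β (F1 (F0 y))) F2 ∧
      Isot (𝓡 4) (fun y => F0 (F1 y)) (fun y => F1 (F0 y)) ∧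
      Isot (𝓡 4) (fun y => F0 (F2 y)) (fun y => F2 (F0 y)) ∧
      Isot (𝓡 4) (fun y => F1 (F2 y)) (fun y => F2 (F1 y)) := by
  have s0 := isSphere_zero (A := rot4) hB.1 hB.2
  have s1 := isSphere_one (A := rot4) hB.1 hB.2
  have s2 := isSphere_two (A := rot4) hB.1 hB.2
  have t0 := h0.isTwist s0
  have t1 := h1.isTwist s1
  have t2 := h2.isTwist s2
  obtain ⟨e1, e2, e3, e4⟩ := barbell_formula (A := rot4) rot4_dense rot4_global hB.1 hB.2 t0 t1 t2
  refine ⟨?_, e2, e3, e4⟩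
  have h3 : Isot (𝓡 4) (implantation B β) (push B barMap) := by
    rw [implantation_eq_push B hB.1 hβ]
    exact isot_push_barbellMap B hB.1 isBarbellMap_barMap hβ
  exact (h3.comp (t1.1.comp t0.1)).trans e1

theorem exists_twists {B : PartialDiffeomorph 𝓘(ℝ, R4) (𝓡 4) R4 S4 ∞} (hB : IsSpun B) :
    ∃ F0 F1 F2, TwistAlong (cuffA B) F0 ∧ TwistAlong (cuffB B) F1 ∧
      TwistAlong (tubeSum B) F2 := by
  obtain ⟨F0, h0⟩ := (isSpunSphere_scl (isSphere_zero (A := rot4) hB.1 hB.2)).exists_twist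
  obtain ⟨F1, h1⟩ := (isSpunSphere_scl (isSphere_one (A := rot4) hB.1 hB.2)).exists_twist
  obtain ⟨F2, h2⟩ := (isSpunSphere_scl (isSphere_two (A := rot4) hB.1 hB.2)).exists_twist
  exact ⟨F0, F1, F2, h0, h1, h2⟩

theorem TwistAlong.isDiffeo {σ : R4 → S4} {F : S4 → S4} (h : TwistAlong σ F) :
    IsDiffeo (𝓡 4) F := by
  obtain ⟨δ, -, -, ht⟩ := h
  exact ht.1

/-- Vanishing theorem. -/
theorem vanishing {B : PartialDiffeomorph 𝓘(ℝ, R4) (𝓡 4) R4 S4 ∞} (hB : IsSpun B)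
    (h : (BoundsInvariantBall (cuffA B) ∧ BoundsInvariantBall (cuffB B) ∧
        BoundsInvariantBall (tubeSum B)) ∨
      (BoundsInvariantBall (cuffA B) ∧ SameSphere (cuffB B) (tubeSum B)) ∨
      (BoundsInvariantBall (cuffB B) ∧ SameSphere (cuffA B) (tubeSum B)) ∨
      (BoundsInvariantBall (tubeSum B) ∧ OppositeSphere (cuffA B) (cuffB B)))
    {β : R4 → R4} (hβ : IsBarbellMap β) : Isot (𝓡 4) (implantation B β) (fun y => y) := by
  obtain ⟨F0, F1, F2, t0, t1, t2⟩ := exists_twists hB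
  obtain ⟨e1, e2, -, -⟩ := formula4 hB hβ t0 t1 t2
  have hf : IsDiffeo (𝓡 4) (implantation B β) := by
    rw [implantation_eq_push B hB.1 hβ]
    exact isot_push_barbellMap B hB.1 hβ hβ
  -- it suffices that `F₁ F₀` and `F₂` are isotopic
  have key : Isot (𝓡 4) (fun y => F1 (F0 y)) F2 → Isot (𝓡 4) (implantation B β) (fun y => y) := by
    intro h12
    obtain ⟨F2', hF2', a1, a2⟩ := t2.isDiffeo.exists_inv
    have b1 : Isot (𝓡 4) (fun y => implantation B β (F2 y)) F2 :=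
      (hf.comp h12.symm).trans e1
    have b2 := b1.comp hF2'
    simpa only [a1] using b2
  rcases h with ⟨b0, b1, b2⟩ | ⟨b0, hs⟩ | ⟨b1, hs⟩ | ⟨b2, ho⟩
  · apply key
    exact ((t1.ball b1).comp (t0.ball b0)).trans (t2.ball b2).symm
  · apply key
    exact ((t1.isDiffeo.comp (t0.ball b0))).trans (t1.same t2 hs)
  · apply key
    exact (((t1.ball b1).comp t0.isDiffeo)).trans (t0.same t2 hs)
  · apply key
    exact (t0.opposite t1 ho).trans (t2.ball b2).symm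

/-- Order two theorem. -/
theorem order_two {B : PartialDiffeomorph 𝓘(ℝ, R4) (𝓡 4) R4 S4 ∞} (hB : IsSpun B)
    (h0 : BoundsInvariantBall (cuffA B) ∨ OppositeSphere (cuffA B) (cuffA B))
    (h1 : BoundsInvariantBall (cuffB B) ∨ OppositeSphere (cuffB B) (cuffB B))
    (h2 : BoundsInvariantBall (tubeSum B) ∨ OppositeSphere (tubeSum B) (tubeSum B))
    {β : R4 → R4} (hβ : IsBarbellMap β) :
    Isot (𝓡 4) (fun y => implantation B β (implantation B β y)) (fun y => y) := by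
  obtain ⟨F0, F1, F2, t0, t1, t2⟩ := exists_twists hB
  obtain ⟨e1, c01, c02, c12⟩ := formula4 hB hβ t0 t1 t2
  have hf : IsDiffeo (𝓡 4) (implantation B β) := by
    rw [implantation_eq_push B hB.1 hβ]
    exact isot_push_barbellMap B hB.1 hβ hβ
  have d0 := t0.isDiffeo
  have d1 := t1.isDiffeo
  have d2 := t2.isDiffeo
  have sq : ∀ {σ : R4 → S4} {F : S4 → S4}, TwistAlong σ F →
      (BoundsInvariantBall σ ∨ OppositeSphere σ σ) →
      Isot (𝓡 4) (fun y => F (F y)) (fun y => y) := by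
    intro σ F ht h
    rcases h with h | h
    · exact (ht.ball h).comp (ht.ball h)
    · exact ht.opposite ht h
  have s0 := sq t0 h0
  have s1 := sq t1 h1
  have s2 := sq t2 h2
  set f := implantation B β with hfdef
  -- `f ≃ F₂ F₀ F₁`
  have a1 : Isot (𝓡 4) (fun y => F1 (F0 (F0 (F1 y)))) (fun y => y) :=
    (d1.comp (s0.comp d1)).trans s1
  have a2 : Isot (𝓡 4) f (fun y => F2 (F0 (F1 y))) := by
    have b1 : Isot (𝓡 4) (fun y => f (F1 (F0 (F0 (F1 y))))) f := hf.comp a1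
    have b2 : Isot (𝓡 4) (fun y => f (F1 (F0 (F0 (F1 y))))) (fun y => F2 (F0 (F1 y))) :=
      e1.comp (d0.comp d1)
    exact b1.symm.trans b2
  -- square
  have a3 : Isot (𝓡 4) (fun y => f (f y)) (fun y => F2 (F0 (F1 (F2 (F0 (F1 y)))))) := a2.comp a2
  have a4 : Isot (𝓡 4) (fun y => F2 (F0 (F1 (F2 (F0 (F1 y))))))
      (fun y => F2 (F0 (F2 (F1 (F0 (F1 y)))))) :=
    d2.comp (d0.comp (c12.comp (d0.comp d1)))
  have a5 : Isot (𝓡 4) (fun y => F2 (F0 (F2 (F1 (F0 (F1 y))))))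
      (fun y => F2 (F2 (F0 (F1 (F0 (F1 y)))))) :=
    d2.comp (c02.comp (d1.comp (d0.comp d1)))
  have a6 : Isot (𝓡 4) (fun y => F2 (F2 (F0 (F1 (F0 (F1 y))))))
      (fun y => F0 (F1 (F0 (F1 y)))) :=
    s2.comp (d0.comp (d1.comp (d0.comp d1)))
  have a7 : Isot (𝓡 4) (fun y => F0 (F1 (F0 (F1 y)))) (fun y => F0 (F0 (F1 (F1 y)))) :=
    d0.comp (c01.symm.comp d1)
  have a8 : Isot (𝓡 4) (fun y => F0 (F0 (F1 (F1 y)))) (fun y => y) :=
    (s0.comp (d1.comp d1)).trans s1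
  exact a3.trans (a4.trans (a5.trans (a6.trans (a7.trans a8))))

/-- Structure theorem. -/
theorem exists_class :
    ∃ F : (R4 → S4) → S4 → S4,
      (∀ σ σ', IsSpunSphere σ → IsSpunSphere σ' → SameSphere σ σ' →
        Isot (𝓡 4) (F σ) (F σ')) ∧
      (∀ σ σ', IsSpunSphere σ → IsSpunSphere σ' → OppositeSphere σ σ' →
        Isot (𝓡 4) (fun y => F σ' (F σ y)) (fun y => y)) ∧
      (∀ σ, IsSpunSphere σ → BoundsInvariantBall σ → Isot (𝓡 4) (F σ) (fun y => y)) ∧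
      ∀ B : PartialDiffeomorph 𝓘(ℝ, R4) (𝓡 4) R4 S4 ∞, IsSpun B → ∀ β, IsBarbellMap β →
        Isot (𝓡 4) (fun y => implantation B β (F (cuffB B) (F (cuffA B) y))) (F (tubeSum B)) := by
  classical
  let F : (R4 → S4) → S4 → S4 := fun σ => if h : IsSpunSphere σ then h.exists_twist.choose
    else fun y => y
  have hF : ∀ σ, IsSpunSphere σ → TwistAlong σ (F σ) := by
    intro σ h
    have : F σ = h.exists_twist.choose := dif_pos h
    rw [this]
    exact h.exists_twist.choose_spec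
  refine ⟨F, fun σ σ' h h' hs => (hF σ h).same (hF σ' h') hs,
    fun σ σ' h h' hs => (hF σ h).opposite (hF σ' h') hs,
    fun σ h hb => (hF σ h).ball hb, ?_⟩
  intro B hB β hβ
  have g0 := isSpunSphere_scl (isSphere_zero (A := rot4) hB.1 hB.2)
  have g1 := isSpunSphere_scl (isSphere_one (A := rot4) hB.1 hB.2)
  have g2 := isSpunSphere_scl (isSphere_two (A := rot4) hB.1 hB.2)
  exact (formula4 hB hβ (hF _ g0) (hF _ g1) (hF _ g2)).1

end Pool.Agent.Helper65.Barb
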