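import Pool.Agent.Helper65.Barb.Twist

/-!
# The implantation of an equivariant barbell as a product of three twists
-/

set_option autoImplicit false
set_option linter.unusedSectionVars false
set_option linter.unusedVariables false

open scoped Manifold ContDiff Topology ComplexConjugate
open Set

namespace Pool.Agent.Helper65.Barb

section
variable {E : Type*} [NormedAddCommGroup E] [NormedSpace ℝ E] {H : Type*} [TopologicalSpace H]
  {I : ModelWithCorners ℝ E H} {M : Type*} [TopologicalSpace M] [ChartedSpace H M] [T2Space M]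
  {A : CircleAction I M}

/-- Correct a twist so that it is the identity near two further spheres. -/
theorem exists_corrected
    (hfree : Dense {x : M | ∀ θ, A.act θ x = x → ∃ k : ℤ, θ = k * (2 * Real.pi)})
    {B : PartialDiffeomorph 𝓘(ℝ, R4) I R4 M ∞} {c r c1 r1 c2 r2 : ℝ}
    (hs : IsSphere A B c r) (hs1 : IsSphere A B c1 r1) (hs2 : IsSphere A B c2 r2)
    (hd1 : Disjoint (Shell c r) (Shell c1 r1)) (hd2 : Disjoint (Shell c r) (Shell c2 r2))
    (hd12 : Disjoint (Shell c1 r1) (Shell c2 r2)) {g : M → M} (hg : IsTwist A B c r g) :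
    ∃ G G' : M → M, Isot I g G ∧ (∀ y, G (G' y) = y) ∧ (∀ y, G' (G y) = y) ∧
      (∀ p ∈ NShell c r, G (B p) = B ((twist c r).f (1, p)) ∧
        G' (B p) = B ((twist c r).g (1, p))) ∧
      (∀ y ∉ B '' Core c r, A.LB G y) ∧
      (∀ p ∈ NShell c1 r1, G (B p) = B p ∧ G' (B p) = B p) ∧
      (∀ p ∈ NShell c2 r2, G (B p) = B p ∧ G' (B p) = B p) := by
  obtain ⟨hgi, hgN, hgL⟩ := hg
  obtain ⟨g', hg'd, hgg', hg'g⟩ := hgi.exists_inv
  have hr := hs.pos
  have hr1 := hs1.pos
  have hr2 := hs2.pos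
  have hB := hs.sub
  have hB1 := hs1.sub
  have hB2 := hs2.sub
  have hg'N : ∀ p ∈ NShell c r, g' (B p) = B ((twist c r).g (1, p)) := by
    intro p hp
    have := hgN _ (twist_inv_mem_NShell (t := 1) hp)
    rw [(twist c r).fg] at this
    rw [← this, hg'g]
  have hinj : ∀ p ∈ B.source, ∀ q ∈ B.source, B p = B q → p = q :=
    fun p hp q hq h => B.toPartialEquiv.injOn hp hq h
  have hnot : ∀ {ca ra cb rb : ℝ}, Shell ca ra ⊆ B.source → Shell cb rb ⊆ B.source →
      Disjoint (Shell ca ra) (Shell cb rb) → ∀ p ∈ Shell ca ra, B p ∉ B '' Shell cb rb := by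
    rintro ca ra cb rb ha hb' hd p hp ⟨q, hq, hqp⟩
    have := hinj q (hb' hq) p (ha hp) hqp
    subst this
    exact Set.disjoint_left.1 hd hp hq
  obtain ⟨h1, hs1', hi1, hz1, hk1⟩ := kill (A := A) hfree B hr1 hB1 hs1.equiv (G := g) (by
    intro p hp
    apply hgL
    intro hc
    exact hnot hB1 hB hd1.symm p hp (image_mono (Core_subset_Shell hr) hc))
  obtain ⟨h2, hs2', hi2, hz2, hk2⟩ := kill (A := A) hfree B hr2 hB2 hs2.equiv (G := g) (by
    intro p hp
    apply hgL
    intro hc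
    exact hnot hB2 hB hd2.symm p hp (image_mono (Core_subset_Shell hr) hc))
  have hz1' : ∀ {ca ra : ℝ}, Shell ca ra ⊆ B.source → Disjoint (Shell ca ra) (Shell c1 r1) →
      ∀ p ∈ Shell ca ra, h1 (B p) = 0 := by
    intro ca ra ha hd p hp
    apply hz1
    intro hc
    exact hnot ha hB1 hd p hp (image_mono (OShell_subset_Shell c1 r1) hc)
  have hz2' : ∀ {ca ra : ℝ}, Shell ca ra ⊆ B.source → Disjoint (Shell ca ra) (Shell c2 r2) →
      ∀ p ∈ Shell ca ra, h2 (B p) = 0 := by
    intro ca ra ha hd p hp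
    apply hz2
    intro hc
    exact hnot ha hB2 hd p hp (image_mono (OShell_subset_Shell c2 r2) hc)
  let h : M → ℝ := fun y => h1 y + h2 y
  have hs : ContMDiff I 𝓘(ℝ, ℝ) ∞ h := hs1'.add hs2'
  have hi : ∀ x θ, h (A.act θ x) = h x := by
    intro x θ
    simp only [h, hi1, hi2]
  have hsn : ContMDiff I 𝓘(ℝ, ℝ) ∞ (fun y => -h y) := hs.neg
  have hin : ∀ x θ, -h (A.act θ x) = -h x := by
    intro x θ
    rw [hi]
  have hGG' : ∀ y, A.act (-h (g (g' (A.act (h y) y)))) (g (g' (A.act (h y) y))) = y := by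
    intro y
    rw [hgg', hi, A.neg_act]
  have hG'G : ∀ y, g' (A.act (h (A.act (-h (g y)) (g y))) (A.act (-h (g y)) (g y))) = y := by
    intro y
    rw [hi, A.act_neg, hg'g]
  have hN1 : ∀ p ∈ NShell c1 r1, A.act (-h (g (B p))) (g (B p)) = B p := by
    intro p hp
    have e1 := hk1 p hp
    have e2 : h (B p) = h1 (B p) := by
      simp only [h]
      rw [hz2' hB1 hd12 p (NShell_subset_Shell hr1 hp), add_zero]
    rw [e1, hi, e2, A.neg_act]
  have hN2 : ∀ p ∈ NShell c2 r2, A.act (-h (g (B p))) (g (B p)) = B p := by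
    intro p hp
    have e1 := hk2 p hp
    have e2 : h (B p) = h2 (B p) := by
      simp only [h]
      rw [hz1' hB2 hd12.symm p (NShell_subset_Shell hr2 hp), zero_add]
    rw [e1, hi, e2, A.neg_act]
  refine ⟨fun y => A.act (-h (g y)) (g y), fun y => g' (A.act (h y) y), ?_, hGG', hG'G,
    ?_, ?_, ?_, ?_⟩
  · exact ((A.isot_bulk hsn hin).comp hgi)
  · intro p hp
    have e0 : ∀ q ∈ Shell c r, h (B q) = 0 := by
      intro q hq
      simp only [h]
      rw [hz1' hB hd1 q hq, hz2' hB hd2 q hq, add_zero]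
    have hpS := NShell_subset_Shell hr hp
    simp only
    rw [hgN p hp, e0 _ (twist_mem_Shell hpS), e0 p hpS, neg_zero, A.zero, A.zero, hg'N p hp]
    exact ⟨rfl, rfl⟩
  · intro y hy
    have e1 : A.LB (fun z => A.act (-h z) z) y :=
      CircleAction.LB.of_global hsn hin (fun _ => rfl) y
    exact e1.comp (hgL y hy)
  · intro p hp
    refine ⟨hN1 p hp, ?_⟩
    have := hG'G (B p)
    rwa [hN1 p hp] at this
  · intro p hp
    refine ⟨hN2 p hp, ?_⟩
    have := hG'G (B p)
    rwa [hN2 p hp] at this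

theorem isSphere_zero {B : PartialDiffeomorph 𝓘(ℝ, R4) I R4 M ∞} (hNB : NB ⊆ B.source)
    (he : ∀ p ∈ NB, ∀ θ, B (rotp θ p) = A.act θ (B p)) : IsSphere A B 0 (1 / 5) :=
  ⟨by norm_num, Shell_zero_subset.trans hNB, fun p hp => he p (Shell_zero_subset hp)⟩

theorem isSphere_one {B : PartialDiffeomorph 𝓘(ℝ, R4) I R4 M ∞} (hNB : NB ⊆ B.source)
    (he : ∀ p ∈ NB, ∀ θ, B (rotp θ p) = A.act θ (B p)) : IsSphere A B 1 (1 / 5) :=
  ⟨by norm_num, Shell_one_subset.trans hNB, fun p hp => he p (Shell_one_subset hp)⟩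

theorem isSphere_two {B : PartialDiffeomorph 𝓘(ℝ, R4) I R4 M ∞} (hNB : NB ⊆ B.source)
    (he : ∀ p ∈ NB, ∀ θ, B (rotp θ p) = A.act θ (B p)) : IsSphere A B 0 2 :=
  ⟨by norm_num, Shell_two_subset.trans hNB, fun p hp => he p (Shell_two_subset hp)⟩

/-- off the three cores the implantation is locally a bulk rotation -/
theorem LB_push_barMap {B : PartialDiffeomorph 𝓘(ℝ, R4) I R4 M ∞} (hNB : NB ⊆ B.source)
    (he : ∀ p ∈ NB, ∀ θ, B (rotp θ p) = A.act θ (B p)) {y : M}
    (h0 : y ∉ B '' Core 0 (1 / 5)) (h1 : y ∉ B '' Core 1 (1 / 5)) (h2 : y ∉ B '' Core 0 2) :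
    A.LB (push B barMap) y := by
  have hfB : ∀ p ∈ NB, push B barMap (B p) = B (barMap p) :=
    fun p hp => push_of_mem B _ (hNB hp)
  by_cases hy : y ∈ B '' bsupp
  · obtain ⟨p, hp, rfl⟩ := hy
    have hc0 : p ∉ Core 0 (1 / 5) := fun h => h0 ⟨p, h, rfl⟩
    have hc1 : p ∉ Core 1 (1 / 5) := fun h => h1 ⟨p, h, rfl⟩
    have hc2 : p ∉ Core 0 2 := fun h => h2 ⟨p, h, rfl⟩
    obtain ⟨⟨hp1, hp2, hp3⟩, hp4, hp5⟩ := hp
    have e0 : (2 / 5) ^ 2 < rsq 0 p := by
      by_contra hcon
      exact hc0 ⟨hp1, hp2, (not_lt.1 hcon).trans (by norm_num), hp4⟩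
    have e1 : (2 / 5) ^ 2 < rsq 1 p := by
      by_contra hcon
      exact hc1 ⟨hp1, hp2, (not_lt.1 hcon).trans (by norm_num), hp5⟩
    have e2 : rsq 0 p < 2 ^ 2 := by
      by_contra hcon
      exact hc2 ⟨hp1, hp2, hp3, not_lt.1 hcon⟩
    let U : Set R4 := {q | -1 < q.1 ∧ q.1 < 2 ∧ (2 / 5) ^ 2 < rsq 0 q ∧
      (2 / 5) ^ 2 < rsq 1 q ∧ rsq 0 q < 2 ^ 2}
    have hUo : IsOpen U := by
      apply IsOpen.inter (isOpen_lt continuous_const continuous_fst)
      apply IsOpen.inter (isOpen_lt continuous_fst continuous_const)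
      apply IsOpen.inter (isOpen_lt continuous_const (continuous_rsq 0))
      apply IsOpen.inter (isOpen_lt continuous_const (continuous_rsq 1))
      exact isOpen_lt (continuous_rsq 0) continuous_const
    have hUN : U ⊆ NB := by
      rintro q ⟨h1, h2, h3, h4, h5⟩
      exact ⟨⟨h1.le, h2.le, h5.le.trans (by norm_num)⟩, le_trans (by norm_num) h3.le,
        le_trans (by norm_num) h4.le⟩
    apply LB_rot (A := A) B hUo (hUN.trans hNB) _ (fun q hq => he q (hUN hq)) contDiff_ang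
      (fun q θ => ang_rotp θ q) _ (p := p) ⟨by linarith, by linarith, e0, e1, e2⟩
    · rintro q ⟨h1, h2, h3, h4, h5⟩ θ
      exact ⟨h1, h2, by rwa [rsq_rotp], by rwa [rsq_rotp], by rwa [rsq_rotp]⟩
    · intro q hq
      rw [hfB q (hUN hq), barMap_mid hq.2.2.1.le hq.2.2.2.1.le hq.2.2.2.2.le]
      rfl
  · apply LB_off (A := A) B isCompact_bsupp (bsupp_subset.trans hNB) _
      (fun q hq => he q (bsupp_subset hq)) _ hy
    · rintro q ⟨⟨h1, h2, h3⟩, h4, h5⟩ θ
      exact ⟨⟨h1, h2, by rwa [rsq_rotp]⟩, by rwa [rsq_rotp], by rwa [rsq_rotp]⟩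
    · intro z hz
      exact push_of_notMem B _ (bsupp_subset.trans hNB) (fun x hx => barMap_off hx) hz

/-- two corrected twists commute up to isotopy -/
theorem isot_commute (hglob : A.Global) {B : PartialDiffeomorph 𝓘(ℝ, R4) I R4 M ∞}
    {c r c1 r1 : ℝ} (hs : IsSphere A B c r) (hs1 : IsSphere A B c1 r1)
    {G G' K K' : M → M} (hG : IsDiffeo I G) (hK : IsDiffeo I K)
    (g1 : ∀ y, G (G' y) = y) (g2 : ∀ y, G' (G y) = y)
    (k1 : ∀ y, K (K' y) = y) (k2 : ∀ y, K' (K y) = y)
    (gN : ∀ p ∈ NShell c r, G (B p) = B ((twist c r).f (1, p)) ∧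
        G' (B p) = B ((twist c r).g (1, p)))
    (kN : ∀ p ∈ NShell c1 r1, K (B p) = B ((twist c1 r1).f (1, p)) ∧
        K' (B p) = B ((twist c1 r1).g (1, p)))
    (gL : ∀ y ∉ B '' Core c r, A.LB G y) (kL : ∀ y ∉ B '' Core c1 r1, A.LB K y)
    (gI : ∀ p ∈ NShell c1 r1, G (B p) = B p ∧ G' (B p) = B p)
    (kI : ∀ p ∈ NShell c r, K (B p) = B p ∧ K' (B p) = B p) :
    Isot I (fun y => G (K y)) (fun y => K (G y)) := by
  apply isot_of_inv_LB (K' := fun y => G' (K' y)) hglob (hK.comp hG)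
    (fun y => by rw [g1, k1]) (fun y => by rw [k2, g2])
  intro y
  have hopen : ∀ {ca ra : ℝ}, IsSphere A B ca ra → IsOpen (B '' NShell ca ra) :=
    fun h => isOpen_image B (isOpen_NShell _ _) ((NShell_subset_Shell h.pos).trans h.sub)
  have hinv : ∀ {ca ra : ℝ}, IsSphere A B ca ra → ∀ z ∈ B '' NShell ca ra, ∀ θ,
      A.act θ z ∈ B '' NShell ca ra := by
    rintro ca ra h _ ⟨q, hq, rfl⟩ θ
    exact ⟨rotp θ q, rotp_mem_NShell θ hq, h.equiv q (NShell_subset_Shell h.pos hq) θ⟩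
  by_cases hy : y ∈ B '' Core c r
  · apply (CircleAction.LB.id A y).congr (hopen hs)
      (image_mono (Core_subset_NShell hs.pos) hy) (hinv hs)
    rintro _ ⟨q, hq, rfl⟩
    rw [(kI q hq).2, (gN q hq).2, (kI _ (twist_inv_mem_NShell hq)).1,
      (gN _ (twist_inv_mem_NShell hq)).1, (twist c r).fg]
  · by_cases hy1 : y ∈ B '' Core c1 r1
    · apply (CircleAction.LB.id A y).congr (hopen hs1)
        (image_mono (Core_subset_NShell hs1.pos) hy1) (hinv hs1)
      rintro _ ⟨q, hq, rfl⟩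
      rw [(kN q hq).2, (gI _ (twist_inv_mem_NShell hq)).2, (kN _ (twist_inv_mem_NShell hq)).1,
        (twist c1 r1).fg, (gI q hq).1]
    · exact (gL y hy).comp ((kL y hy1).comp (((gL y hy).inv g2).comp ((kL y hy1).inv k2)))

/-- The implantation is a product of three twists, which commute up to isotopy. -/
theorem barbell_formula
    (hfree : Dense {x : M | ∀ θ, A.act θ x = x → ∃ k : ℤ, θ = k * (2 * Real.pi)})
    (hglob : A.Global) {B : PartialDiffeomorph 𝓘(ℝ, R4) I R4 M ∞} (hNB : NB ⊆ B.source)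
    (he : ∀ p ∈ NB, ∀ θ, B (rotp θ p) = A.act θ (B p)) {F0 F1 F2 : M → M}
    (h0 : IsTwist A B 0 (1 / 5) F0) (h1 : IsTwist A B 1 (1 / 5) F1) (h2 : IsTwist A B 0 2 F2) :
    Isot I (fun y => push B barMap (F1 (F0 y))) F2 ∧
      Isot I (fun y => F0 (F1 y)) (fun y => F1 (F0 y)) ∧
      Isot I (fun y => F0 (F2 y)) (fun y => F2 (F0 y)) ∧
      Isot I (fun y => F1 (F2 y)) (fun y => F2 (F1 y)) := by
  have s0 := isSphere_zero (A := A) hNB he
  have s1 := isSphere_one (A := A) hNB he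
  have s2 := isSphere_two (A := A) hNB he
  have r5 : (0 : ℝ) < 1 / 5 := by norm_num
  have r2 : (0 : ℝ) < 2 := by norm_num
  obtain ⟨G0, G0', i0, l0, l0', t0, L0, k01, k02⟩ := exists_corrected (A := A) hfree s0 s1 s2
    disj_zero_one disj_zero_two disj_one_two h0
  obtain ⟨G1, G1', i1, l1, l1', t1, L1, k10, k12⟩ := exists_corrected (A := A) hfree s1 s0 s2
    disj_zero_one.symm disj_one_two disj_zero_two h1
  obtain ⟨G2, G2', i2, l2, l2', t2, L2, k20, k21⟩ := exists_corrected (A := A) hfree s2 s0 s1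
    disj_zero_two.symm disj_one_two.symm disj_zero_one h2
  have hfB : ∀ p ∈ NB, push B barMap (B p) = B (barMap p) :=
    fun p hp => push_of_mem B _ (hNB hp)
  have hf0 : IsDiffeo I (push B barMap) :=
    isot_push_barbellMap B hNB isBarbellMap_barMap isBarbellMap_barMap
  -- local behaviour near the cores
  have hcore : ∀ {c r : ℝ} (hr : 0 < r) (hSN : Shell c r ⊆ NB) {F : M → M} {p : R4}
      (hp : p ∈ Core c r)
      (hF : ∀ q ∈ NShell c r, F (B q) = B (rotp (ang q) q)), A.LB F (B p) := by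
    intro c r hr hSN F p hp hF
    exact LB_rot (A := A) B (isOpen_NShell c r) ((NShell_subset_Shell hr).trans (hSN.trans hNB))
      (fun q hq θ => rotp_mem_NShell θ hq)
      (fun q hq => he q (hSN (NShell_subset_Shell hr hq))) contDiff_ang
      (fun q θ => ang_rotp θ q) hF (Core_subset_NShell hr hp)
  have hcore' : ∀ {c r : ℝ} (hr : 0 < r) (hSN : Shell c r ⊆ NB) {F : M → M} {p : R4}
      (hp : p ∈ Core c r) (hF : ∀ q ∈ NShell c r, F (B q) = B q), A.LB F (B p) := by
    intro c r hr hSN F p hp hF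
    apply LB_rot (A := A) B (isOpen_NShell c r)
      ((NShell_subset_Shell hr).trans (hSN.trans hNB))
      (fun q hq θ => rotp_mem_NShell θ hq)
      (fun q hq => he q (hSN (NShell_subset_Shell hr hq))) (φ := fun _ => 0) contDiff_const
      (fun q θ => rfl) _ (Core_subset_NShell hr hp)
    intro q hq
    rw [hF q hq]
    simp [rotp]
  refine ⟨?_, ?_, ?_, ?_⟩
  · have key : Isot I (fun y => push B barMap (G1 (G0 y))) G2 := by
      apply isot_of_inv_LB hglob i2.right l2 l2'
      intro y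
      by_cases c0 : y ∈ B '' Core 0 (1 / 5)
      · obtain ⟨p, hp, rfl⟩ := c0
        apply hcore r5 Shell_zero_subset hp
        intro q hq
        have hqS := NShell_subset_Shell r5 hq
        rw [(k20 q hq).2, (t0 q hq).1, (k10 _ (twist_mem_NShell hq)).1,
          hfB _ (Shell_zero_subset (twist_mem_Shell hqS)), barMap_shell_zero hqS]
        rfl
      · by_cases c1 : y ∈ B '' Core 1 (1 / 5)
        · obtain ⟨p, hp, rfl⟩ := c1
          apply hcore r5 Shell_one_subset hp
          intro q hq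
          have hqS := NShell_subset_Shell r5 hq
          rw [(k21 q hq).2, (k01 q hq).1, (t1 q hq).1,
            hfB _ (Shell_one_subset (twist_mem_Shell hqS)), barMap_shell_one hqS]
          rfl
        · by_cases c2 : y ∈ B '' Core 0 2
          · obtain ⟨p, hp, rfl⟩ := c2
            apply hcore' r2 Shell_two_subset hp
            intro q hq
            have hqS := NShell_subset_Shell r2 hq
            rw [(t2 q hq).2, (k02 _ (twist_inv_mem_NShell hq)).1,
              (k12 _ (twist_inv_mem_NShell hq)).1,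
              hfB _ (Shell_two_subset (twist_inv_mem_Shell hqS)), barMap_shell_two hqS]
          · exact (LB_push_barMap hNB he c0 c1 c2).comp
              ((L1 y c1).comp ((L0 y c0).comp ((L2 y c2).inv l2')))
    exact (hf0.comp (i1.comp i0)).trans (key.trans i2.symm)
  · exact (i0.comp i1).trans ((isot_commute hglob s0 s1 i0.right i1.right l0 l0' l1 l1' t0 t1 L0
      L1 k01 k10).trans (i1.comp i0).symm)
  · exact (i0.comp i2).trans ((isot_commute hglob s0 s2 i0.right i2.right l0 l0' l2 l2' t0 t2 L0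
      L2 k02 k20).trans (i2.comp i0).symm)
  · exact (i1.comp i2).trans ((isot_commute hglob s1 s2 i1.right i2.right l1 l1' l2 l2' t1 t2 L1
      L2 k12 k21).trans (i2.comp i1).symm)

end

end Pool.Agent.Helper65.Barb
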