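import Pool.Agent.Helper65.Barb.Defs

/-!
# Smooth families of diffeomorphisms and smooth isotopy
-/

set_option autoImplicit false

open scoped Manifold ContDiff Topology
open Set

namespace Pool.Agent.Helper65.Barb

section
variable {E : Type*} [NormedAddCommGroup E] [NormedSpace ℝ E] {H : Type*} [TopologicalSpace H]
  {I : ModelWithCorners ℝ E H} {M : Type*} [TopologicalSpace M] [ChartedSpace H M]

/-- `φ` and `ψ` are diffeomorphisms of `M` joined by a smooth isotopy. -/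
def SmoothlyIsotopic (I : ModelWithCorners ℝ E H) (M : Type*) [TopologicalSpace M]
    [ChartedSpace H M] (φ ψ : M → M) : Prop :=
  ∃ F : ℝ × M → M, ContMDiff (𝓘(ℝ, ℝ).prod I) I ∞ F ∧
    (∀ t, ∃ d : M ≃ₘ⟮I, I⟯ M, ∀ x, d x = F (t, x)) ∧
    (∀ x, F (0, x) = φ x) ∧ ∀ x, F (1, x) = ψ x

namespace DFam

/-- a member of the family as a diffeomorphism -/
noncomputable def diffeo (F : DFam I M) (t : ℝ) : M ≃ₘ⟮I, I⟯ M where
  toFun x := F.f (t, x)
  invFun x := F.g (t, x)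
  left_inv x := F.gf t x
  right_inv x := F.fg t x
  contMDiff_toFun := F.smooth_f.comp (contMDiff_const.prodMk contMDiff_id)
  contMDiff_invFun := F.smooth_g.comp (contMDiff_const.prodMk contMDiff_id)

@[simp] theorem diffeo_apply (F : DFam I M) (t : ℝ) (x : M) : F.diffeo t x = F.f (t, x) := rfl

/-- inverse family -/
def inv (F : DFam I M) : DFam I M where
  f := F.g
  g := F.f
  smooth_f := F.smooth_g
  smooth_g := F.smooth_f
  fg := F.gf
  gf := F.fg

/-- composition of families -/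
def comp (F G : DFam I M) : DFam I M where
  f p := F.f (p.1, G.f (p.1, p.2))
  g p := G.g (p.1, F.g (p.1, p.2))
  smooth_f := F.smooth_f.comp (contMDiff_fst.prodMk G.smooth_f)
  smooth_g := G.smooth_g.comp (contMDiff_fst.prodMk F.smooth_g)
  fg t x := by simp [F.fg, G.fg]
  gf t x := by simp [F.gf, G.gf]

/-- smooth reparametrization of time -/
def reparam (F : DFam I M) (τ : ℝ → ℝ) (hτ : ContDiff ℝ ∞ τ) : DFam I M where
  f p := F.f (τ p.1, p.2)
  g p := F.g (τ p.1, p.2)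
  smooth_f := F.smooth_f.comp ((hτ.contMDiff.comp contMDiff_fst).prodMk contMDiff_snd)
  smooth_g := F.smooth_g.comp ((hτ.contMDiff.comp contMDiff_fst).prodMk contMDiff_snd)
  fg _ x := F.fg _ x
  gf _ x := F.gf _ x

/-- freeze the time -/
def freeze (F : DFam I M) (t₀ : ℝ) : DFam I M := F.reparam (fun _ => t₀) contDiff_const

/-- the constant identity family -/
def one : DFam I M where
  f p := p.2
  g p := p.2
  smooth_f := contMDiff_snd
  smooth_g := contMDiff_snd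
  fg _ _ := rfl
  gf _ _ := rfl

end DFam

theorem Isot.smoothlyIsotopic {φ ψ : M → M} (h : Isot I φ ψ) : SmoothlyIsotopic I M φ ψ := by
  obtain ⟨F, h0, h1⟩ := h
  exact ⟨F.f, F.smooth_f, fun t => ⟨F.diffeo t, fun x => rfl⟩, h0, h1⟩

theorem Isot.one : Isot I (fun x : M => x) (fun x => x) :=
  ⟨DFam.one, fun _ => rfl, fun _ => rfl⟩

theorem Isot.symm {φ ψ : M → M} (h : Isot I φ ψ) : Isot I ψ φ := by
  obtain ⟨F, h0, h1⟩ := h
  refine ⟨F.reparam (fun t => 1 - t) (contDiff_const.sub contDiff_id), ?_, ?_⟩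
  · intro x; simp [DFam.reparam, h1]
  · intro x; simp [DFam.reparam, h0]

theorem Isot.comp {φ ψ φ' ψ' : M → M} (h : Isot I φ ψ) (h' : Isot I φ' ψ') :
    Isot I (fun x => φ (φ' x)) (fun x => ψ (ψ' x)) := by
  obtain ⟨F, h0, h1⟩ := h
  obtain ⟨F', h0', h1'⟩ := h'
  refine ⟨F.comp F', ?_, ?_⟩
  · intro x; simp [DFam.comp, h0, h0']
  · intro x; simp [DFam.comp, h1, h1']

theorem Isot.inv {φ ψ φ' ψ' : M → M} (h : Isot I φ ψ) (hφ : ∀ x, φ (φ' x) = x)
    (hψ : ∀ x, ψ (ψ' x) = x) : Isot I φ' ψ' := by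
  obtain ⟨F, h0, h1⟩ := h
  refine ⟨F.inv, ?_, ?_⟩
  · intro x
    have := F.gf 0 (φ' x)
    rw [h0, hφ] at this
    exact this
  · intro x
    have := F.gf 1 (ψ' x)
    rw [h1, hψ] at this
    exact this

theorem Isot.trans {φ ψ χ : M → M} (h : Isot I φ ψ) (h' : Isot I ψ χ) : Isot I φ χ := by
  obtain ⟨F, h0, h1⟩ := h
  obtain ⟨G, g0, g1⟩ := h'
  -- `G_t ∘ ψ⁻¹ ∘ F_t`
  refine ⟨G.comp ((F.freeze 1).inv.comp F), ?_, ?_⟩
  · intro x
    have e1 : G.f (0, F.g (1, F.f (0, x))) = F.f (1, F.g (1, F.f (0, x))) := by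
      rw [g0, h1]
    simp only [DFam.comp, DFam.freeze, DFam.reparam, DFam.inv]
    rw [e1, F.fg, h0]
  · intro x
    simp only [DFam.comp, DFam.freeze, DFam.reparam, DFam.inv]
    rw [F.gf, g1]

/-- `φ` is a diffeomorphism -/
def IsDiffeo (I : ModelWithCorners ℝ E H) (φ : M → M) : Prop := Isot I φ φ

theorem Isot.left {φ ψ : M → M} (h : Isot I φ ψ) : IsDiffeo I φ := h.trans h.symm

theorem Isot.right {φ ψ : M → M} (h : Isot I φ ψ) : IsDiffeo I ψ := h.symm.trans h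

theorem IsDiffeo.exists_inv {φ : M → M} (h : IsDiffeo I φ) :
    ∃ φ' : M → M, IsDiffeo I φ' ∧ (∀ x, φ (φ' x) = x) ∧ ∀ x, φ' (φ x) = x := by
  obtain ⟨F, h0, h1⟩ := h
  refine ⟨fun x => F.g (0, x), ⟨F.inv.freeze 0, fun x => rfl, fun x => rfl⟩, ?_, ?_⟩
  · intro x
    have := F.fg 0 x
    rwa [h0] at this
  · intro x
    have := F.gf 0 x
    rwa [h0] at this

theorem IsDiffeo.of_diffeomorph (d : M ≃ₘ⟮I, I⟯ M) : IsDiffeo I (fun x => d x) := by
  refine ⟨⟨fun p => d p.2, fun p => d.symm p.2, d.contMDiff.comp contMDiff_snd,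
    d.symm.contMDiff.comp contMDiff_snd, ?_, ?_⟩, fun x => rfl, fun x => rfl⟩
  · intro t x; simp
  · intro t x; simp

end

end Pool.Agent.Helper65.Barb
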