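import Pool.Agent.Helper65.Barb.Bar2
import Pool.Agent.Helper65.Barb.Act

/-!
# Removing a bulk rotation near a sphere
-/

set_option autoImplicit false
set_option linter.unusedSectionVars false
set_option linter.unusedVariables false

open scoped Manifold ContDiff Topology ComplexConjugate
open Set

namespace Pool.Agent.Helper65.Barb

/-- the open thickened sphere -/
def OShell (c r : ℝ) : Set R4 :=
  {p | -1 < p.1 ∧ p.1 < 2 ∧ rsq c p < (9 / 4 * r) ^ 2 ∧ (3 / 4 * r) ^ 2 < rsq c p}

/-- a smaller open thickened sphere -/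
def NShell (c r : ℝ) : Set R4 :=
  {p | -1 / 2 < p.1 ∧ p.1 < 3 / 2 ∧ rsq c p < (17 / 8 * r) ^ 2 ∧ (7 / 8 * r) ^ 2 < rsq c p}

/-- the core of the twist -/
def Core (c r : ℝ) : Set R4 :=
  {p | 0 ≤ p.1 ∧ p.1 ≤ 1 ∧ rsq c p ≤ (2 * r) ^ 2 ∧ r ^ 2 ≤ rsq c p}

theorem isOpen_OShell (c r : ℝ) : IsOpen (OShell c r) := by
  apply IsOpen.inter (isOpen_lt continuous_const continuous_fst)
  apply IsOpen.inter (isOpen_lt continuous_fst continuous_const)
  apply IsOpen.inter (isOpen_lt (continuous_rsq c) continuous_const)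
  exact isOpen_lt continuous_const (continuous_rsq c)

theorem isOpen_NShell (c r : ℝ) : IsOpen (NShell c r) := by
  apply IsOpen.inter (isOpen_lt continuous_const continuous_fst)
  apply IsOpen.inter (isOpen_lt continuous_fst continuous_const)
  apply IsOpen.inter (isOpen_lt (continuous_rsq c) continuous_const)
  exact isOpen_lt continuous_const (continuous_rsq c)

theorem OShell_subset_Shell (c r : ℝ) : OShell c r ⊆ Shell c r :=
  fun p hp => ⟨⟨hp.1.le, hp.2.1.le, hp.2.2.1.le⟩, hp.2.2.2.le⟩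

theorem NShell_subset_OShell {c r : ℝ} (hr : 0 < r) : NShell c r ⊆ OShell c r := by
  rintro p ⟨h1, h2, h3, h4⟩
  refine ⟨by linarith, by linarith, h3.trans (by nlinarith), lt_trans (by nlinarith) h4⟩

theorem Core_subset_NShell {c r : ℝ} (hr : 0 < r) : Core c r ⊆ NShell c r := by
  rintro p ⟨h1, h2, h3, h4⟩
  refine ⟨by linarith, by linarith, lt_of_le_of_lt h3 (by nlinarith),
    lt_of_lt_of_le (by nlinarith) h4⟩

/-- a smooth bump function of one variable, `1` on `[b, c]` and `0` outside `(a, d)` -/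
noncomputable def bmp (a b c d u : ℝ) : ℝ := step ((u - a) / (b - a)) * step ((d - u) / (d - c))

theorem contDiff_bmp (a b c d : ℝ) : ContDiff ℝ ∞ (bmp a b c d) := by
  unfold bmp
  apply ContDiff.mul
  · exact contDiff_step.comp ((contDiff_id.sub contDiff_const).div_const _)
  · exact contDiff_step.comp ((contDiff_const.sub contDiff_id).div_const _)

theorem bmp_eq_one {a b c d u : ℝ} (hab : a < b) (hcd : c < d) (h1 : b ≤ u) (h2 : u ≤ c) :
    bmp a b c d u = 1 := by
  rw [bmp, step_of_one_le, step_of_one_le, one_mul]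
  · rw [le_div_iff₀ (by linarith)]; linarith
  · rw [le_div_iff₀ (by linarith)]; linarith

theorem bmp_eq_zero_left {a b c d u : ℝ} (hab : a < b) (h : u ≤ a) : bmp a b c d u = 0 := by
  rw [bmp, step_of_nonpos, zero_mul]
  exact div_nonpos_of_nonpos_of_nonneg (by linarith) (by linarith)

theorem bmp_eq_zero_right {a b c d u : ℝ} (hcd : c < d) (h : d ≤ u) : bmp a b c d u = 0 := by
  rw [bmp, mul_comm, step_of_nonpos, zero_mul]
  exact div_nonpos_of_nonpos_of_nonneg (by linarith) (by linarith)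

/-- the cut-off function -/
noncomputable def chi (c r : ℝ) (p : R4) : ℝ :=
  bmp (-3 / 4) (-1 / 2) (3 / 2) (7 / 4) p.1 *
    bmp ((13 / 16 * r) ^ 2) ((7 / 8 * r) ^ 2) ((17 / 8 * r) ^ 2) ((35 / 16 * r) ^ 2) (rsq c p)

theorem contDiff_chi (c r : ℝ) : ContDiff ℝ ∞ (chi c r) :=
  ((contDiff_bmp _ _ _ _).comp contDiff_fst).mul ((contDiff_bmp _ _ _ _).comp (contDiff_rsq c))

theorem chi_rotp (c r θ : ℝ) (p : R4) : chi c r (rotp θ p) = chi c r p := by
  simp only [chi, rsq_rotp]; rfl

theorem chi_eq_one {c r : ℝ} (hr : 0 < r) {p : R4} (hp : p ∈ NShell c r) : chi c r p = 1 := by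
  obtain ⟨h1, h2, h3, h4⟩ := hp
  rw [chi, bmp_eq_one (by norm_num) (by norm_num) h1.le h2.le,
    bmp_eq_one (by nlinarith) (by nlinarith) h4.le h3.le, one_mul]

/-- the support of the cut-off function -/
def LShell (c r : ℝ) : Set R4 :=
  {p | -3 / 4 ≤ p.1 ∧ p.1 ≤ 7 / 4 ∧ rsq c p ≤ (35 / 16 * r) ^ 2 ∧ (13 / 16 * r) ^ 2 ≤ rsq c p}

theorem isCompact_LShell (c r : ℝ) : IsCompact (LShell c r) := by
  apply Metric.isCompact_of_isClosed_isBounded
  · apply IsClosed.inter (isClosed_le continuous_const continuous_fst)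
    apply IsClosed.inter (isClosed_le continuous_fst continuous_const)
    apply IsClosed.inter (isClosed_le (continuous_rsq c) continuous_const)
    exact isClosed_le continuous_const (continuous_rsq c)
  · exact (isBounded_of_rsq c ((35 / 16 * r) ^ 2) (-3 / 4) (7 / 4)).subset
      (fun p hp => ⟨hp.1, hp.2.1, hp.2.2.1⟩)

theorem chi_eq_zero {c r : ℝ} (hr : 0 < r) {p : R4} (hp : p ∉ LShell c r) : chi c r p = 0 := by
  rw [chi]
  by_cases h1 : -3 / 4 ≤ p.1
  · by_cases h2 : p.1 ≤ 7 / 4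
    · by_cases h3 : rsq c p ≤ (35 / 16 * r) ^ 2
      · have h4 : rsq c p < (13 / 16 * r) ^ 2 := by
          by_contra h4
          exact hp ⟨h1, h2, h3, not_lt.1 h4⟩
        rw [bmp_eq_zero_left (u := rsq c p) (by nlinarith) h4.le, mul_zero]
      · rw [bmp_eq_zero_right (u := rsq c p) (by nlinarith) (not_le.1 h3).le, mul_zero]
    · rw [bmp_eq_zero_right (u := p.1) (by norm_num) (not_le.1 h2).le, zero_mul]
  · rw [bmp_eq_zero_left (u := p.1) (by norm_num) (not_le.1 h1).le, zero_mul]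

theorem LShell_subset_OShell {c r : ℝ} (hr : 0 < r) : LShell c r ⊆ OShell c r := by
  rintro p ⟨h1, h2, h3, h4⟩
  refine ⟨by linarith, by linarith, lt_of_le_of_lt h3 (by nlinarith),
    lt_of_lt_of_le (by nlinarith) h4⟩

theorem rotp_mem_OShell {c r : ℝ} (θ : ℝ) {p : R4} (hp : p ∈ OShell c r) :
    rotp θ p ∈ OShell c r := by
  obtain ⟨h1, h2, h3, h4⟩ := hp
  exact ⟨h1, h2, by rwa [rsq_rotp], by rwa [rsq_rotp]⟩

/-- clamping to an interval -/
noncomputable def clamp (a b x : ℝ) : ℝ := max a (min b x)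

theorem clamp_mem {a b : ℝ} (hab : a ≤ b) (x : ℝ) : a ≤ clamp a b x ∧ clamp a b x ≤ b :=
  ⟨le_max_left _ _, max_le hab (min_le_left _ _)⟩

theorem clamp_eq {a b x : ℝ} (h1 : a ≤ x) (h2 : x ≤ b) : clamp a b x = x := by
  rw [clamp, min_eq_right h2, max_eq_right h1]

theorem continuous_clamp (a b : ℝ) : Continuous (clamp a b) :=
  continuous_const.max (continuous_const.min continuous_id)

section
variable {E : Type*} [NormedAddCommGroup E] [NormedSpace ℝ E] {H : Type*} [TopologicalSpace H]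
  {I : ModelWithCorners ℝ E H} {M : Type*} [TopologicalSpace M] [ChartedSpace H M] [T2Space M]
  {A : CircleAction I M}

theorem kill (hfree : Dense {x : M | ∀ θ, A.act θ x = x → ∃ k : ℤ, θ = k * (2 * Real.pi)})
    (B : PartialDiffeomorph 𝓘(ℝ, R4) I R4 M ∞) {c r : ℝ} (hr : 0 < r)
    (hB : Shell c r ⊆ B.source) (heq : ∀ p ∈ Shell c r, ∀ θ, B (rotp θ p) = A.act θ (B p))
    {G : M → M} (hG : ∀ p ∈ Shell c r, A.LB G (B p)) :
    ∃ h : M → ℝ, ContMDiff I 𝓘(ℝ, ℝ) ∞ h ∧ (∀ x θ, h (A.act θ x) = h x) ∧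
      (∀ y ∉ B '' OShell c r, h y = 0) ∧ ∀ p ∈ NShell c r, G (B p) = A.act (h (B p)) (B p) := by
  classical
  have hOS := OShell_subset_Shell c r
  have hsymm : ∀ p ∈ Shell c r, B.toPartialEquiv.symm (B p) = p :=
    fun p hp => B.toPartialEquiv.left_inv (hB hp)
  have hVo : IsOpen (B '' OShell c r) := isOpen_image B (isOpen_OShell c r) (hOS.trans hB)
  have hVt : B '' OShell c r ⊆ B.target := by
    rintro _ ⟨p, hp, rfl⟩
    exact B.toPartialEquiv.map_source (hB (hOS hp))
  have hVact : ∀ y ∈ B '' OShell c r, ∀ θ, A.act θ y ∈ B '' OShell c r := by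
    rintro _ ⟨p, hp, rfl⟩ θ
    exact ⟨rotp θ p, rotp_mem_OShell θ hp, heq p (hOS hp) θ⟩
  have hsact : ∀ y ∈ B '' OShell c r, ∀ θ, B.toPartialEquiv.symm (A.act θ y) =
      rotp θ (B.toPartialEquiv.symm y) := by
    rintro _ ⟨p, hp, rfl⟩ θ
    rw [← heq p (hOS hp) θ, hsymm _ (hOS (rotp_mem_OShell θ hp)), hsymm _ (hOS hp)]
  -- the parametrization of the orbit space
  let κ₀ : ℝ × ℝ × ℝ → R4 := fun y =>
    (clamp (-1) 2 y.1, c + clamp (3 / 4 * r) (9 / 4 * r) y.2.1 * clamp (-1) 1 y.2.2,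
      ((clamp (3 / 4 * r) (9 / 4 * r) y.2.1 * √(1 - (clamp (-1) 1 y.2.2) ^ 2) : ℝ) : ℂ))
  have hκ₀c : Continuous κ₀ := by
    have c1 : Continuous fun y : ℝ × ℝ × ℝ => clamp (3 / 4 * r) (9 / 4 * r) y.2.1 :=
      (continuous_clamp _ _).comp (continuous_fst.comp continuous_snd)
    have c2 : Continuous fun y : ℝ × ℝ × ℝ => clamp (-1) 1 y.2.2 :=
      (continuous_clamp _ _).comp (continuous_snd.comp continuous_snd)
    apply Continuous.prodMk ((continuous_clamp _ _).comp continuous_fst)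
    apply Continuous.prodMk (continuous_const.add (c1.mul c2))
    apply Complex.continuous_ofReal.comp
    exact c1.mul (Real.continuous_sqrt.comp (continuous_const.sub (c2.pow 2)))
  have hrsqκ : ∀ y, rsq c (κ₀ y) = (clamp (3 / 4 * r) (9 / 4 * r) y.2.1) ^ 2 := by
    intro y
    have h1 := clamp_mem (a := -1) (b := 1) (by norm_num) y.2.2
    have h2 : 0 ≤ 1 - (clamp (-1) 1 y.2.2) ^ 2 := by nlinarith [h1.1, h1.2]
    simp only [rsq, nsq, κ₀, Complex.ofReal_re, Complex.ofReal_im, add_sub_cancel_left]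
    rw [mul_pow, mul_pow, Real.sq_sqrt h2]
    ring
  have hκ₀m : ∀ y, κ₀ y ∈ Shell c r := by
    intro y
    have h1 := clamp_mem (a := 3 / 4 * r) (b := 9 / 4 * r) (by linarith) y.2.1
    have h2 := clamp_mem (a := -1) (b := 2) (by norm_num) y.1
    refine ⟨⟨h2.1, h2.2, ?_⟩, ?_⟩
    · rw [hrsqκ]; nlinarith [h1.1, h1.2]
    · rw [hrsqκ]; nlinarith [h1.1, h1.2]
  have hκc : Continuous fun y => B (κ₀ y) := by
    have := B.contMDiffOn_toFun.continuousOn
    exact this.comp_continuous hκ₀c (fun y => hB (hκ₀m y))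
  obtain ⟨h0, hs0, hi0, hG0⟩ := CircleAction.exists_lift (A := A) hfree (F := G)
    (W := B '' Shell c r) (V := B '' OShell c r) hVo (image_mono hOS)
    (by rintro _ ⟨p, hp, rfl⟩; exact hG p hp)
    (fun y => B (κ₀ y)) hκc (fun y => ⟨_, hκ₀m y, rfl⟩)
    (fun y => ((B.toPartialEquiv.symm y).1, √(rsq c (B.toPartialEquiv.symm y)),
      ((B.toPartialEquiv.symm y).2.1 - c) / √(rsq c (B.toPartialEquiv.symm y))))
    (by
      have c0 : ContinuousOn B.toPartialEquiv.symm (B '' OShell c r) :=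
        B.contMDiffOn_invFun.continuousOn.mono hVt
      have c1 : ContinuousOn (fun y => √(rsq c (B.toPartialEquiv.symm y)))
          (B '' OShell c r) :=
        (Real.continuous_sqrt.comp (continuous_rsq c)).comp_continuousOn c0
      apply ContinuousOn.prodMk (continuous_fst.comp_continuousOn c0)
      apply ContinuousOn.prodMk c1
      apply ContinuousOn.div _ c1
      · rintro _ ⟨p, hp, rfl⟩
        rw [hsymm p (hOS hp)]
        apply (Real.sqrt_pos.2 _).ne'
        have := hp.2.2.2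
        have h2 : 0 < (3 / 4 * r) ^ 2 := by positivity
        linarith
      · exact ((continuous_fst.comp continuous_snd).comp_continuousOn c0).sub
          continuousOn_const)
    (by
      intro x hx θ
      rw [hsact x hx θ, rsq_rotp]
      rfl)
    (by
      rintro _ ⟨p, hp, rfl⟩
      rw [hsymm p (hOS hp)]
      obtain ⟨s, a, w⟩ := p
      have hp' := hp
      obtain ⟨h1, h2, h3, h4⟩ := hp'
      simp only at h1 h2
      have h5 : 0 < rsq c (s, a, w) := lt_trans (by positivity) h4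
      set ρ := √(rsq c (s, a, w)) with hρ
      have h6 : ρ ^ 2 = rsq c (s, a, w) := Real.sq_sqrt h5.le
      have h7 : 0 < ρ := Real.sqrt_pos.2 h5
      have h8 : 3 / 4 * r ≤ ρ := by
        apply Real.le_sqrt_of_sq_le h4.le
      have h9 : ρ ≤ 9 / 4 * r := by
        rw [hρ]; apply Real.sqrt_le_iff.2 ⟨by linarith, h3.le⟩
      have h10 : rsq c (s, a, w) = (a - c) ^ 2 + ‖w‖ ^ 2 := by
        simp only [rsq, nsq]
        rw [← Complex.normSq_eq_norm_sq, Complex.normSq_apply]; ring
      have h11 : -1 ≤ (a - c) / ρ ∧ (a - c) / ρ ≤ 1 := by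
        rw [le_div_iff₀ h7, div_le_iff₀ h7]
        constructor <;> nlinarith [sq_nonneg ‖w‖, abs_le_of_sq_le_sq' (a := a - c) (b := ρ)
          (by nlinarith [sq_nonneg ‖w‖]) h7.le]
      have h12 : κ₀ (s, ρ, (a - c) / ρ) = (s, a, (‖w‖ : ℂ)) := by
        simp only [κ₀]
        rw [clamp_eq h1.le h2.le, clamp_eq h8 h9, clamp_eq h11.1 h11.2]
        refine Prod.ext rfl (Prod.ext ?_ ?_)
        · simp only
          field_simp
          ring
        · simp only
          congr 1
          have h13 : ρ * √(1 - ((a - c) / ρ) ^ 2) = √(ρ ^ 2 * (1 - ((a - c) / ρ) ^ 2)) := by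
            rw [Real.sqrt_mul (by positivity), Real.sqrt_sq h7.le]
          rw [h13]
          have h14 : ρ ^ 2 * (1 - ((a - c) / ρ) ^ 2) = ‖w‖ ^ 2 := by
            field_simp
            rw [h6, h10]
            ring
          rw [h14, Real.sqrt_sq (norm_nonneg w)]
      refine ⟨Complex.arg w, ?_⟩
      rw [h12, ← heq _ (by rw [← h12]; exact hκ₀m _)]
      congr 1
      simp only [rotp]
      rw [mul_comm, Complex.norm_mul_exp_arg_mul_I])
  -- cut off
  let h : M → ℝ := fun y => if y ∈ B '' OShell c r then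
    chi c r (B.toPartialEquiv.symm y) * h0 y else 0
  have hzero : ∀ y ∉ B '' LShell c r, h y = 0 := by
    intro y hy
    by_cases hy2 : y ∈ B '' OShell c r
    · simp only [h]
      rw [if_pos hy2]
      obtain ⟨p, hp, rfl⟩ := hy2
      rw [hsymm p (hOS hp), chi_eq_zero hr (fun hL => hy ⟨p, hL, rfl⟩), zero_mul]
    · simp only [h]
      rw [if_neg hy2]
  refine ⟨h, ?_, ?_, ?_, ?_⟩
  · intro y
    by_cases hy : y ∈ B '' OShell c r
    · have c1 : ContMDiffOn I 𝓘(ℝ, ℝ) ∞
          (fun y => chi c r (B.toPartialEquiv.symm y) * h0 y) (B '' OShell c r) := by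
        apply ContMDiffOn.mul _ hs0
        exact (contDiff_chi c r).contMDiff.comp_contMDiffOn (B.contMDiffOn_invFun.mono hVt)
      have c2 := c1.contMDiffAt (hVo.mem_nhds hy)
      apply c2.congr_of_eventuallyEq
      filter_upwards [hVo.mem_nhds hy] with z hz
      simp only [h]
      rw [if_pos hz]
    · have hy2 : y ∉ B '' LShell c r := fun h => hy (image_mono (LShell_subset_OShell hr) h)
      have ho := isOpen_compl_image B (isCompact_LShell c r)
        (((LShell_subset_OShell hr).trans hOS).trans hB)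
      have c2 : ContMDiffAt I 𝓘(ℝ, ℝ) ∞ (fun _ : M => (0 : ℝ)) y := contMDiffAt_const
      apply c2.congr_of_eventuallyEq
      filter_upwards [ho.mem_nhds hy2] with z hz
      exact hzero z hz
  · intro y θ
    by_cases hy : y ∈ B '' OShell c r
    · simp only [h]
      rw [if_pos hy, if_pos (hVact y hy θ), hsact y hy θ, chi_rotp, hi0 y hy θ]
    · have hy2 : A.act θ y ∉ B '' OShell c r := by
        intro hh
        have := hVact _ hh (-θ)
        rw [A.neg_act] at this
        exact hy this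
      simp only [h]
      rw [if_neg hy, if_neg hy2]
  · intro y hy
    simp only [h]
    rw [if_neg hy]
  · intro p hp
    have hpO := NShell_subset_OShell hr hp
    have hy : B p ∈ B '' OShell c r := ⟨p, hpO, rfl⟩
    have h1 : h (B p) = h0 (B p) := by
      simp only [h]
      rw [if_pos hy, hsymm p (hOS hpO), chi_eq_one hr hp, one_mul]
    rw [h1]
    exact hG0 _ hy

end

end Pool.Agent.Helper65.Barb
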