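import Pool.Agent.Helper65.Barb.Kill

/-!
# Equivariant barbells: the reduction
-/

set_option autoImplicit false
set_option linter.unusedSectionVars false
set_option linter.unusedVariables false

open scoped Manifold ContDiff Topology ComplexConjugate
open Set

namespace Pool.Agent.Helper65.Barb

/-! ### formulas for the barbell map -/

theorem barMap_shell_zero {p : R4} (hp : p ∈ Shell 0 (1 / 5)) :
    barMap ((twist 0 (1 / 5)).f (1, p)) = rotp (4 * Real.pi * step p.1) p := by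
  have h1 : rsq 0 p ≤ (9 / 20) ^ 2 := hp.1.2.2.trans (by norm_num)
  rw [barMap, bfam_apply, (twist 0 (1 / 5)).gf, twist_inv_of_ge (by norm_num) (rsq_one_ge h1),
    twist_of_le (by norm_num) le_rfl (h1.trans (by norm_num))]

theorem barMap_shell_one {p : R4} (hp : p ∈ Shell 1 (1 / 5)) :
    barMap ((twist 1 (1 / 5)).f (1, p)) = rotp (4 * Real.pi * step p.1) p := by
  have h1 : rsq 1 p ≤ (9 / 20) ^ 2 := hp.1.2.2.trans (by norm_num)
  have h2 : rsq 1 ((twist 1 (1 / 5)).f (1, p)) ≤ (9 / 20) ^ 2 := by rwa [rsq_twist]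
  rw [barMap, bfam_apply, twist_inv_of_ge (c := 0) (by norm_num) (rsq_zero_ge h2),
    (twist 1 (1 / 5)).gf,
    twist_of_le (by norm_num) le_rfl ((rsq_zero_le h1).trans (by norm_num))]

theorem barMap_shell_two {p : R4} (hp : p ∈ Shell 0 2) :
    barMap ((twist 0 2).g (1, p)) = p := by
  have h1 : (3 / 2) ^ 2 ≤ rsq 0 p := le_trans (by norm_num) hp.2
  have h2 : (3 / 2) ^ 2 ≤ rsq 0 ((twist 0 2).g (1, p)) := by rwa [rsq_twist_inv]
  rw [barMap, bfam_apply,
    twist_inv_of_ge (c := 0) (r := 1 / 5) (by norm_num) (le_trans (by norm_num) h2),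
    twist_inv_of_ge (c := 1) (by norm_num) (rsq_one_ge' h2), (twist 0 2).fg]

theorem barMap_mid {p : R4} (h0 : (2 / 5) ^ 2 ≤ rsq 0 p) (h1 : (2 / 5) ^ 2 ≤ rsq 1 p)
    (h2 : rsq 0 p ≤ 2 ^ 2) : barMap p = rotp (4 * Real.pi * step p.1) p := by
  rw [barMap, bfam_apply, twist_inv_of_ge (c := 0) (by norm_num) (le_trans (by norm_num) h0),
    twist_inv_of_ge (c := 1) (by norm_num) (le_trans (by norm_num) h1),
    twist_of_le (by norm_num) le_rfl h2]

/-- the support of the standard barbell map -/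
def bsupp : Set R4 := {p | p ∈ tsupp 0 2 ∧ (1 / 5) ^ 2 ≤ rsq 0 p ∧ (1 / 5) ^ 2 ≤ rsq 1 p}

theorem isCompact_bsupp : IsCompact bsupp := by
  apply (isCompact_tsupp 0 2).inter_right
  apply IsClosed.inter (isClosed_le continuous_const (continuous_rsq 0))
  exact isClosed_le continuous_const (continuous_rsq 1)

theorem bsupp_subset : bsupp ⊆ NB := by
  rintro p ⟨h1, h2, h3⟩
  exact ⟨interior_subset (tsupp_subset_interior h1), le_trans (by norm_num) h2,
    le_trans (by norm_num) h3⟩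

theorem barMap_off {p : R4} (hp : p ∉ bsupp) : barMap p = p := by
  by_cases h : p ∈ tsupp 0 2
  · by_cases h0 : (1 / 5) ^ 2 ≤ rsq 0 p
    · have h1 : rsq 1 p ≤ (1 / 5) ^ 2 := by
        by_contra h1
        exact hp ⟨h, h0, (not_le.1 h1).le⟩
      obtain ⟨s, x⟩ := p
      obtain ⟨y, rfl⟩ : ∃ y : ℝ × ℂ, x = (1, 0) + y := ⟨x - (1, 0), by abel⟩
      have hy : nsq y ≤ (1 / 5) ^ 2 := by
        have : rsq 1 (s, (1, 0) + y) = nsq y := by simp [rsq]
        rw [← this]; exact h1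
      rw [barMap, bfam_near_one 1 s y hy, step_of_one_le le_rfl, spin_one]
      simp
    · exact bfam_near_zero 1 (not_le.1 h0).le
  · exact bfam_support 1 p h

/-! ### geometry of the shells -/

theorem Shell_zero_subset : Shell 0 (1 / 5) ⊆ NB := by
  rintro p ⟨⟨h1, h2, h3⟩, h4⟩
  have h5 : rsq 0 p ≤ (9 / 20) ^ 2 := h3.trans (by norm_num)
  exact ⟨⟨h1, h2, h3.trans (by norm_num)⟩, le_trans (by norm_num) h4,
    le_trans (by norm_num) (rsq_one_ge h5)⟩

theorem Shell_one_subset : Shell 1 (1 / 5) ⊆ NB := by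
  rintro p ⟨⟨h1, h2, h3⟩, h4⟩
  have h5 : rsq 1 p ≤ (9 / 20) ^ 2 := h3.trans (by norm_num)
  exact ⟨⟨h1, h2, (rsq_zero_le h5).trans (by norm_num)⟩, le_trans (by norm_num) (rsq_zero_ge h5),
    le_trans (by norm_num) h4⟩

theorem Shell_two_subset : Shell 0 2 ⊆ NB := by
  rintro p ⟨⟨h1, h2, h3⟩, h4⟩
  have h5 : (3 / 2) ^ 2 ≤ rsq 0 p := le_trans (by norm_num) h4
  exact ⟨⟨h1, h2, h3.trans (by norm_num)⟩, le_trans (by norm_num) h4,
    le_trans (by norm_num) (rsq_one_ge' h5)⟩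

theorem disj_zero_one : Disjoint (Shell 0 (1 / 5)) (Shell 1 (1 / 5)) := by
  rw [Set.disjoint_left]
  rintro p ⟨⟨h1, h2, h3⟩, h4⟩ ⟨⟨h5, h6, h7⟩, h8⟩
  have := sq_le_rsq p
  have := sq_le_rsq_one p
  nlinarith

theorem disj_zero_two : Disjoint (Shell 0 (1 / 5)) (Shell 0 2) := by
  rw [Set.disjoint_left]
  rintro p ⟨⟨h1, h2, h3⟩, h4⟩ ⟨⟨h5, h6, h7⟩, h8⟩
  norm_num at h3 h8
  linarith

theorem disj_one_two : Disjoint (Shell 1 (1 / 5)) (Shell 0 2) := by
  rw [Set.disjoint_left]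
  rintro p ⟨⟨h1, h2, h3⟩, h4⟩ ⟨⟨h5, h6, h7⟩, h8⟩
  have := sq_le_rsq_one p
  rw [rsq_one_eq] at this h3
  nlinarith

theorem Core_subset_Shell {c r : ℝ} (hr : 0 < r) : Core c r ⊆ Shell c r :=
  (Core_subset_NShell hr).trans ((NShell_subset_OShell hr).trans (OShell_subset_Shell c r))

theorem NShell_subset_Shell {c r : ℝ} (hr : 0 < r) : NShell c r ⊆ Shell c r :=
  (NShell_subset_OShell hr).trans (OShell_subset_Shell c r)

theorem twist_mem_Shell {c r t : ℝ} {p : R4} (hp : p ∈ Shell c r) :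
    (twist c r).f (t, p) ∈ Shell c r := by
  obtain ⟨⟨h1, h2, h3⟩, h4⟩ := hp
  exact ⟨⟨h1, h2, by rwa [rsq_twist]⟩, by rwa [rsq_twist]⟩

theorem twist_inv_mem_Shell {c r t : ℝ} {p : R4} (hp : p ∈ Shell c r) :
    (twist c r).g (t, p) ∈ Shell c r := by
  obtain ⟨⟨h1, h2, h3⟩, h4⟩ := hp
  exact ⟨⟨h1, h2, by rwa [rsq_twist_inv]⟩, by rwa [rsq_twist_inv]⟩

theorem twist_mem_NShell {c r t : ℝ} {p : R4} (hp : p ∈ NShell c r) :
    (twist c r).f (t, p) ∈ NShell c r := by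
  obtain ⟨h1, h2, h3, h4⟩ := hp
  exact ⟨h1, h2, by rwa [rsq_twist], by rwa [rsq_twist]⟩

theorem twist_inv_mem_NShell {c r t : ℝ} {p : R4} (hp : p ∈ NShell c r) :
    (twist c r).g (t, p) ∈ NShell c r := by
  obtain ⟨h1, h2, h3, h4⟩ := hp
  exact ⟨h1, h2, by rwa [rsq_twist_inv], by rwa [rsq_twist_inv]⟩

theorem rotp_mem_NShell {c r : ℝ} (θ : ℝ) {p : R4} (hp : p ∈ NShell c r) :
    rotp θ p ∈ NShell c r := by
  obtain ⟨h1, h2, h3, h4⟩ := hp
  exact ⟨h1, h2, by rwa [rsq_rotp], by rwa [rsq_rotp]⟩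

/-- the angle of the bulk rotation -/
noncomputable def ang (p : R4) : ℝ := 4 * Real.pi * step p.1

theorem contDiff_ang : ContDiff ℝ ∞ ang := contDiff_const.mul (contDiff_step.comp contDiff_fst)

theorem ang_rotp (θ : ℝ) (p : R4) : ang (rotp θ p) = ang p := rfl

section
variable {E : Type*} [NormedAddCommGroup E] [NormedSpace ℝ E] {H : Type*} [TopologicalSpace H]
  {I : ModelWithCorners ℝ E H} {M : Type*} [TopologicalSpace M] [ChartedSpace H M] [T2Space M]

/-- The sphere of the barbell `B` with centre `c` and radius `r` bounds an invariant 3-ball: the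
restriction of `B` to the thickened sphere `Shell c r` extends to an equivariant open embedding
of (a neighbourhood of) the thickened 3-ball `Ball c r`. -/
def BoundsBall (A : CircleAction I M) (B : PartialDiffeomorph 𝓘(ℝ, R4) I R4 M ∞) (c r : ℝ) :
    Prop :=
  ∃ δ : PartialDiffeomorph 𝓘(ℝ, R4) I R4 M ∞, Ball c r ⊆ δ.source ∧
    (∀ p ∈ Ball c r, ∀ θ, δ (rotp θ p) = A.act θ (δ p)) ∧ ∀ p ∈ Shell c r, δ p = B p

variable {A : CircleAction I M}

theorem LB_rot (δ : PartialDiffeomorph 𝓘(ℝ, R4) I R4 M ∞) {U : Set R4} (hU : IsOpen U)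
    (hUs : U ⊆ δ.source) (hUr : ∀ p ∈ U, ∀ θ, rotp θ p ∈ U)
    (heq : ∀ p ∈ U, ∀ θ, δ (rotp θ p) = A.act θ (δ p)) {φ : R4 → ℝ} (hφ : ContDiff ℝ ∞ φ)
    (hφr : ∀ p θ, φ (rotp θ p) = φ p) {F : M → M} (hF : ∀ p ∈ U, F (δ p) = δ (rotp (φ p) p))
    {p : R4} (hp : p ∈ U) : A.LB F (δ p) := by
  have hVo : IsOpen (δ '' U) := isOpen_image δ hU hUs
  have hVt : δ '' U ⊆ δ.target := by
    rintro _ ⟨q, hq, rfl⟩
    exact δ.toPartialEquiv.map_source (hUs hq)
  have hsymm : ∀ q ∈ U, δ.toPartialEquiv.symm (δ q) = q :=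
    fun q hq => δ.toPartialEquiv.left_inv (hUs hq)
  refine ⟨δ '' U, hVo, ⟨p, hp, rfl⟩, ?_, fun y => φ (δ.toPartialEquiv.symm y), ?_, ?_, ?_⟩
  · rintro _ ⟨q, hq, rfl⟩ θ
    exact ⟨rotp θ q, hUr q hq θ, heq q hq θ⟩
  · exact hφ.contMDiff.comp_contMDiffOn (δ.contMDiffOn_invFun.mono hVt)
  · rintro _ ⟨q, hq, rfl⟩ θ
    beta_reduce
    rw [← heq q hq θ, hsymm _ (hUr q hq θ), hsymm q hq, hφr]
  · rintro _ ⟨q, hq, rfl⟩
    beta_reduce
    rw [hF q hq, hsymm q hq, heq q hq]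

theorem LB_off (δ : PartialDiffeomorph 𝓘(ℝ, R4) I R4 M ∞) {K : Set R4} (hKc : IsCompact K)
    (hKs : K ⊆ δ.source) (hKr : ∀ p ∈ K, ∀ θ, rotp θ p ∈ K)
    (heq : ∀ p ∈ K, ∀ θ, δ (rotp θ p) = A.act θ (δ p)) {F : M → M}
    (hF : ∀ y ∉ δ '' K, F y = y) {y : M} (hy : y ∉ δ '' K) : A.LB F y := by
  refine ⟨(δ '' K)ᶜ, isOpen_compl_image δ hKc hKs, hy, ?_, fun _ => 0, contMDiffOn_const,
    fun _ _ _ => rfl, fun z hz => ?_⟩
  · rintro z hz θ ⟨q, hq, hqz⟩
    apply hz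
    refine ⟨rotp (-θ) q, hKr q hq _, ?_⟩
    rw [heq q hq, hqz, A.neg_act]
  · rw [hF z hz, A.zero]

theorem exists_g {B : PartialDiffeomorph 𝓘(ℝ, R4) I R4 M ∞} {c r : ℝ} (hr : 0 < r)
    (hb : BoundsBall A B c r) :
    ∃ g g' : M → M, Isot I (fun x => x) g ∧ (∀ y, g (g' y) = y) ∧ (∀ y, g' (g y) = y) ∧
      (∀ p ∈ Shell c r, g (B p) = B ((twist c r).f (1, p))) ∧
      (∀ p ∈ Shell c r, g' (B p) = B ((twist c r).g (1, p))) ∧
      ∀ y ∉ B '' Core c r, A.LB g y := by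
  obtain ⟨δ, hδs, hδe, hδB⟩ := hb
  have hts : tsupp c r ⊆ Ball c r := by
    rintro p ⟨h1, h2, h3⟩
    exact ⟨by linarith, by linarith, h3.trans (by nlinarith)⟩
  have htw : ∀ t p, p ∉ tsupp c r → (twist c r).f (t, p) = p :=
    fun t p hp => twist_of_notMem hr t p hp
  let T := (twist c r).push δ (isCompact_tsupp c r) (hts.trans hδs) htw
  have hTf : ∀ t y, T.f (t, y) = push δ (fun x => (twist c r).f (t, x)) y := fun _ _ => rfl
  have hTg : ∀ t y, T.g (t, y) = push δ (fun x => (twist c r).g (t, x)) y := fun _ _ => rfl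
  have hSB : Shell c r ⊆ Ball c r := fun p hp => hp.1
  refine ⟨fun y => T.f (1, y), fun y => T.g (1, y), ⟨T, ?_, fun _ => rfl⟩, fun y => T.fg 1 y,
    fun y => T.gf 1 y, ?_, ?_, ?_⟩
  · intro y
    rw [hTf]
    have : (fun x => (twist c r).f (0, x)) = fun x => x := by
      funext x; exact twist_of_time le_rfl x
    rw [this]
    exact push_id δ y
  · intro p hp
    beta_reduce
    rw [← hδB p hp, hTf, push_of_mem δ _ (hδs (hSB hp)), hδB _ (twist_mem_Shell hp)]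
  · intro p hp
    beta_reduce
    rw [← hδB p hp, hTg, push_of_mem δ _ (hδs (hSB hp)), hδB _ (twist_inv_mem_Shell hp)]
  · intro y hy
    by_cases hyt : y ∈ δ '' tsupp c r
    · obtain ⟨p, hp, rfl⟩ := hyt
      have h1 : rsq c p < r ^ 2 := by
        by_contra hcon
        apply hy
        have hC : p ∈ Core c r := ⟨hp.1, hp.2.1, hp.2.2, not_lt.1 hcon⟩
        exact ⟨p, hC, (hδB p (Core_subset_Shell hr hC)).symm⟩
      have hUo : IsOpen {q : R4 | -1 < q.1 ∧ q.1 < 2 ∧ rsq c q < r ^ 2} := by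
        apply IsOpen.inter (isOpen_lt continuous_const continuous_fst)
        apply IsOpen.inter (isOpen_lt continuous_fst continuous_const)
        exact isOpen_lt (continuous_rsq c) continuous_const
      have hUB : {q : R4 | -1 < q.1 ∧ q.1 < 2 ∧ rsq c q < r ^ 2} ⊆ Ball c r := by
        rintro q ⟨h1, h2, h3⟩
        exact ⟨h1.le, h2.le, h3.le.trans (by nlinarith)⟩
      apply LB_rot (A := A) δ hUo (hUB.trans hδs) _ (fun q hq => hδe q (hUB hq)) contDiff_ang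
        (fun q θ => ang_rotp θ q) _ (p := p) ⟨by linarith [hp.1], by linarith [hp.2.1], h1⟩
      · rintro q ⟨h1, h2, h3⟩ θ
        exact ⟨h1, h2, by rwa [rsq_rotp]⟩
      · rintro q hq
        rw [hTf, push_of_mem δ _ (hδs (hUB hq)), twist_of_le hr le_rfl hq.2.2.le]
        rfl
    · apply LB_off (A := A) δ (isCompact_tsupp c r) (hts.trans hδs) _
        (fun q hq => hδe q (hts hq)) _ hyt
      · rintro q ⟨h1, h2, h3⟩ θ
        exact ⟨h1, h2, by rwa [rsq_rotp]⟩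
      · intro z hz
        rw [hTf]
        exact push_of_notMem δ _ (hts.trans hδs) (fun x hx => htw 1 x hx) hz

theorem exists_G (hfree : Dense {x : M | ∀ θ, A.act θ x = x → ∃ k : ℤ, θ = k * (2 * Real.pi)})
    {B : PartialDiffeomorph 𝓘(ℝ, R4) I R4 M ∞} {c r c1 r1 c2 r2 : ℝ} (hr : 0 < r) (hr1 : 0 < r1)
    (hr2 : 0 < r2) (hB : Shell c r ⊆ B.source) (hB1 : Shell c1 r1 ⊆ B.source)
    (hB2 : Shell c2 r2 ⊆ B.source)
    (he1 : ∀ p ∈ Shell c1 r1, ∀ θ, B (rotp θ p) = A.act θ (B p))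
    (he2 : ∀ p ∈ Shell c2 r2, ∀ θ, B (rotp θ p) = A.act θ (B p))
    (hd1 : Disjoint (Shell c r) (Shell c1 r1)) (hd2 : Disjoint (Shell c r) (Shell c2 r2))
    (hd12 : Disjoint (Shell c1 r1) (Shell c2 r2)) (b : Prop) (hb : b → BoundsBall A B c r) :
    ∃ G G' : M → M, Isot I (fun x => x) G ∧ (∀ y, G (G' y) = y) ∧ (∀ y, G' (G y) = y) ∧
      (b → ∀ p ∈ Shell c r, G (B p) = B ((twist c r).f (1, p)) ∧
        G' (B p) = B ((twist c r).g (1, p))) ∧
      (¬ b → ∀ y, G y = y ∧ G' y = y) ∧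
      (∀ y ∉ B '' Core c r, A.LB G y) ∧
      (∀ p ∈ NShell c1 r1, G (B p) = B p ∧ G' (B p) = B p) ∧
      (∀ p ∈ NShell c2 r2, G (B p) = B p ∧ G' (B p) = B p) := by
  by_cases hbb : b
  · obtain ⟨g, g', hgi, hgg', hg'g, hgS, hg'S, hgL⟩ := exists_g hr (hb hbb)
    have hinj : ∀ p ∈ B.source, ∀ q ∈ B.source, B p = B q → p = q :=
      fun p hp q hq h => B.toPartialEquiv.injOn hp hq h
    have hnot : ∀ {ca ra cb rb : ℝ}, Shell ca ra ⊆ B.source → Shell cb rb ⊆ B.source →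
        Disjoint (Shell ca ra) (Shell cb rb) → ∀ p ∈ Shell ca ra, B p ∉ B '' Shell cb rb := by
      rintro ca ra cb rb ha hb' hd p hp ⟨q, hq, hqp⟩
      have := hinj q (hb' hq) p (ha hp) hqp
      subst this
      exact Set.disjoint_left.1 hd hp hq
    obtain ⟨h1, hs1, hi1, hz1, hk1⟩ := kill (A := A) hfree B hr1 hB1 he1 (G := g) (by
      intro p hp
      apply hgL
      intro hc
      exact hnot hB1 hB hd1.symm p hp (image_mono (Core_subset_Shell hr) hc))
    obtain ⟨h2, hs2, hi2, hz2, hk2⟩ := kill (A := A) hfree B hr2 hB2 he2 (G := g) (by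
      intro p hp
      apply hgL
      intro hc
      exact hnot hB2 hB hd2.symm p hp (image_mono (Core_subset_Shell hr) hc))
    have hz1' : ∀ {ca ra : ℝ}, Shell ca ra ⊆ B.source → Disjoint (Shell ca ra) (Shell c1 r1) →
        ∀ p ∈ Shell ca ra, h1 (B p) = 0 := by
      intro ca ra ha hd p hp
      apply hz1
      intro hc
      exact hnot ha hB1 hd p hp (image_mono (OShell_subset_Shell c1 r1) hc)
    have hz2' : ∀ {ca ra : ℝ}, Shell ca ra ⊆ B.source → Disjoint (Shell ca ra) (Shell c2 r2) →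
        ∀ p ∈ Shell ca ra, h2 (B p) = 0 := by
      intro ca ra ha hd p hp
      apply hz2
      intro hc
      exact hnot ha hB2 hd p hp (image_mono (OShell_subset_Shell c2 r2) hc)
    let h : M → ℝ := fun y => h1 y + h2 y
    have hs : ContMDiff I 𝓘(ℝ, ℝ) ∞ h := hs1.add hs2
    have hi : ∀ x θ, h (A.act θ x) = h x := by
      intro x θ
      simp only [h, hi1, hi2]
    have hsn : ContMDiff I 𝓘(ℝ, ℝ) ∞ (fun y => -h y) := hs.neg
    have hin : ∀ x θ, -h (A.act θ x) = -h x := by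
      intro x θ
      rw [hi]
    have hGG' : ∀ y, A.act (-h (g (g' (A.act (h y) y)))) (g (g' (A.act (h y) y))) = y := by
      intro y
      rw [hgg', hi, A.neg_act]
    have hG'G : ∀ y, g' (A.act (h (A.act (-h (g y)) (g y))) (A.act (-h (g y)) (g y))) = y := by
      intro y
      rw [hi, A.act_neg, hg'g]
    have hN1 : ∀ p ∈ NShell c1 r1, A.act (-h (g (B p))) (g (B p)) = B p := by
      intro p hp
      have e1 := hk1 p hp
      have e2 : h (B p) = h1 (B p) := by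
        simp only [h]
        rw [hz2' hB1 hd12 p (NShell_subset_Shell hr1 hp), add_zero]
      rw [e1, hi, e2, A.neg_act]
    have hN2 : ∀ p ∈ NShell c2 r2, A.act (-h (g (B p))) (g (B p)) = B p := by
      intro p hp
      have e1 := hk2 p hp
      have e2 : h (B p) = h2 (B p) := by
        simp only [h]
        rw [hz1' hB2 hd12.symm p (NShell_subset_Shell hr2 hp), zero_add]
      rw [e1, hi, e2, A.neg_act]
    refine ⟨fun y => A.act (-h (g y)) (g y), fun y => g' (A.act (h y) y),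
      (A.isot_bulk hsn hin).comp hgi, hGG', hG'G, ?_, fun hnb => absurd hbb hnb, ?_, ?_, ?_⟩
    · intro _ p hp
      have e0 : ∀ q ∈ Shell c r, h (B q) = 0 := by
        intro q hq
        simp only [h]
        rw [hz1' hB hd1 q hq, hz2' hB hd2 q hq, add_zero]
      simp only
      rw [hgS p hp, e0 _ (twist_mem_Shell hp), e0 p hp, neg_zero, A.zero, A.zero, hg'S p hp]
      exact ⟨rfl, rfl⟩
    · intro y hy
      have e1 : A.LB (fun z => A.act (-h z) z) y :=
        CircleAction.LB.of_global hsn hin (fun _ => rfl) y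
      exact e1.comp (hgL y hy)
    · intro p hp
      refine ⟨hN1 p hp, ?_⟩
      have := hG'G (B p)
      rwa [hN1 p hp] at this
    · intro p hp
      refine ⟨hN2 p hp, ?_⟩
      have := hG'G (B p)
      rwa [hN2 p hp] at this
  · exact ⟨fun y => y, fun y => y, Isot.one, fun _ => rfl, fun _ => rfl,
      fun h => absurd h hbb, fun _ y => ⟨rfl, rfl⟩, fun y _ => CircleAction.LB.id A y,
      fun p _ => ⟨rfl, rfl⟩, fun p _ => ⟨rfl, rfl⟩⟩

end

end Pool.Agent.Helper65.Barb
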