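import Pool.Agent.Helper65.Barb.Main0

/-!
# Equivariant barbells: the abstract theorems
-/

set_option autoImplicit false
set_option linter.unusedSectionVars false
set_option linter.unusedVariables false

open scoped Manifold ContDiff Topology ComplexConjugate
open Set

namespace Pool.Agent.Helper65.Barb

section
variable {E : Type*} [NormedAddCommGroup E] [NormedSpace ℝ E] {H : Type*} [TopologicalSpace H]
  {I : ModelWithCorners ℝ E H} {M : Type*} [TopologicalSpace M] [ChartedSpace H M] [T2Space M]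
  {A : CircleAction I M}

theorem reduce (hfree : Dense {x : M | ∀ θ, A.act θ x = x → ∃ k : ℤ, θ = k * (2 * Real.pi)})
    (B : PartialDiffeomorph 𝓘(ℝ, R4) I R4 M ∞) (hNB : NB ⊆ B.source)
    (he : ∀ p ∈ NB, ∀ θ, B (rotp θ p) = A.act θ (B p)) (b0 b1 b2 : Prop)
    (hb0 : b0 → BoundsBall A B 0 (1 / 5)) (hb1 : b1 → BoundsBall A B 1 (1 / 5))
    (hb2 : b2 → BoundsBall A B 0 2) :
    ∃ Z Z' : M → M, Isot I (push B barMap) Z ∧ (∀ y, Z (Z' y) = y) ∧ (∀ y, Z' (Z y) = y) ∧
      (∀ y, (¬ b0 → y ∉ B '' Core 0 (1 / 5)) → (¬ b1 → y ∉ B '' Core 1 (1 / 5)) →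
        (¬ b2 → y ∉ B '' Core 0 2) → A.LB Z y) ∧
      (¬ b0 → ∀ p ∈ NShell 0 (1 / 5), Z (B p) = B (barMap p)) ∧
      (¬ b1 → ∀ p ∈ NShell 1 (1 / 5), Z (B p) = B (barMap p)) ∧
      (¬ b2 → ∀ p ∈ NShell 0 2, Z (B p) = B (barMap p)) := by
  have hS0 := Shell_zero_subset.trans hNB
  have hS1 := Shell_one_subset.trans hNB
  have hS2 := Shell_two_subset.trans hNB
  have he0 : ∀ p ∈ Shell 0 (1 / 5), ∀ θ, B (rotp θ p) = A.act θ (B p) :=
    fun p hp => he p (Shell_zero_subset hp)
  have he1 : ∀ p ∈ Shell 1 (1 / 5), ∀ θ, B (rotp θ p) = A.act θ (B p) :=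
    fun p hp => he p (Shell_one_subset hp)
  have he2 : ∀ p ∈ Shell 0 2, ∀ θ, B (rotp θ p) = A.act θ (B p) :=
    fun p hp => he p (Shell_two_subset hp)
  have r5 : (0 : ℝ) < 1 / 5 := by norm_num
  have r2 : (0 : ℝ) < 2 := by norm_num
  obtain ⟨G0, G0', i0, l0, l0', t0, n0, L0, k01, k02⟩ := exists_G (A := A) hfree r5 r5 r2
    hS0 hS1 hS2 he1 he2 disj_zero_one disj_zero_two disj_one_two b0 hb0
  obtain ⟨G1, G1', i1, l1, l1', t1, n1, L1, k10, k12⟩ := exists_G (A := A) hfree r5 r5 r2
    hS1 hS0 hS2 he0 he2 disj_zero_one.symm disj_one_two disj_zero_two b1 hb1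
  obtain ⟨G2, G2', i2, l2, l2', t2, n2, L2, k20, k21⟩ := exists_G (A := A) hfree r2 r5 r5
    hS2 hS0 hS1 he0 he1 disj_zero_two.symm disj_one_two.symm disj_zero_one b2 hb2
  have hf0 : Isot I (push B barMap) (push B barMap) :=
    isot_push_barbellMap B hNB isBarbellMap_barMap isBarbellMap_barMap
  obtain ⟨f', hf', hff', hf'f⟩ := IsDiffeo.exists_inv hf0
  -- the value of `f` on the image of `B`
  have hfB : ∀ p ∈ NB, push B barMap (B p) = B (barMap p) :=
    fun p hp => push_of_mem B _ (hNB hp)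
  have hLf : ∀ y, y ∉ B '' Core 0 (1 / 5) → y ∉ B '' Core 1 (1 / 5) → y ∉ B '' Core 0 2 →
      A.LB (push B barMap) y := by
    intro y h0 h1 h2
    by_cases hy : y ∈ B '' bsupp
    · obtain ⟨p, hp, rfl⟩ := hy
      have hc0 : p ∉ Core 0 (1 / 5) := fun h => h0 ⟨p, h, rfl⟩
      have hc1 : p ∉ Core 1 (1 / 5) := fun h => h1 ⟨p, h, rfl⟩
      have hc2 : p ∉ Core 0 2 := fun h => h2 ⟨p, h, rfl⟩
      obtain ⟨⟨hp1, hp2, hp3⟩, hp4, hp5⟩ := hp
      have e0 : (2 / 5) ^ 2 < rsq 0 p := by
        by_contra hcon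
        exact hc0 ⟨hp1, hp2, (not_lt.1 hcon).trans (by norm_num), hp4⟩
      have e1 : (2 / 5) ^ 2 < rsq 1 p := by
        by_contra hcon
        exact hc1 ⟨hp1, hp2, (not_lt.1 hcon).trans (by norm_num), hp5⟩
      have e2 : rsq 0 p < 2 ^ 2 := by
        by_contra hcon
        exact hc2 ⟨hp1, hp2, hp3, not_lt.1 hcon⟩
      let U : Set R4 := {q | -1 < q.1 ∧ q.1 < 2 ∧ (2 / 5) ^ 2 < rsq 0 q ∧
        (2 / 5) ^ 2 < rsq 1 q ∧ rsq 0 q < 2 ^ 2}
      have hUo : IsOpen U := by
        apply IsOpen.inter (isOpen_lt continuous_const continuous_fst)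
        apply IsOpen.inter (isOpen_lt continuous_fst continuous_const)
        apply IsOpen.inter (isOpen_lt continuous_const (continuous_rsq 0))
        apply IsOpen.inter (isOpen_lt continuous_const (continuous_rsq 1))
        exact isOpen_lt (continuous_rsq 0) continuous_const
      have hUN : U ⊆ NB := by
        rintro q ⟨h1, h2, h3, h4, h5⟩
        exact ⟨⟨h1.le, h2.le, h5.le.trans (by norm_num)⟩, le_trans (by norm_num) h3.le,
          le_trans (by norm_num) h4.le⟩
      apply LB_rot (A := A) B hUo (hUN.trans hNB) _ (fun q hq => he q (hUN hq)) contDiff_ang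
        (fun q θ => ang_rotp θ q) _ (p := p) ⟨by linarith, by linarith, e0, e1, e2⟩
      · rintro q ⟨h1, h2, h3, h4, h5⟩ θ
        exact ⟨h1, h2, by rwa [rsq_rotp], by rwa [rsq_rotp], by rwa [rsq_rotp]⟩
      · intro q hq
        rw [hfB q (hUN hq), barMap_mid hq.2.2.1.le hq.2.2.2.1.le hq.2.2.2.2.le]
        rfl
    · apply LB_off (A := A) B isCompact_bsupp (bsupp_subset.trans hNB) _
        (fun q hq => he q (bsupp_subset hq)) _ hy
      · rintro q ⟨⟨h1, h2, h3⟩, h4, h5⟩ θ
        exact ⟨⟨h1, h2, by rwa [rsq_rotp]⟩, by rwa [rsq_rotp], by rwa [rsq_rotp]⟩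
      · intro z hz
        exact push_of_notMem B _ (bsupp_subset.trans hNB) (fun x hx => barMap_off hx) hz
  have hopen : ∀ {c r : ℝ}, 0 < r → Shell c r ⊆ B.source → IsOpen (B '' NShell c r) :=
    fun hr h => isOpen_image B (isOpen_NShell _ _) ((NShell_subset_Shell hr).trans h)
  -- local behaviour near the cores of the spheres that have been filled
  have hcore : ∀ {c r : ℝ} (hr : 0 < r) (hSN : Shell c r ⊆ NB) {F : M → M} {p : R4}
      (hp : p ∈ Core c r)
      (hF : ∀ q ∈ NShell c r, F (B q) = B (rotp (ang q) q)), A.LB F (B p) := by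
    intro c r hr hSN F p hp hF
    exact LB_rot (A := A) B (isOpen_NShell c r) ((NShell_subset_Shell hr).trans (hSN.trans hNB))
      (fun q hq θ => rotp_mem_NShell θ hq)
      (fun q hq => he q (hSN (NShell_subset_Shell hr hq))) contDiff_ang
      (fun q θ => ang_rotp θ q) hF (Core_subset_NShell hr hp)
  have hcore' : ∀ {c r : ℝ} (hr : 0 < r) (hSN : Shell c r ⊆ NB) {F : M → M} {p : R4}
      (hp : p ∈ Core c r) (hF : ∀ q ∈ NShell c r, F (B q) = B q), A.LB F (B p) := by
    intro c r hr hSN F p hp hF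
    apply LB_rot (A := A) B (isOpen_NShell c r)
      ((NShell_subset_Shell hr).trans (hSN.trans hNB))
      (fun q hq θ => rotp_mem_NShell θ hq)
      (fun q hq => he q (hSN (NShell_subset_Shell hr hq))) (φ := fun _ => 0) contDiff_const
      (fun q θ => rfl) _ (Core_subset_NShell hr hp)
    intro q hq
    rw [hF q hq]
    simp [rotp]
  refine ⟨fun y => push B barMap (G1 (G0 (G2' y))), fun y => G2 (G0' (G1' (f' y))), ?_, ?_, ?_,
    ?_, ?_, ?_, ?_⟩
  · have i2' : Isot I (fun x => x) G2' := i2.inv (fun x => rfl) l2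
    exact hf0.comp (i1.comp (i0.comp i2'))
  · intro y
    simp only [l2', l0, l1, hff']
  · intro y
    simp only [l2, l0', l1', hf'f]
  · intro y hy0 hy1 hy2
    by_cases c0 : y ∈ B '' Core 0 (1 / 5)
    · have hb : b0 := by
        by_contra h
        exact hy0 h c0
      obtain ⟨p, hp, rfl⟩ := c0
      apply hcore r5 Shell_zero_subset hp
      intro q hq
      have hqS := NShell_subset_Shell r5 hq
      rw [(k20 q hq).2, (t0 hb q hqS).1, (k10 _ (twist_mem_NShell hq)).1,
        hfB _ (Shell_zero_subset (twist_mem_Shell hqS)), barMap_shell_zero hqS]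
      rfl
    · by_cases c1 : y ∈ B '' Core 1 (1 / 5)
      · have hb : b1 := by
          by_contra h
          exact hy1 h c1
        obtain ⟨p, hp, rfl⟩ := c1
        apply hcore r5 Shell_one_subset hp
        intro q hq
        have hqS := NShell_subset_Shell r5 hq
        rw [(k21 q hq).2, (k01 q hq).1, (t1 hb q hqS).1,
          hfB _ (Shell_one_subset (twist_mem_Shell hqS)), barMap_shell_one hqS]
        rfl
      · by_cases c2 : y ∈ B '' Core 0 2
        · have hb : b2 := by
            by_contra h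
            exact hy2 h c2
          obtain ⟨p, hp, rfl⟩ := c2
          apply hcore' r2 Shell_two_subset hp
          intro q hq
          have hqS := NShell_subset_Shell r2 hq
          rw [(t2 hb q hqS).2, (k02 _ (twist_inv_mem_NShell hq)).1,
            (k12 _ (twist_inv_mem_NShell hq)).1,
            hfB _ (Shell_two_subset (twist_inv_mem_Shell hqS)), barMap_shell_two hqS]
        · exact (hLf y c0 c1 c2).comp ((L1 y c1).comp ((L0 y c0).comp ((L2 y c2).inv l2')))
  · intro hb p hp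
    simp only
    rw [(k20 p hp).2, (n0 hb _).1, (k10 p hp).1,
      hfB p (Shell_zero_subset (NShell_subset_Shell r5 hp))]
  · intro hb p hp
    simp only
    rw [(k21 p hp).2, (k01 p hp).1, (n1 hb _).1,
      hfB p (Shell_one_subset (NShell_subset_Shell r5 hp))]
  · intro hb p hp
    simp only
    rw [(n2 hb _).2, (k02 p hp).1, (k12 p hp).1,
      hfB p (Shell_two_subset (NShell_subset_Shell r2 hp))]

end

end Pool.Agent.Helper65.Barb
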