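import Pool.Agent.Helper65.Barb.Main1

/-!
# Equivariant barbells: the abstract theorems
-/

set_option autoImplicit false
set_option linter.unusedSectionVars false
set_option linter.unusedVariables false

open scoped Manifold ContDiff Topology ComplexConjugate
open Set

namespace Pool.Agent.Helper65.Barb

theorem rotp_add (s t : ℝ) (p : R4) : rotp (s + t) p = rotp s (rotp t p) := by
  simp only [rotp]
  rw [← mul_assoc, ← Complex.exp_add]
  push_cast
  rw [add_mul]

theorem rotp_zero (p : R4) : rotp 0 p = p := by simp [rotp]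

theorem rotp_neg (t : ℝ) (p : R4) : rotp t (rotp (-t) p) = p := by
  rw [← rotp_add, add_neg_cancel, rotp_zero]

theorem exists_barMap_zero {q : R4} (hq : q ∈ NShell 0 (1 / 5)) :
    ∃ p ∈ NShell 0 (1 / 5), barMap p = q := by
  have hq' : rotp (-ang q) q ∈ NShell 0 (1 / 5) := rotp_mem_NShell _ hq
  refine ⟨(twist 0 (1 / 5)).f (1, rotp (-ang q) q), twist_mem_NShell hq', ?_⟩
  rw [barMap_shell_zero (NShell_subset_Shell (by norm_num) hq')]
  exact rotp_neg _ _

theorem exists_barMap_one {q : R4} (hq : q ∈ NShell 1 (1 / 5)) :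
    ∃ p ∈ NShell 1 (1 / 5), barMap p = q := by
  have hq' : rotp (-ang q) q ∈ NShell 1 (1 / 5) := rotp_mem_NShell _ hq
  refine ⟨(twist 1 (1 / 5)).f (1, rotp (-ang q) q), twist_mem_NShell hq', ?_⟩
  rw [barMap_shell_one (NShell_subset_Shell (by norm_num) hq')]
  exact rotp_neg _ _

theorem exists_barMap_two {q : R4} (hq : q ∈ NShell 0 2) :
    ∃ p ∈ NShell 0 2, barMap p = q :=
  ⟨(twist 0 2).g (1, q), twist_inv_mem_NShell hq,
    barMap_shell_two (NShell_subset_Shell (by norm_num) hq)⟩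

section
variable {E : Type*} [NormedAddCommGroup E] [NormedSpace ℝ E] {H : Type*} [TopologicalSpace H]
  {I : ModelWithCorners ℝ E H} {M : Type*} [TopologicalSpace M] [ChartedSpace H M] [T2Space M]
  {A : CircleAction I M}

/-- a map which is locally a bulk rotation is globally one -/
def CircleAction.Global (A : CircleAction I M) : Prop :=
  ∀ F : M → M, (∀ x, A.LB F x) → ∃ h : M → ℝ, ContMDiff I 𝓘(ℝ, ℝ) ∞ h ∧
    (∀ x θ, h (A.act θ x) = h x) ∧ ∀ x, F x = A.act (h x) x

theorem isot_id_of_LB (hglob : A.Global) {F : M → M} (hF : ∀ x, A.LB F x) :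
    Isot I F (fun y => y) := by
  obtain ⟨h, hs, hi, hFh⟩ := hglob F hF
  have : F = fun x => A.act (h x) x := funext hFh
  rw [this]
  exact (A.isot_bulk hs hi).symm

/-- If the three spheres of an equivariant barbell bound invariant balls, then the implantation is
isotopic to the identity. -/
theorem trivial_of_balls
    (hfree : Dense {x : M | ∀ θ, A.act θ x = x → ∃ k : ℤ, θ = k * (2 * Real.pi)})
    (hglob : A.Global) (B : PartialDiffeomorph 𝓘(ℝ, R4) I R4 M ∞) (hNB : NB ⊆ B.source)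
    (he : ∀ p ∈ NB, ∀ θ, B (rotp θ p) = A.act θ (B p))
    (h0 : BoundsBall A B 0 (1 / 5)) (h1 : BoundsBall A B 1 (1 / 5)) (h2 : BoundsBall A B 0 2)
    {β : R4 → R4} (hβ : IsBarbellMap β) : Isot I (push B β) (fun y => y) := by
  obtain ⟨Z, Z', hi, -, -, hL, -⟩ := reduce (A := A) hfree B hNB he True True True
    (fun _ => h0) (fun _ => h1) (fun _ => h2)
  have hL' : ∀ y, A.LB Z y := fun y =>
    hL y (fun h => absurd trivial h) (fun h => absurd trivial h) (fun h => absurd trivial h)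
  exact (isot_push_barbellMap B hNB isBarbellMap_barMap hβ).trans
    (hi.trans (isot_id_of_LB hglob hL'))

/-- Comparison of two equivariant barbells. -/
theorem isot_of_same
    (hfree : Dense {x : M | ∀ θ, A.act θ x = x → ∃ k : ℤ, θ = k * (2 * Real.pi)})
    (hglob : A.Global) (B B' : PartialDiffeomorph 𝓘(ℝ, R4) I R4 M ∞) (hNB : NB ⊆ B.source)
    (hNB' : NB ⊆ B'.source)
    (he : ∀ p ∈ NB, ∀ θ, B (rotp θ p) = A.act θ (B p))
    (he' : ∀ p ∈ NB, ∀ θ, B' (rotp θ p) = A.act θ (B' p))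
    (h0 : (∀ p ∈ Shell 0 (1 / 5), B p = B' p) ∨
      (BoundsBall A B 0 (1 / 5) ∧ BoundsBall A B' 0 (1 / 5)))
    (h1 : (∀ p ∈ Shell 1 (1 / 5), B p = B' p) ∨
      (BoundsBall A B 1 (1 / 5) ∧ BoundsBall A B' 1 (1 / 5)))
    (h2 : (∀ p ∈ Shell 0 2, B p = B' p) ∨ (BoundsBall A B 0 2 ∧ BoundsBall A B' 0 2))
    {β β' : R4 → R4} (hβ : IsBarbellMap β) (hβ' : IsBarbellMap β') :
    Isot I (push B β) (push B' β') := by
  have r5 : (0 : ℝ) < 1 / 5 := by norm_num
  have r2 : (0 : ℝ) < 2 := by norm_num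
  obtain ⟨Z, Z1, hi, hZ, hZ', hL, k0, k1, k2⟩ := reduce (A := A) hfree B hNB he
    (BoundsBall A B 0 (1 / 5) ∧ BoundsBall A B' 0 (1 / 5))
    (BoundsBall A B 1 (1 / 5) ∧ BoundsBall A B' 1 (1 / 5))
    (BoundsBall A B 0 2 ∧ BoundsBall A B' 0 2)
    (fun h => h.1) (fun h => h.1) (fun h => h.1)
  obtain ⟨Y, Y1, hi', hY, hY', hL', l0, l1, l2⟩ := reduce (A := A) hfree B' hNB' he'
    (BoundsBall A B 0 (1 / 5) ∧ BoundsBall A B' 0 (1 / 5))
    (BoundsBall A B 1 (1 / 5) ∧ BoundsBall A B' 1 (1 / 5))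
    (BoundsBall A B 0 2 ∧ BoundsBall A B' 0 2)
    (fun h => h.2) (fun h => h.2) (fun h => h.2)
  -- behaviour near a common sphere
  have hcommon : ∀ {c r : ℝ} (hr : 0 < r) (hS : Shell c r ⊆ NB)
      (hsame : ∀ p ∈ Shell c r, B p = B' p)
      (hex : ∀ q ∈ NShell c r, ∃ p ∈ NShell c r, barMap p = q)
      (hZk : ∀ p ∈ NShell c r, Z (B p) = B (barMap p))
      (hYk : ∀ p ∈ NShell c r, Y (B' p) = B' (barMap p)) {y : M} (hy : y ∈ B '' Core c r),
      A.LB (fun x => Z (Y1 x)) y := by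
    intro c r hr hS hsame hex hZk hYk y hy
    apply (CircleAction.LB.id A y).congr (W := B '' NShell c r)
      (isOpen_image B (isOpen_NShell c r) ((NShell_subset_Shell hr).trans (hS.trans hNB)))
      (image_mono (Core_subset_NShell hr) hy)
    · rintro _ ⟨q, hq, rfl⟩ θ
      exact ⟨rotp θ q, rotp_mem_NShell θ hq, he q (hS (NShell_subset_Shell hr hq)) θ⟩
    · rintro _ ⟨q, hq, rfl⟩
      obtain ⟨p, hp, rfl⟩ := hex q hq
      have hqS := NShell_subset_Shell hr hq
      have hpS := NShell_subset_Shell hr hp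
      have e1 : Y1 (B (barMap p)) = B' p := by
        rw [hsame _ hqS, ← hYk p hp, hY']
      rw [e1, ← hsame p hpS, hZk p hp]
  have himg : ∀ {c r : ℝ} (hr : 0 < r) (hsame : ∀ p ∈ Shell c r, B p = B' p),
      B '' Core c r = B' '' Core c r := by
    intro c r hr hsame
    exact image_congr fun p hp => hsame p (Core_subset_Shell hr hp)
  have hX : ∀ y, A.LB (fun x => Z (Y1 x)) y := by
    intro y
    by_cases c0 : ¬ (BoundsBall A B 0 (1 / 5) ∧ BoundsBall A B' 0 (1 / 5)) ∧
        y ∈ B '' Core 0 (1 / 5)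
    · exact hcommon r5 Shell_zero_subset (h0.resolve_right c0.1)
        (fun q hq => exists_barMap_zero hq) (k0 c0.1) (l0 c0.1) c0.2
    by_cases c1 : ¬ (BoundsBall A B 1 (1 / 5) ∧ BoundsBall A B' 1 (1 / 5)) ∧
        y ∈ B '' Core 1 (1 / 5)
    · exact hcommon r5 Shell_one_subset (h1.resolve_right c1.1)
        (fun q hq => exists_barMap_one hq) (k1 c1.1) (l1 c1.1) c1.2
    by_cases c2 : ¬ (BoundsBall A B 0 2 ∧ BoundsBall A B' 0 2) ∧ y ∈ B '' Core 0 2
    · exact hcommon r2 Shell_two_subset (h2.resolve_right c2.1)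
        (fun q hq => exists_barMap_two hq) (k2 c2.1) (l2 c2.1) c2.2
    refine (hL y (fun h => ?_) (fun h => ?_) (fun h => ?_)).comp
      ((hL' y (fun h => ?_) (fun h => ?_) (fun h => ?_)).inv hY')
    · exact fun h' => c0 ⟨h, h'⟩
    · exact fun h' => c1 ⟨h, h'⟩
    · exact fun h' => c2 ⟨h, h'⟩
    · rw [← himg r5 (h0.resolve_right h)]
      exact fun h' => c0 ⟨h, h'⟩
    · rw [← himg r5 (h1.resolve_right h)]
      exact fun h' => c1 ⟨h, h'⟩
    · rw [← himg r2 (h2.resolve_right h)]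
      exact fun h' => c2 ⟨h, h'⟩
  have e1 : Isot I (fun x => Z (Y1 x)) (fun x => x) := isot_id_of_LB hglob hX
  have e2 : Isot I (fun x => Y x) (fun x => Y x) := hi'.right
  have e3 : Isot I Z Y := by
    have := e1.comp e2
    simpa only [hY'] using this
  exact (isot_push_barbellMap B hNB isBarbellMap_barMap hβ).trans
    ((hi.trans (e3.trans hi'.symm)).trans
      (isot_push_barbellMap B' hNB' isBarbellMap_barMap hβ').symm)

end

end Pool.Agent.Helper65.Barb
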