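import Pool.Agent.Helper65.Barb.Iso

/-!
# The model: twists along 2-spheres in `ℝ⁴ = ℝ × ℝ × ℂ`
-/

set_option autoImplicit false
set_option linter.unusedSimpArgs false

open scoped Manifold ContDiff Topology ComplexConjugate
open Set

namespace Pool.Agent.Helper65.Barb

theorem nsq_rot (α β : ℂ) (x : ℝ × ℂ) :
    nsq (rot α β x) = (Complex.normSq α + Complex.normSq β) ^ 2 * nsq x := by
  simp only [nsq, rot, Complex.normSq_apply, Complex.sub_re, Complex.sub_im, Complex.add_re,
    Complex.add_im, Complex.mul_re, Complex.mul_im, pow_two, Complex.conj_re, Complex.conj_im,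
    Complex.I_re, Complex.I_im, Complex.ofReal_re, Complex.ofReal_im, Complex.re_ofNat,
    Complex.im_ofNat]
  ring

theorem rot_rot_inv (α β : ℂ) (x : ℝ × ℂ) :
    rot (conj α) (-β) (rot α β x) = (Complex.normSq α + Complex.normSq β) ^ 2 • x := by
  refine Prod.ext ?_ (Complex.ext ?_ ?_)
  all_goals
    simp only [rot, Complex.normSq_apply, Complex.sub_re, Complex.sub_im, Complex.add_re,
      Complex.add_im, Complex.mul_re, Complex.mul_im, pow_two, Complex.conj_re, Complex.conj_im,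
      Complex.I_re, Complex.I_im, Complex.ofReal_re, Complex.ofReal_im, Complex.re_ofNat,
      Complex.im_ofNat, Complex.neg_re, Complex.neg_im, Prod.smul_fst, Prod.smul_snd, smul_eq_mul,
      map_neg, Complex.real_smul]
    ring

theorem rot_one (x : ℝ × ℂ) : rot 1 0 x = x := by
  ext <;> simp [rot]

theorem rot_diag {η : ℂ} (hη : Complex.normSq η = 1) (x : ℝ × ℂ) :
    rot η 0 x = (x.1, η ^ 2 * x.2) := by
  ext <;> simp [rot, hη]

theorem step_of_nonpos {s : ℝ} (h : s ≤ 0) : step s = 0 := Real.smoothTransition.zero_of_nonpos h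

theorem step_of_one_le {s : ℝ} (h : 1 ≤ s) : step s = 1 := Real.smoothTransition.one_of_one_le h

theorem eta_of_nonpos {s : ℝ} (h : s ≤ 0) : eta s = 1 := by
  simp [eta, step_of_nonpos h]

theorem eta_of_one_le {s : ℝ} (h : 1 ≤ s) : eta s = 1 := by
  rw [eta, step_of_one_le h]
  push_cast
  rw [mul_one]
  exact Complex.exp_two_pi_mul_I

theorem normSq_eta (s : ℝ) : Complex.normSq (eta s) = 1 := by
  rw [Complex.normSq_eq_norm_sq, eta, Complex.norm_exp_ofReal_mul_I]
  norm_num

theorem qa_zero (s : ℝ) : qa s 0 = 1 := by simp [qa]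

theorem qb_zero (s : ℝ) : qb s 0 = 0 := by simp [qb]

theorem qa_one (s : ℝ) : qa s 1 = eta s := by simp [qa]

theorem qb_one (s : ℝ) : qb s 1 = 0 := by simp [qb]

theorem qa_of_eta {s : ℝ} (h : eta s = 1) (P : ℝ) : qa s P = 1 := by
  rw [qa, h, mul_one]
  norm_cast
  exact Real.cos_sq_add_sin_sq _

theorem qb_of_eta {s : ℝ} (h : eta s = 1) (P : ℝ) : qb s P = 0 := by
  simp [qb, h]

theorem normSq_q (s P : ℝ) : Complex.normSq (qa s P) + Complex.normSq (qb s P) = 1 := by
  have h1 := normSq_eta s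
  have h2 := Real.cos_sq_add_sin_sq (Real.pi / 2 * P)
  rw [Complex.normSq_apply] at h1
  simp only [qa, qb, Complex.normSq_apply, Complex.sub_re, Complex.sub_im, Complex.add_re,
    Complex.add_im, Complex.mul_re, Complex.mul_im, Complex.conj_re, Complex.conj_im,
    Complex.ofReal_re, Complex.ofReal_im, Complex.one_re, Complex.one_im]
  set C := Real.cos (Real.pi / 2 * P)
  set S := Real.sin (Real.pi / 2 * P)
  set x := (eta s).re
  set y := (eta s).im
  linear_combination (S ^ 4 + S ^ 2 * C ^ 2) * h1 + (C ^ 2 + S ^ 2 + 1) * h2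

/-- the inverse rotation -/
noncomputable def spinInv (s P : ℝ) (x : ℝ × ℂ) : ℝ × ℂ := rot (conj (qa s P)) (-qb s P) x

theorem nsq_spin (s P : ℝ) (x : ℝ × ℂ) : nsq (spin s P x) = nsq x := by
  rw [spin, nsq_rot, normSq_q]; ring

theorem nsq_spinInv (s P : ℝ) (x : ℝ × ℂ) : nsq (spinInv s P x) = nsq x := by
  rw [spinInv, nsq_rot, Complex.normSq_conj, Complex.normSq_neg, normSq_q]; ring

theorem spinInv_spin (s P : ℝ) (x : ℝ × ℂ) : spinInv s P (spin s P x) = x := by
  rw [spinInv, spin, rot_rot_inv, normSq_q]; simp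

theorem spin_spinInv (s P : ℝ) (x : ℝ × ℂ) : spin s P (spinInv s P x) = x := by
  have h := rot_rot_inv (conj (qa s P)) (-qb s P) x
  rw [Complex.conj_conj, neg_neg, Complex.normSq_conj, Complex.normSq_neg, normSq_q] at h
  rw [spinInv, spin, h]; simp

theorem spin_zero (s : ℝ) (x : ℝ × ℂ) : spin s 0 x = x := by
  rw [spin, qa_zero, qb_zero, rot_one]

theorem spin_one (s : ℝ) (x : ℝ × ℂ) : spin s 1 x = (x.1, eta s ^ 2 * x.2) := by
  rw [spin, qa_one, qb_one, rot_diag (normSq_eta s)]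

theorem spin_of_eta {s : ℝ} (h : eta s = 1) (P : ℝ) (x : ℝ × ℂ) : spin s P x = x := by
  rw [spin, qa_of_eta h, qb_of_eta h, rot_one]

theorem spinInv_zero (s : ℝ) (x : ℝ × ℂ) : spinInv s 0 x = x := by
  have := spinInv_spin s 0 x
  rwa [spin_zero] at this

theorem spinInv_of_eta {s : ℝ} (h : eta s = 1) (P : ℝ) (x : ℝ × ℂ) : spinInv s P x = x := by
  have := spinInv_spin s P x
  rwa [spin_of_eta h] at this

/-- the cut-off function of the squared radius, equal to `1` for `u ≤ 1` and to `0` for `4 ≤ u` -/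
noncomputable def cut (u : ℝ) : ℝ := Real.smoothTransition ((4 - u) / 3)

theorem cut_of_le {u : ℝ} (h : u ≤ 1) : cut u = 1 :=
  Real.smoothTransition.one_of_one_le (by linarith)

theorem cut_of_ge {u : ℝ} (h : 4 ≤ u) : cut u = 0 :=
  Real.smoothTransition.zero_of_nonpos (by linarith)

theorem contDiff_step : ContDiff ℝ ∞ step := Real.smoothTransition.contDiff

theorem contDiff_cut : ContDiff ℝ ∞ cut := by
  unfold cut
  apply Real.smoothTransition.contDiff.comp
  fun_prop

theorem contDiff_eta : ContDiff ℝ ∞ eta := by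
  unfold eta
  apply Complex.contDiff_exp.comp
  apply ContDiff.mul _ contDiff_const
  apply Complex.ofRealCLM.contDiff.comp
  exact contDiff_const.mul contDiff_step

theorem contDiff_conj : ContDiff ℝ ∞ (fun z : ℂ => conj z) := Complex.conjCLE.contDiff

theorem contDiff_normSq : ContDiff ℝ ∞ (fun z : ℂ => Complex.normSq z) := by
  have : (fun z : ℂ => Complex.normSq z) = fun z => Complex.reCLM z * Complex.reCLM z +
      Complex.imCLM z * Complex.imCLM z := by
    funext z; simp [Complex.normSq_apply]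
  rw [this]
  exact (Complex.reCLM.contDiff.mul Complex.reCLM.contDiff).add
    (Complex.imCLM.contDiff.mul Complex.imCLM.contDiff)

section
variable {F : Type*} [NormedAddCommGroup F] [NormedSpace ℝ F]

theorem contDiff_qa {s P : F → ℝ} (hs : ContDiff ℝ ∞ s) (hP : ContDiff ℝ ∞ P) :
    ContDiff ℝ ∞ (fun x => qa (s x) (P x)) := by
  unfold qa
  apply ContDiff.add
  · apply Complex.ofRealCLM.contDiff.comp
    exact (Real.contDiff_cos.comp (contDiff_const.mul hP)).pow 2
  · apply ContDiff.mul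
    · apply Complex.ofRealCLM.contDiff.comp
      exact (Real.contDiff_sin.comp (contDiff_const.mul hP)).pow 2
    · exact contDiff_eta.comp hs

theorem contDiff_qb {s P : F → ℝ} (hs : ContDiff ℝ ∞ s) (hP : ContDiff ℝ ∞ P) :
    ContDiff ℝ ∞ (fun x => qb (s x) (P x)) := by
  unfold qb
  apply ContDiff.mul
  · apply Complex.ofRealCLM.contDiff.comp
    exact (Real.contDiff_sin.comp (contDiff_const.mul hP)).mul
      (Real.contDiff_cos.comp (contDiff_const.mul hP))
  · exact (contDiff_conj.comp (contDiff_eta.comp hs)).sub contDiff_const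

theorem contDiff_rot {α β : F → ℂ} {x : F → ℝ × ℂ} (hα : ContDiff ℝ ∞ α) (hβ : ContDiff ℝ ∞ β)
    (hx : ContDiff ℝ ∞ x) : ContDiff ℝ ∞ (fun y => rot (α y) (β y) (x y)) := by
  unfold rot
  apply ContDiff.prodMk
  · apply ContDiff.add
    · exact hx.fst.mul ((contDiff_normSq.comp hα).sub (contDiff_normSq.comp hβ))
    · apply ContDiff.mul contDiff_const
      exact Complex.imCLM.contDiff.comp ((hα.mul (contDiff_conj.comp hβ)).mul hx.snd)
  · apply ContDiff.sub
    · exact ((hα.pow 2).mul hx.snd).add ((hβ.pow 2).mul (contDiff_conj.comp hx.snd))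
    · apply ContDiff.mul _ hβ
      apply ContDiff.mul _ hα
      apply ContDiff.mul contDiff_const
      exact Complex.ofRealCLM.contDiff.comp hx.fst

theorem contDiff_nsq {x : F → ℝ × ℂ} (hx : ContDiff ℝ ∞ x) :
    ContDiff ℝ ∞ (fun y => nsq (x y)) := by
  unfold nsq
  exact ((hx.fst.pow 2).add ((Complex.reCLM.contDiff.comp hx.snd).pow 2)).add
    ((Complex.imCLM.contDiff.comp hx.snd).pow 2)

end

/-- The twist along the 2-sphere with centre `(0, c, 0)` in the slice `s = const`: each sphere of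
squared radius `u r²` about `(s, c, 0)` in the slice is rotated by the
quaternion `q(s, step t * cut u)`. -/
noncomputable def twistF (c r : ℝ) (p : ℝ × R4) : R4 :=
  (p.2.1, (spin p.2.1 (step p.1 * cut (nsq (p.2.2.1 - c, p.2.2.2) / r ^ 2))
      (p.2.2.1 - c, p.2.2.2)).1 + c,
    (spin p.2.1 (step p.1 * cut (nsq (p.2.2.1 - c, p.2.2.2) / r ^ 2)) (p.2.2.1 - c, p.2.2.2)).2)

/-- the inverse of the twist -/
noncomputable def twistG (c r : ℝ) (p : ℝ × R4) : R4 :=
  (p.2.1, (spinInv p.2.1 (step p.1 * cut (nsq (p.2.2.1 - c, p.2.2.2) / r ^ 2))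
      (p.2.2.1 - c, p.2.2.2)).1 + c,
    (spinInv p.2.1 (step p.1 * cut (nsq (p.2.2.1 - c, p.2.2.2) / r ^ 2)) (p.2.2.1 - c, p.2.2.2)).2)

theorem contDiff_twistF (c r : ℝ) : ContDiff ℝ ∞ (twistF c r) := by
  have h1 : ContDiff ℝ ∞ (fun p : ℝ × R4 => ((p.2.2.1 - c, p.2.2.2) : ℝ × ℂ)) :=
    (contDiff_snd.snd.fst.sub contDiff_const).prodMk contDiff_snd.snd.snd
  have h2 : ContDiff ℝ ∞ (fun p : ℝ × R4 =>
      step p.1 * cut (nsq (p.2.2.1 - c, p.2.2.2) / r ^ 2)) :=
    (contDiff_step.comp contDiff_fst).mul (contDiff_cut.comp ((contDiff_nsq h1).div_const _))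
  have h3 : ContDiff ℝ ∞ (fun p : ℝ × R4 => p.2.1) := contDiff_snd.fst
  have h4 := contDiff_rot (contDiff_qa h3 h2) (contDiff_qb h3 h2) h1
  exact h3.prodMk ((h4.fst.add contDiff_const).prodMk h4.snd)

theorem contDiff_twistG (c r : ℝ) : ContDiff ℝ ∞ (twistG c r) := by
  have h1 : ContDiff ℝ ∞ (fun p : ℝ × R4 => ((p.2.2.1 - c, p.2.2.2) : ℝ × ℂ)) :=
    (contDiff_snd.snd.fst.sub contDiff_const).prodMk contDiff_snd.snd.snd
  have h2 : ContDiff ℝ ∞ (fun p : ℝ × R4 =>
      step p.1 * cut (nsq (p.2.2.1 - c, p.2.2.2) / r ^ 2)) :=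
    (contDiff_step.comp contDiff_fst).mul (contDiff_cut.comp ((contDiff_nsq h1).div_const _))
  have h3 : ContDiff ℝ ∞ (fun p : ℝ × R4 => p.2.1) := contDiff_snd.fst
  have h4 := contDiff_rot (contDiff_conj.comp (contDiff_qa h3 h2)) (contDiff_qb h3 h2).neg h1
  exact h3.prodMk ((h4.fst.add contDiff_const).prodMk h4.snd)

theorem contMDiff_of_contDiff {f : ℝ × R4 → R4} (hf : ContDiff ℝ ∞ f) :
    ContMDiff (𝓘(ℝ, ℝ).prod 𝓘(ℝ, R4)) 𝓘(ℝ, R4) ∞ f := by
  have := hf.contMDiff
  rwa [modelWithCornersSelf_prod, ← chartedSpaceSelf_prod] at this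

/-- the twist as a family of diffeomorphisms -/
noncomputable def twist (c r : ℝ) : DFam 𝓘(ℝ, R4) R4 where
  f := twistF c r
  g := twistG c r
  smooth_f := contMDiff_of_contDiff (contDiff_twistF c r)
  smooth_g := contMDiff_of_contDiff (contDiff_twistG c r)
  fg t x := by
    simp only [twistF, twistG, add_sub_cancel_right, Prod.mk.eta, nsq_spinInv, spin_spinInv]
    simp
  gf t x := by
    simp only [twistF, twistG, add_sub_cancel_right, Prod.mk.eta, nsq_spin, spinInv_spin]
    simp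

end Pool.Agent.Helper65.Barb
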