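import Pool.Agent.Helper65.Barb.Scale

/-!
# The twist composed with its reversed version is isotopic to the identity
-/

set_option autoImplicit false
set_option linter.unusedSectionVars false
set_option linter.unusedVariables false

open scoped Manifold ContDiff Topology ComplexConjugate
open Set

namespace Pool.Agent.Helper65.Barb

theorem QA_of {s P : ℝ} (ha : Complex.normSq (qa s P) = 1) (hb : qb s P = 0) : QA s P = 1 := by
  rw [QA, ha, hb]; simp

theorem QB_of {s P : ℝ} (hb : qb s P = 0) : QB s P = 0 := by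
  rw [QB, hb]; simp

theorem QAB_off {p : R4} (hp : p ∉ Core 0 1) :
    QA p.1 (cut (rsq 0 p)) = 1 ∧ QB p.1 (cut (rsq 0 p)) = 0 := by
  by_cases h1 : 0 ≤ p.1
  · by_cases h2 : p.1 ≤ 1
    · by_cases h3 : rsq 0 p ≤ 4
      · have h4 : rsq 0 p ≤ 1 := by
          by_contra h4
          refine hp ⟨h1, h2, h3.trans (by norm_num), ?_⟩
          rw [one_pow]; exact (not_le.1 h4).le
        rw [cut_of_le h4]
        exact ⟨QA_of (by rw [qa_one]; exact normSq_eta _) (qb_one _), QB_of (qb_one _)⟩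
      · rw [cut_of_ge (not_le.1 h3).le]
        exact ⟨QA_of (by rw [qa_zero]; simp) (qb_zero _), QB_of (qb_zero _)⟩
    · have h := eta_of_one_le (not_le.1 h2).le
      exact ⟨QA_of (by rw [qa_of_eta h]; simp) (qb_of_eta h _), QB_of (qb_of_eta h _)⟩
  · have h := eta_of_nonpos (not_le.1 h1).le
    exact ⟨QA_of (by rw [qa_of_eta h]; simp) (qb_of_eta h _), QB_of (qb_of_eta h _)⟩

theorem normSq_QAB (s P : ℝ) : Complex.normSq (QA s P) + Complex.normSq (QB s P) = 1 := by
  have h := normSq_q s P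
  have h2 : Complex.normSq (QA s P) + Complex.normSq (QB s P) =
      (Complex.normSq (qa s P) + Complex.normSq (qb s P)) ^ 2 := by
    simp only [QA, QB, Complex.normSq_apply, Complex.sub_re, Complex.sub_im, Complex.add_re,
      Complex.add_im, Complex.mul_re, Complex.mul_im, pow_two, Complex.conj_re, Complex.conj_im,
      Complex.ofReal_re, Complex.ofReal_im]
    ring
  rw [h2, h, one_pow]

theorem QA_re_ge (s P : ℝ) : -(1 / 4) ≤ (QA s P).re := by
  have h1 : (QA s P).re = Complex.normSq (qa s P) + (qb s P).re ^ 2 - (qb s P).im ^ 2 := by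
    simp only [QA, Complex.normSq_apply, Complex.add_re, Complex.mul_re, pow_two,
      Complex.ofReal_re]
    ring
  have h2 : (qb s P).im = -(Real.sin (Real.pi / 2 * P) * Real.cos (Real.pi / 2 * P)) *
      (eta s).im := by
    rw [qb, Complex.im_ofReal_mul, Complex.sub_im, Complex.conj_im, Complex.one_im]
    ring
  have h3 := Real.sin_sq_add_cos_sq (Real.pi / 2 * P)
  have h4 := normSq_eta s
  rw [Complex.normSq_apply] at h4
  set S := Real.sin (Real.pi / 2 * P)
  set C := Real.cos (Real.pi / 2 * P)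
  have h5 : (qb s P).im ^ 2 ≤ 1 / 4 := by
    rw [h2]
    have h6 : (eta s).im ^ 2 ≤ 1 := by nlinarith [mul_self_nonneg (eta s).re]
    have h7 : (S * C) ^ 2 ≤ 1 / 4 := by nlinarith [sq_nonneg (S ^ 2 - C ^ 2)]
    calc (-(S * C) * (eta s).im) ^ 2 = (S * C) ^ 2 * (eta s).im ^ 2 := by ring
      _ ≤ 1 / 4 * 1 := mul_le_mul h7 h6 (sq_nonneg _) (by norm_num)
      _ = 1 / 4 := by norm_num
  have h8 := Complex.normSq_nonneg (qa s P)
  rw [h1]
  nlinarith [sq_nonneg (qb s P).re]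

/-- the first coefficient of the contraction -/
noncomputable def nA (t s P : ℝ) : ℂ := ((1 - step t : ℝ) : ℂ) + (step t : ℂ) * QA s P

/-- the second coefficient of the contraction -/
noncomputable def nB (t s P : ℝ) : ℂ := (step t : ℂ) * QB s P

/-- the squared norm of the contraction -/
noncomputable def nu (t s P : ℝ) : ℝ := Complex.normSq (nA t s P) + Complex.normSq (nB t s P)

theorem nu_pos (t s P : ℝ) : 0 < nu t s P := by
  have h1 := normSq_QAB s P
  have h2 := QA_re_ge s P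
  have h3 := step_mem t
  set τ := step t with hτ
  have h4 : nu t s P = (1 - τ) ^ 2 + 2 * τ * (1 - τ) * (QA s P).re +
      τ ^ 2 * (Complex.normSq (QA s P) + Complex.normSq (QB s P)) := by
    simp only [nu, nA, nB, ← hτ, Complex.normSq_apply, Complex.add_re, Complex.add_im,
      Complex.mul_re, Complex.mul_im, Complex.ofReal_re, Complex.ofReal_im]
    ring
  rw [h4, h1]
  have h5 : 0 ≤ 2 * τ * (1 - τ) := mul_nonneg (by linarith [h3.1]) (by linarith [h3.2])
  nlinarith [mul_le_mul_of_nonneg_left h2 h5, sq_nonneg (τ - 1 / 2)]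

/-- normalized coefficients -/
noncomputable def uA (t s P : ℝ) : ℂ := (((√(nu t s P))⁻¹ : ℝ) : ℂ) * nA t s P

/-- normalized coefficients -/
noncomputable def uB (t s P : ℝ) : ℂ := (((√(nu t s P))⁻¹ : ℝ) : ℂ) * nB t s P

theorem normSq_u (t s P : ℝ) : Complex.normSq (uA t s P) + Complex.normSq (uB t s P) = 1 := by
  have h := nu_pos t s P
  rw [uA, uB, Complex.normSq_mul, Complex.normSq_mul, ← mul_add, Complex.normSq_ofReal]
  change _ * nu t s P = 1
  rw [← mul_inv, Real.mul_self_sqrt h.le, inv_mul_cancel₀ h.ne']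

theorem u_of {t s P : ℝ} (h1 : nA t s P = 1) (h2 : nB t s P = 0) :
    uA t s P = 1 ∧ uB t s P = 0 := by
  have : nu t s P = 1 := by rw [nu, h1, h2]; simp
  rw [uA, uB, this, h1, h2]
  simp

section
variable {F : Type*} [NormedAddCommGroup F] [NormedSpace ℝ F]

theorem contDiff_QA {s P : F → ℝ} (hs : ContDiff ℝ ∞ s) (hP : ContDiff ℝ ∞ P) :
    ContDiff ℝ ∞ (fun x => QA (s x) (P x)) := by
  unfold QA
  apply ContDiff.add
  · exact Complex.ofRealCLM.contDiff.comp (contDiff_normSq.comp (contDiff_qa hs hP))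
  · exact (contDiff_qb hs hP).pow 2

theorem contDiff_QB {s P : F → ℝ} (hs : ContDiff ℝ ∞ s) (hP : ContDiff ℝ ∞ P) :
    ContDiff ℝ ∞ (fun x => QB (s x) (P x)) := by
  unfold QB
  exact (contDiff_qa hs hP).mul ((contDiff_qb hs hP).sub (contDiff_conj.comp (contDiff_qb hs hP)))

theorem contDiff_nA {t s P : F → ℝ} (ht : ContDiff ℝ ∞ t) (hs : ContDiff ℝ ∞ s)
    (hP : ContDiff ℝ ∞ P) : ContDiff ℝ ∞ (fun x => nA (t x) (s x) (P x)) := by
  unfold nA
  apply ContDiff.add
  · exact Complex.ofRealCLM.contDiff.comp (contDiff_const.sub (contDiff_step.comp ht))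
  · exact (Complex.ofRealCLM.contDiff.comp (contDiff_step.comp ht)).mul (contDiff_QA hs hP)

theorem contDiff_nB {t s P : F → ℝ} (ht : ContDiff ℝ ∞ t) (hs : ContDiff ℝ ∞ s)
    (hP : ContDiff ℝ ∞ P) : ContDiff ℝ ∞ (fun x => nB (t x) (s x) (P x)) := by
  unfold nB
  exact (Complex.ofRealCLM.contDiff.comp (contDiff_step.comp ht)).mul (contDiff_QB hs hP)

theorem contDiff_nu {t s P : F → ℝ} (ht : ContDiff ℝ ∞ t) (hs : ContDiff ℝ ∞ s)
    (hP : ContDiff ℝ ∞ P) : ContDiff ℝ ∞ (fun x => nu (t x) (s x) (P x)) :=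
  (contDiff_normSq.comp (contDiff_nA ht hs hP)).add (contDiff_normSq.comp (contDiff_nB ht hs hP))

theorem contDiff_nuinv {t s P : F → ℝ} (ht : ContDiff ℝ ∞ t) (hs : ContDiff ℝ ∞ s)
    (hP : ContDiff ℝ ∞ P) : ContDiff ℝ ∞ (fun x => (√(nu (t x) (s x) (P x)))⁻¹) := by
  have h1 : ContDiff ℝ ∞ (fun x => √(nu (t x) (s x) (P x))) :=
    (contDiff_nu ht hs hP).sqrt (fun x => (nu_pos _ _ _).ne')
  exact h1.inv (fun x => (Real.sqrt_pos.2 (nu_pos _ _ _)).ne')

theorem contDiff_uA {t s P : F → ℝ} (ht : ContDiff ℝ ∞ t) (hs : ContDiff ℝ ∞ s)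
    (hP : ContDiff ℝ ∞ P) : ContDiff ℝ ∞ (fun x => uA (t x) (s x) (P x)) := by
  unfold uA
  exact (Complex.ofRealCLM.contDiff.comp (contDiff_nuinv ht hs hP)).mul (contDiff_nA ht hs hP)

theorem contDiff_uB {t s P : F → ℝ} (ht : ContDiff ℝ ∞ t) (hs : ContDiff ℝ ∞ s)
    (hP : ContDiff ℝ ∞ P) : ContDiff ℝ ∞ (fun x => uB (t x) (s x) (P x)) := by
  unfold uB
  exact (Complex.ofRealCLM.contDiff.comp (contDiff_nuinv ht hs hP)).mul (contDiff_nB ht hs hP)

end

/-- the contraction in the unit model -/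
noncomputable def wF (t : ℝ) (p : R4) : R4 :=
  (p.1, rot (uA t p.1 (cut (rsq 0 p))) (uB t p.1 (cut (rsq 0 p))) (p.2.1, p.2.2))

/-- its inverse -/
noncomputable def wG (t : ℝ) (p : R4) : R4 :=
  (p.1, rot (conj (uA t p.1 (cut (rsq 0 p)))) (-uB t p.1 (cut (rsq 0 p))) (p.2.1, p.2.2))

theorem rsq_wF (t : ℝ) (p : R4) : rsq 0 (wF t p) = rsq 0 p := by
  have : rsq 0 (wF t p) = nsq (rot (uA t p.1 (cut (rsq 0 p))) (uB t p.1 (cut (rsq 0 p)))
      (p.2.1, p.2.2)) := by simp [rsq, wF]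
  rw [this, nsq_rot, normSq_u]
  simp [rsq]

theorem rsq_wG (t : ℝ) (p : R4) : rsq 0 (wG t p) = rsq 0 p := by
  have : rsq 0 (wG t p) = nsq (rot (conj (uA t p.1 (cut (rsq 0 p))))
      (-uB t p.1 (cut (rsq 0 p))) (p.2.1, p.2.2)) := by simp [rsq, wG]
  rw [this, nsq_rot, Complex.normSq_conj, Complex.normSq_neg, normSq_u]
  simp [rsq]

theorem wG_wF (t : ℝ) (p : R4) : wG t (wF t p) = p := by
  have h := rsq_wF t p
  rw [wG, h]
  simp only [wF, Prod.mk.eta]
  rw [rot_rot_inv, normSq_u]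
  simp

theorem wF_wG (t : ℝ) (p : R4) : wF t (wG t p) = p := by
  have h := rsq_wG t p
  rw [wF, h]
  simp only [wG, Prod.mk.eta]
  have h2 := rot_rot_inv (conj (uA t p.1 (cut (rsq 0 p)))) (-uB t p.1 (cut (rsq 0 p))) p.2
  rw [Complex.conj_conj, neg_neg, Complex.normSq_conj, Complex.normSq_neg, normSq_u] at h2
  rw [h2]
  simp

theorem wF_off (t : ℝ) {p : R4} (hp : p ∉ Core 0 1) : wF t p = p := by
  obtain ⟨h1, h2⟩ := QAB_off hp
  have h3 : nA t p.1 (cut (rsq 0 p)) = 1 := by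
    rw [nA, h1]; push_cast; ring
  have h4 : nB t p.1 (cut (rsq 0 p)) = 0 := by
    rw [nB, h2, mul_zero]
  obtain ⟨h5, h6⟩ := u_of h3 h4
  rw [wF, h5, h6, rot_one]

theorem wF_zero (p : R4) : wF 0 p = p := by
  have hst : step 0 = 0 := step_of_nonpos le_rfl
  obtain ⟨h5, h6⟩ := u_of (t := 0) (s := p.1) (P := cut (rsq 0 p)) (by rw [nA, hst]; simp)
    (by rw [nB, hst]; simp)
  rw [wF, h5, h6, rot_one]

theorem wF_one (p : R4) :
    wF 1 p = (twist 0 1).f (1, flip ((twist 0 1).f (1, flip p))) := by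
  rw [twist_flip_twist, wF]
  have hst : step 1 = 1 := step_of_one_le le_rfl
  have h3 : nA 1 p.1 (cut (rsq 0 p)) = QA p.1 (cut (rsq 0 p)) := by rw [nA, hst]; simp
  have h4 : nB 1 p.1 (cut (rsq 0 p)) = QB p.1 (cut (rsq 0 p)) := by rw [nB, hst]; simp
  have h5 : nu 1 p.1 (cut (rsq 0 p)) = 1 := by rw [nu, h3, h4, normSq_QAB]
  rw [uA, uB, h5, h3, h4]
  simp

theorem contDiff_wF : ContDiff ℝ ∞ (fun z : ℝ × R4 => wF z.1 z.2) := by
  have hs : ContDiff ℝ ∞ (fun z : ℝ × R4 => z.2.1) := contDiff_snd.fst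
  have hP : ContDiff ℝ ∞ (fun z : ℝ × R4 => cut (rsq 0 z.2)) :=
    contDiff_cut.comp ((contDiff_rsq 0).comp contDiff_snd)
  exact hs.prodMk (contDiff_rot (contDiff_uA contDiff_fst hs hP) (contDiff_uB contDiff_fst hs hP)
    (contDiff_snd.snd.fst.prodMk contDiff_snd.snd.snd))

theorem contDiff_wG : ContDiff ℝ ∞ (fun z : ℝ × R4 => wG z.1 z.2) := by
  have hs : ContDiff ℝ ∞ (fun z : ℝ × R4 => z.2.1) := contDiff_snd.fst
  have hP : ContDiff ℝ ∞ (fun z : ℝ × R4 => cut (rsq 0 z.2)) :=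
    contDiff_cut.comp ((contDiff_rsq 0).comp contDiff_snd)
  exact hs.prodMk (contDiff_rot (contDiff_conj.comp (contDiff_uA contDiff_fst hs hP))
    (contDiff_uB contDiff_fst hs hP).neg
    (contDiff_snd.snd.fst.prodMk contDiff_snd.snd.snd))

/-- the contraction as a family of diffeomorphisms, for the sphere of centre `c` and radius `r` -/
noncomputable def wFam (c : ℝ) {r : ℝ} (hr : 0 < r) : DFam 𝓘(ℝ, R4) R4 where
  f z := scl c r (wF z.1 (sclInv c r z.2))
  g z := scl c r (wG z.1 (sclInv c r z.2))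
  smooth_f := contMDiff_of_contDiff ((contDiff_scl c r).comp
    (contDiff_wF.comp (contDiff_fst.prodMk ((contDiff_sclInv c r).comp contDiff_snd))))
  smooth_g := contMDiff_of_contDiff ((contDiff_scl c r).comp
    (contDiff_wG.comp (contDiff_fst.prodMk ((contDiff_sclInv c r).comp contDiff_snd))))
  fg t x := by simp only [sclInv_scl hr, wF_wG, scl_sclInv hr]
  gf t x := by simp only [sclInv_scl hr, wG_wF, scl_sclInv hr]

theorem wFam_off {c r : ℝ} (hr : 0 < r) (t : ℝ) (p : R4) (hp : p ∉ Core c r) :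
    (wFam c hr).f (t, p) = p := by
  have h : sclInv c r p ∉ Core 0 1 := by
    rw [Core_eq, ← scl_mem_ShC (c := c) hr, scl_sclInv hr, ← Core_eq]
    exact hp
  change scl c r (wF t (sclInv c r p)) = p
  rw [wF_off t h, scl_sclInv hr]

end Pool.Agent.Helper65.Barb
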