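import Pool.Agent.Helper65.Barb.Fdiff

/-!
# Scaling and reversal of the model thickened sphere
-/

set_option autoImplicit false
set_option linter.unusedSectionVars false
set_option linter.unusedVariables false

open scoped Manifold ContDiff Topology ComplexConjugate
open Set

namespace Pool.Agent.Helper65.Barb

/-- the inverse similarity -/
noncomputable def sclInv (c r : ℝ) (p : R4) : R4 :=
  (p.1, r⁻¹ * (p.2.1 - c), ((r⁻¹ : ℝ) : ℂ) * p.2.2)

theorem scl_sclInv {c r : ℝ} (hr : 0 < r) (p : R4) : scl c r (sclInv c r p) = p := by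
  refine Prod.ext rfl (Prod.ext ?_ ?_)
  · simp only [scl, sclInv]; field_simp; ring
  · simp only [scl, sclInv]
    have : (r : ℂ) ≠ 0 := Complex.ofReal_ne_zero.2 hr.ne'
    push_cast
    field_simp

theorem sclInv_scl {c r : ℝ} (hr : 0 < r) (p : R4) : sclInv c r (scl c r p) = p := by
  refine Prod.ext rfl (Prod.ext ?_ ?_)
  · simp only [scl, sclInv]; field_simp; ring
  · simp only [scl, sclInv]
    have : (r : ℂ) ≠ 0 := Complex.ofReal_ne_zero.2 hr.ne'
    push_cast
    field_simp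

theorem flip_flip (p : R4) : flip (flip p) = p := by
  refine Prod.ext ?_ (Prod.ext ?_ rfl)
  · simp [flip]
  · simp [flip]

theorem nsq_smul (r : ℝ) (x : ℝ × ℂ) : nsq (r * x.1, (r : ℂ) * x.2) = r ^ 2 * nsq x := by
  simp only [nsq, Complex.re_ofReal_mul, Complex.im_ofReal_mul]
  ring

theorem rsq_scl (c r : ℝ) (p : R4) : rsq c (scl c r p) = r ^ 2 * rsq 0 p := by
  have := nsq_smul r (p.2.1, p.2.2)
  simp only [rsq, scl, add_sub_cancel_left, sub_zero]
  exact this

theorem rsq_sclInv {c r : ℝ} (hr : 0 < r) (p : R4) : r ^ 2 * rsq 0 (sclInv c r p) = rsq c p := by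
  have := rsq_scl c r (sclInv c r p)
  rw [scl_sclInv hr] at this
  exact this.symm

theorem rsq_flip (p : R4) : rsq 0 (flip p) = rsq 0 p := by
  simp [rsq, nsq, flip]

theorem scl_rotp (c r θ : ℝ) (p : R4) : scl c r (rotp θ p) = rotp θ (scl c r p) := by
  refine Prod.ext rfl (Prod.ext rfl ?_)
  simp only [scl, rotp]; ring

theorem sclInv_rotp (c r θ : ℝ) (p : R4) : sclInv c r (rotp θ p) = rotp θ (sclInv c r p) := by
  refine Prod.ext rfl (Prod.ext rfl ?_)
  simp only [sclInv, rotp]; ring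

theorem flip_rotp (θ : ℝ) (p : R4) : flip (rotp θ p) = rotp θ (flip p) := rfl

theorem rot_smul (α β : ℂ) (r : ℝ) (x : ℝ × ℂ) :
    rot α β (r * x.1, (r : ℂ) * x.2) = (r * (rot α β x).1, (r : ℂ) * (rot α β x).2) := by
  refine Prod.ext ?_ ?_
  · simp only [rot]
    have : (α * conj β * ((r : ℂ) * x.2)) = (r : ℂ) * (α * conj β * x.2) := by ring
    rw [this, Complex.im_ofReal_mul]
    ring
  · simp only [rot, map_mul, Complex.conj_ofReal, Complex.ofReal_mul]
    ring

theorem twist_scl {c r : ℝ} (hr : 0 < r) (t : ℝ) (p : R4) :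
    (twist c r).f (t, scl c r p) = scl c r ((twist 0 1).f (t, p)) := by
  have h1 : nsq (r * p.2.1, (r : ℂ) * p.2.2) / r ^ 2 = nsq (p.2.1, p.2.2) / 1 ^ 2 := by
    have := nsq_smul r (p.2.1, p.2.2)
    simp only at this
    rw [this]
    field_simp
  have h2 := fun α β => rot_smul α β r (p.2.1, p.2.2)
  simp only [twist, twistF, scl, add_sub_cancel_left, sub_zero, add_zero, spin, h1, h2]
  rw [add_comm]

theorem twist_scl_inv {c r : ℝ} (hr : 0 < r) (t : ℝ) (p : R4) :
    (twist c r).g (t, scl c r p) = scl c r ((twist 0 1).g (t, p)) := by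
  have h := twist_scl (c := c) hr t ((twist 0 1).g (t, p))
  rw [(twist 0 1).fg] at h
  rw [← h, (twist c r).gf]

theorem scl_mem_ShC {a c r : ℝ} (hr : 0 < r) {p : R4} : scl c r p ∈ ShC a c r ↔ p ∈ ShC a 0 1 := by
  have hr2 : 0 < r ^ 2 := by positivity
  simp only [ShC, mem_ofPred_eq, rsq_scl, mul_one, mul_pow _ r]
  have e1 : r ^ 2 * rsq 0 p ≤ (2 + a / 4) ^ 2 * r ^ 2 ↔ rsq 0 p ≤ (2 + a / 4) ^ 2 := by
    rw [mul_comm, mul_le_mul_iff_left₀ hr2]
  have e2 : (1 - a / 4) ^ 2 * r ^ 2 ≤ r ^ 2 * rsq 0 p ↔ (1 - a / 4) ^ 2 ≤ rsq 0 p := by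
    rw [mul_comm (r ^ 2), mul_le_mul_iff_left₀ hr2]
  rw [e1, e2]
  rfl

theorem scl_mem_Sh {a c r : ℝ} (hr : 0 < r) {p : R4} : scl c r p ∈ Sh a c r ↔ p ∈ Sh a 0 1 := by
  have hr2 : 0 < r ^ 2 := by positivity
  simp only [Sh, mem_ofPred_eq, rsq_scl, mul_one, mul_pow _ r]
  have e1 : r ^ 2 * rsq 0 p < (2 + a / 4) ^ 2 * r ^ 2 ↔ rsq 0 p < (2 + a / 4) ^ 2 := by
    rw [mul_comm, mul_lt_mul_iff_left₀ hr2]
  have e2 : (1 - a / 4) ^ 2 * r ^ 2 < r ^ 2 * rsq 0 p ↔ (1 - a / 4) ^ 2 < rsq 0 p := by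
    rw [mul_comm (r ^ 2), mul_lt_mul_iff_left₀ hr2]
  rw [e1, e2]
  rfl

theorem flip_mem_Sh {a : ℝ} {p : R4} (hp : p ∈ Sh a 0 1) : flip p ∈ Sh a 0 1 := by
  obtain ⟨h1, h2, h3, h4⟩ := hp
  refine ⟨?_, ?_, ?_, ?_⟩
  · change -a < 1 - p.1; linarith
  · change 1 - p.1 < 1 + a; linarith
  · rwa [rsq_flip]
  · rwa [rsq_flip]

theorem flip_mem_ShC {a : ℝ} {p : R4} (hp : p ∈ ShC a 0 1) : flip p ∈ ShC a 0 1 := by
  obtain ⟨h1, h2, h3, h4⟩ := hp
  refine ⟨?_, ?_, ?_, ?_⟩
  · change -a ≤ 1 - p.1; linarith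
  · change 1 - p.1 ≤ 1 + a; linarith
  · rwa [rsq_flip]
  · rwa [rsq_flip]

theorem contDiff_scl (c r : ℝ) : ContDiff ℝ ∞ (scl c r) :=
  contDiff_fst.prodMk ((contDiff_const.add (contDiff_const.mul contDiff_snd.fst)).prodMk
    (contDiff_const.mul contDiff_snd.snd))

theorem contDiff_sclInv (c r : ℝ) : ContDiff ℝ ∞ (sclInv c r) :=
  contDiff_fst.prodMk ((contDiff_const.mul (contDiff_snd.fst.sub contDiff_const)).prodMk
    (contDiff_const.mul contDiff_snd.snd))

/-! ### composition of rotations -/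

theorem rot_mul (α β α' β' : ℂ) (x : ℝ × ℂ) :
    rot α β (rot α' β' x) = rot (α * α' - β * conj β') (α * β' + β * conj α') x := by
  refine Prod.ext ?_ (Complex.ext ?_ ?_)
  all_goals
    simp only [rot, Complex.normSq_apply, Complex.sub_re, Complex.sub_im, Complex.add_re,
      Complex.add_im, Complex.mul_re, Complex.mul_im, pow_two, Complex.conj_re, Complex.conj_im,
      Complex.I_re, Complex.I_im, Complex.ofReal_re, Complex.ofReal_im, Complex.re_ofNat,
      Complex.im_ofNat]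
    ring

theorem rot_flip (α β : ℂ) (x : ℝ × ℂ) :
    (-(rot α β (-x.1, x.2)).1, (rot α β (-x.1, x.2)).2) = rot α (-β) x := by
  refine Prod.ext ?_ (Complex.ext ?_ ?_)
  all_goals
    simp only [rot, Complex.normSq_apply, Complex.sub_re, Complex.sub_im, Complex.add_re,
      Complex.add_im, Complex.mul_re, Complex.mul_im, pow_two, Complex.conj_re, Complex.conj_im,
      Complex.I_re, Complex.I_im, Complex.ofReal_re, Complex.ofReal_im, Complex.re_ofNat,
      Complex.im_ofNat, Complex.neg_re, Complex.neg_im, Complex.ofReal_neg]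
    ring

theorem step_symm (s : ℝ) : step (1 - s) = 1 - step s := by
  unfold step Real.smoothTransition
  have h := Real.smoothTransition.pos_denom s
  simp only [sub_sub_cancel]
  have h2 : expNegInvGlue (1 - s) + expNegInvGlue s ≠ 0 := by
    rw [add_comm]; exact h.ne'
  rw [eq_sub_iff_add_eq, add_comm (expNegInvGlue s)]
  rw [← add_div, div_self h2]

theorem eta_symm (s : ℝ) : eta (1 - s) = conj (eta s) := by
  have h1 : eta (1 - s) * eta s = 1 := by
    rw [eta, eta, ← Complex.exp_add, step_symm, ← add_mul, ← Complex.ofReal_add]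
    have : 2 * Real.pi * (1 - step s) + 2 * Real.pi * step s = 2 * Real.pi := by ring
    rw [this]
    push_cast
    exact Complex.exp_two_pi_mul_I
  have h2 : conj (eta s) * eta s = 1 := by
    rw [mul_comm, Complex.mul_conj, normSq_eta]; simp
  have h3 : eta s ≠ 0 := right_ne_zero_of_mul_eq_one h2
  exact mul_right_cancel₀ h3 (h1.trans h2.symm)

theorem qa_symm (s P : ℝ) : qa (1 - s) P = conj (qa s P) := by
  simp only [qa, eta_symm, map_add, map_mul, Complex.conj_ofReal]

theorem qb_symm (s P : ℝ) : qb (1 - s) P = conj (qb s P) := by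
  simp only [qb, eta_symm, map_sub, map_mul, Complex.conj_ofReal, map_one, Complex.conj_conj]

/-- the quaternion coefficients of the twist composed with its reversed version -/
noncomputable def QA (s P : ℝ) : ℂ := (Complex.normSq (qa s P) : ℂ) + qb s P ^ 2

/-- the quaternion coefficients of the twist composed with its reversed version -/
noncomputable def QB (s P : ℝ) : ℂ := qa s P * (qb s P - conj (qb s P))

theorem twist_flip_twist (p : R4) :
    (twist 0 1).f (1, flip ((twist 0 1).f (1, flip p))) =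
      (p.1, rot (QA p.1 (cut (rsq 0 p))) (QB p.1 (cut (rsq 0 p))) (p.2.1, p.2.2)) := by
  set P := cut (rsq 0 p) with hP
  have hst : step 1 = 1 := step_of_one_le le_rfl
  have hn : nsq (-p.2.1, p.2.2) = nsq (p.2.1, p.2.2) := by simp [nsq]
  have hr0 : rsq 0 p = nsq (p.2.1, p.2.2) := by simp [rsq]
  have h1 : flip ((twist 0 1).f (1, flip p)) =
      (p.1, rot (conj (qa p.1 P)) (-conj (qb p.1 P)) (p.2.1, p.2.2)) := by
    simp only [twist, twistF, flip, sub_zero, add_zero, hst, one_mul, one_pow, div_one, hn, spin,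
      qa_symm, qb_symm, Prod.mk.eta, sub_sub_cancel]
    rw [← hr0, ← hP]
    have := rot_flip (conj (qa p.1 P)) (conj (qb p.1 P)) (p.2.1, p.2.2)
    simp only at this
    rw [← this]
  rw [h1]
  have h2 : nsq (rot (conj (qa p.1 P)) (-conj (qb p.1 P)) (p.2.1, p.2.2)) =
      nsq (p.2.1, p.2.2) := by
    rw [nsq_rot, Complex.normSq_conj, Complex.normSq_neg, Complex.normSq_conj, normSq_q]
    ring
  simp only [twist, twistF, sub_zero, add_zero, hst, one_mul, one_pow, div_one, Prod.mk.eta,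
    spin]
  rw [h2, ← hr0, ← hP, rot_mul]
  congr 2
  · rw [QA, map_neg, Complex.conj_conj, ← Complex.mul_conj]; ring
  · rw [QB, Complex.conj_conj]; ring

end Pool.Agent.Helper65.Barb
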