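import Pool.Agent.Helper65.Barb.Rev

/-!
# Calculus of twists along equivariant thickened spheres
-/

set_option autoImplicit false
set_option linter.unusedSectionVars false
set_option linter.unusedVariables false

open scoped Manifold ContDiff Topology ComplexConjugate
open Set

namespace Pool.Agent.Helper65.Barb

section
variable {E : Type*} [NormedAddCommGroup E] [NormedSpace ℝ E] {H : Type*} [TopologicalSpace H]
  {I : ModelWithCorners ℝ E H} {M : Type*} [TopologicalSpace M] [ChartedSpace H M] [T2Space M]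

/-- an equivariant thickened sphere -/
structure IsSphere (A : CircleAction I M) (δ : PartialDiffeomorph 𝓘(ℝ, R4) I R4 M ∞)
    (c r : ℝ) : Prop where
  pos : 0 < r
  sub : Shell c r ⊆ δ.source
  equiv : ∀ p ∈ Shell c r, ∀ θ, δ (rotp θ p) = A.act θ (δ p)

/-- an equivariant diffeomorphism isotopic to the identity, with its inverse -/
structure IsMove (A : CircleAction I M) (Φ Φ' : M → M) : Prop where
  isot : Isot I Φ (fun y => y)
  right : ∀ y, Φ (Φ' y) = y
  left : ∀ y, Φ' (Φ y) = y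
  equiv : ∀ θ y, Φ (A.act θ y) = A.act θ (Φ y)

variable {A : CircleAction I M}

theorem IsMove.equiv' {Φ Φ' : M → M} (h : IsMove A Φ Φ') (θ : ℝ) (y : M) :
    Φ' (A.act θ y) = A.act θ (Φ' y) := by
  have h1 := h.equiv θ (Φ' y)
  rw [h.right] at h1
  rw [← h1, h.left]

theorem IsMove.isot' {Φ Φ' : M → M} (h : IsMove A Φ Φ') : Isot I Φ' (fun y => y) :=
  h.isot.inv h.right (fun _ => rfl)

theorem IsMove.symm {Φ Φ' : M → M} (h : IsMove A Φ Φ') : IsMove A Φ' Φ :=
  ⟨h.isot', h.left, h.right, h.equiv'⟩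

theorem IsMove.id (A : CircleAction I M) : IsMove A (fun y => y) (fun y => y) :=
  ⟨Isot.one, fun _ => rfl, fun _ => rfl, fun _ _ => rfl⟩

theorem Shell_scl {c r : ℝ} (hr : 0 < r) {p : R4} (hp : p ∈ Shell 0 1) :
    scl c r p ∈ Shell c r := by
  rw [Shell_eq] at hp ⊢
  exact (scl_mem_ShC hr).2 hp

theorem NShell_scl {c r : ℝ} (hr : 0 < r) {p : R4} (hp : p ∈ NShell 0 1) :
    scl c r p ∈ NShell c r := by
  rw [NShell_eq] at hp ⊢
  exact (scl_mem_Sh hr).2 hp

theorem NShell_sclInv {c r : ℝ} (hr : 0 < r) {p : R4} (hp : p ∈ NShell c r) :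
    ∃ q ∈ NShell 0 1, scl c r q = p := by
  refine ⟨sclInv c r p, ?_, scl_sclInv hr p⟩
  rw [NShell_eq] at hp ⊢
  rw [← scl_mem_Sh (c := c) hr, scl_sclInv hr]
  exact hp

theorem Core_scl {c r : ℝ} (hr : 0 < r) {p : R4} (hp : p ∈ Core 0 1) :
    scl c r p ∈ Core c r := by
  rw [Core_eq] at hp ⊢
  exact (scl_mem_ShC hr).2 hp

theorem Core_sclInv {c r : ℝ} (hr : 0 < r) {p : R4} (hp : p ∈ Core c r) :
    ∃ q ∈ Core 0 1, scl c r q = p := by
  refine ⟨sclInv c r p, ?_, scl_sclInv hr p⟩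
  rw [Core_eq] at hp ⊢
  rw [← scl_mem_ShC (c := c) hr, scl_sclInv hr]
  exact hp

theorem NShell_flip {p : R4} (hp : p ∈ NShell 0 1) : flip p ∈ NShell 0 1 := by
  rw [NShell_eq] at hp ⊢
  exact flip_mem_Sh hp

theorem Core_flip {p : R4} (hp : p ∈ Core 0 1) : flip p ∈ Core 0 1 := by
  rw [Core_eq] at hp ⊢
  exact flip_mem_ShC hp

theorem isCompact_Core (c r : ℝ) : IsCompact (Core c r) := by
  rw [Core_eq]; exact isCompact_ShC _ _ _

theorem rotp_mem_Core {c r : ℝ} (θ : ℝ) {p : R4} (hp : p ∈ Core c r) : rotp θ p ∈ Core c r := by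
  rw [Core_eq] at hp ⊢
  exact rotp_mem_ShC θ hp

/-- transport of a twist by an equivariant diffeomorphism -/
theorem IsTwist.transport {δ δ' : PartialDiffeomorph 𝓘(ℝ, R4) I R4 M ∞} {c r c' r' : ℝ}
    (hs : IsSphere A δ c r) (hs' : IsSphere A δ' c' r') {Φ Φ' : M → M} (hΦ : IsMove A Φ Φ')
    (hm : ∀ p ∈ Shell 0 1, δ' (scl c' r' p) = Φ (δ (scl c r p))) {F : M → M}
    (hF : IsTwist A δ c r F) : IsTwist A δ' c' r' (fun y => Φ (F (Φ' y))) := by
  obtain ⟨hF1, hF2, hF3⟩ := hF
  have hN1 : NShell 0 1 ⊆ Shell 0 1 := NShell_subset_Shell one_pos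
  have hC1 : Core 0 1 ⊆ Shell 0 1 := Core_subset_Shell one_pos
  refine ⟨?_, ?_, ?_⟩
  · exact hΦ.isot.left.comp (hF1.comp hΦ.isot'.left)
  · intro p hp
    obtain ⟨q, hq, rfl⟩ := NShell_sclInv hs'.pos hp
    beta_reduce
    rw [hm q (hN1 hq), hΦ.left, hF2 _ (NShell_scl hs.pos hq), twist_scl hs.pos,
      twist_scl hs'.pos, hm _ (hN1 (twist_mem_NShell hq))]
  · intro y hy
    apply CircleAction.LB.conj hΦ.isot'.left.contMDiff hΦ.right hΦ.equiv hΦ.equiv'
    apply hF3
    rintro ⟨p, hp, hpy⟩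
    obtain ⟨q, hq, rfl⟩ := Core_sclInv hs.pos hp
    apply hy
    refine ⟨scl c' r' q, Core_scl hs'.pos hq, ?_⟩
    rw [hm q (hC1 hq), hpy, hΦ.right]

/-- a map whose quotient by `K` is locally a bulk rotation is isotopic to `K` -/
theorem isot_of_inv_LB (hglob : A.Global) {F K K' : M → M} (hK : IsDiffeo I K)
    (hKK' : ∀ y, K (K' y) = y) (hK'K : ∀ y, K' (K y) = y)
    (hL : ∀ y, A.LB (fun z => F (K' z)) y) : Isot I F K := by
  have e1 : Isot I (fun z => F (K' z)) (fun z => z) := isot_id_of_LB hglob hL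
  have := e1.comp hK
  simpa only [hK'K] using this

/-- uniqueness of twists up to isotopy -/
theorem IsTwist.isot (hglob : A.Global) {δ : PartialDiffeomorph 𝓘(ℝ, R4) I R4 M ∞} {c r : ℝ}
    (hs : IsSphere A δ c r) {F K : M → M} (hF : IsTwist A δ c r F) (hK : IsTwist A δ c r K) :
    Isot I F K := by
  obtain ⟨hF1, hF2, hF3⟩ := hF
  obtain ⟨hK1, hK2, hK3⟩ := hK
  obtain ⟨K', hK', hKK', hK'K⟩ := hK1.exists_inv
  apply isot_of_inv_LB hglob hK1 hKK' hK'K
  intro y
  have hNS : NShell c r ⊆ Shell c r := NShell_subset_Shell hs.pos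
  by_cases hy : y ∈ δ '' Core c r
  · apply (CircleAction.LB.id A y).congr (W := δ '' NShell c r)
      (isOpen_image δ (isOpen_NShell c r) (hNS.trans hs.sub))
      (image_mono (Core_subset_NShell hs.pos) hy)
    · rintro _ ⟨q, hq, rfl⟩ θ
      exact ⟨rotp θ q, rotp_mem_NShell θ hq, hs.equiv q (hNS hq) θ⟩
    · rintro _ ⟨q, hq, rfl⟩
      have e1 : K' (δ q) = δ ((twist c r).g (1, q)) := by
        have := hK2 _ (twist_inv_mem_NShell (t := 1) hq)
        rw [(twist c r).fg] at this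
        rw [← this, hK'K]
      rw [e1, hF2 _ (twist_inv_mem_NShell hq), (twist c r).fg]
  · exact (hF3 y hy).comp ((hK3 y hy).inv hK'K)

/-- equivalent spheres have isotopic twists -/
theorem IsTwist.isot_of_move (hglob : A.Global)
    {δ δ' : PartialDiffeomorph 𝓘(ℝ, R4) I R4 M ∞} {c r c' r' : ℝ}
    (hs : IsSphere A δ c r) (hs' : IsSphere A δ' c' r') {Φ Φ' : M → M} (hΦ : IsMove A Φ Φ')
    (hm : ∀ p ∈ Shell 0 1, δ' (scl c' r' p) = Φ (δ (scl c r p))) {F F' : M → M}
    (hF : IsTwist A δ c r F) (hF' : IsTwist A δ' c' r' F') : Isot I F F' := by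
  have h1 := (hF.transport hs hs' hΦ hm).isot hglob hs' hF'
  have h2 : Isot I (fun y => Φ (F (Φ' y))) F := by
    have := hΦ.isot.comp (hF.1.comp hΦ.isot')
    exact this
  exact h2.symm.trans h1

/-- a twist along a sphere bounding an invariant ball is isotopic to the identity -/
theorem IsTwist.isot_one (hglob : A.Global) {δ : PartialDiffeomorph 𝓘(ℝ, R4) I R4 M ∞}
    {c r : ℝ} (hs : IsSphere A δ c r) (hb : BoundsBall A δ c r) {F : M → M}
    (hF : IsTwist A δ c r F) : Isot I F (fun y => y) := by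
  obtain ⟨g, g', h1, -, -, h2, -, h3⟩ := exists_g hs.pos hb
  have hg : IsTwist A δ c r g :=
    ⟨h1.right, fun p hp => h2 p (NShell_subset_Shell hs.pos hp), h3⟩
  exact (hF.isot hglob hs hg).trans h1.symm

/-- twists along a sphere and its reverse are inverse up to isotopy -/
theorem IsTwist.isot_reverse (hglob : A.Global)
    {δ δ' : PartialDiffeomorph 𝓘(ℝ, R4) I R4 M ∞} {c r c' r' : ℝ}
    (hs : IsSphere A δ c r) (hs' : IsSphere A δ' c' r') {Φ Φ' : M → M} (hΦ : IsMove A Φ Φ')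
    (hm : ∀ p ∈ Shell 0 1, δ' (scl c' r' (flip p)) = Φ (δ (scl c r p))) {F F' : M → M}
    (hF : IsTwist A δ c r F) (hF' : IsTwist A δ' c' r' F') :
    Isot I (fun y => F' (F y)) (fun y => y) := by
  obtain ⟨hF1, hF2, hF3⟩ := hF
  obtain ⟨hG1, hG2, hG3⟩ := hF'
  have hN1 : NShell 0 1 ⊆ Shell 0 1 := NShell_subset_Shell one_pos
  have hC1 : Core 0 1 ⊆ Shell 0 1 := Core_subset_Shell one_pos
  have hNS : NShell c' r' ⊆ Shell c' r' := NShell_subset_Shell hs'.pos
  have hCS : Core c' r' ⊆ Shell c' r' := Core_subset_Shell hs'.pos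
  -- the isotopy on the core
  let W := (wFam c' hs'.pos).push δ' (isCompact_Core c' r') (hCS.trans hs'.sub)
    (fun t p hp => wFam_off hs'.pos t p hp)
  have hW : ∀ t y, W.f (t, y) = push δ' (fun x => (wFam c' hs'.pos).f (t, x)) y := fun _ _ => rfl
  have hW0 : Isot I (fun y => y) (fun y => W.f (1, y)) := by
    refine ⟨W, ?_, fun _ => rfl⟩
    intro y
    rw [hW]
    have : (fun x => (wFam c' hs'.pos).f (0, x)) = fun x => x := by
      funext x
      change scl c' r' (wF 0 (sclInv c' r' x)) = x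
      rw [wF_zero, scl_sclInv hs'.pos]
    rw [this]
    exact push_id δ' y
  have hWN : ∀ q ∈ Shell 0 1, W.f (1, δ' (scl c' r' q)) =
      δ' (scl c' r' ((twist 0 1).f (1, flip ((twist 0 1).f (1, flip q))))) := by
    intro q hq
    rw [hW, push_of_mem δ' _ (hs'.sub (Shell_scl hs'.pos hq))]
    change δ' (scl c' r' (wF 1 (sclInv c' r' (scl c' r' q)))) = _
    rw [sclInv_scl hs'.pos, wF_one]
  have hWcore : ∀ y, y ∉ δ' '' Core c' r' → A.LB (fun z => W.f (1, z)) y := by
    intro y hy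
    apply LB_off (A := A) δ' (isCompact_Core c' r') (hCS.trans hs'.sub)
      (fun q hq θ => rotp_mem_Core θ hq) (fun q hq => hs'.equiv q (hCS hq)) _ hy
    intro z hz
    rw [hW]
    exact push_of_notMem δ' _ (hCS.trans hs'.sub) (fun x hx => wFam_off hs'.pos 1 x hx) hz
  -- the composite
  have key : Isot I (fun y => F' (Φ (F (Φ' y)))) (fun y => W.f (1, y)) := by
    have hK1 : IsDiffeo I (fun y => W.f (1, y)) := hW0.right
    apply isot_of_inv_LB (K' := fun y => W.g (1, y)) hglob hK1 (fun y => W.fg 1 y)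
      (fun y => W.gf 1 y)
    intro y
    by_cases hy : y ∈ δ' '' Core c' r'
    · apply (CircleAction.LB.id A y).congr (W := δ' '' NShell c' r')
        (isOpen_image δ' (isOpen_NShell c' r') (hNS.trans hs'.sub))
        (image_mono (Core_subset_NShell hs'.pos) hy)
      · rintro _ ⟨q, hq, rfl⟩ θ
        exact ⟨rotp θ q, rotp_mem_NShell θ hq, hs'.equiv q (hNS hq) θ⟩
      · rintro _ ⟨p, hp, rfl⟩
        obtain ⟨q, hq, rfl⟩ := NShell_sclInv hs'.pos hp
        -- the preimage of `q` under the composite twist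
        set q1 := flip ((twist 0 1).g (1, flip ((twist 0 1).g (1, q)))) with hq1
        have m1 : (twist 0 1).g (1, q) ∈ NShell 0 1 := twist_inv_mem_NShell hq
        have m2 : flip ((twist 0 1).g (1, q)) ∈ NShell 0 1 := NShell_flip m1
        have m3 : (twist 0 1).g (1, flip ((twist 0 1).g (1, q))) ∈ NShell 0 1 :=
          twist_inv_mem_NShell m2
        have m4 : q1 ∈ NShell 0 1 := NShell_flip m3
        have e0 : (twist 0 1).f (1, flip ((twist 0 1).f (1, flip q1))) = q := by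
          rw [hq1, flip_flip, (twist 0 1).fg, flip_flip, (twist 0 1).fg]
        have e1 : W.g (1, δ' (scl c' r' q)) = δ' (scl c' r' q1) := by
          have := hWN q1 (hN1 m4)
          rw [e0] at this
          rw [← this, W.gf]
        rw [e1]
        -- compute
        have e2 : Φ' (δ' (scl c' r' q1)) = δ (scl c r (flip q1)) := by
          have := hm (flip q1) (hN1 (NShell_flip m4))
          rw [flip_flip] at this
          rw [this, hΦ.left]
        rw [e2, hF2 _ (NShell_scl hs.pos (NShell_flip m4)), twist_scl hs.pos]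
        have e3 := hm ((twist 0 1).f (1, flip q1)) (hN1 (twist_mem_NShell (NShell_flip m4)))
        rw [← e3, hG2 _ (NShell_scl hs'.pos (NShell_flip (twist_mem_NShell (NShell_flip m4)))),
          twist_scl hs'.pos, e0]
    · refine (hG3 y hy).comp (CircleAction.LB.comp (F := fun z => Φ (F (Φ' z))) ?_
        ((hWcore y hy).inv (fun z => W.gf 1 z)))
      apply CircleAction.LB.conj hΦ.isot'.left.contMDiff hΦ.right hΦ.equiv hΦ.equiv'
      apply hF3
      rintro ⟨p, hp, hpy⟩
      obtain ⟨q, hq, rfl⟩ := Core_sclInv hs.pos hp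
      apply hy
      refine ⟨scl c' r' (flip q), Core_scl hs'.pos (Core_flip hq), ?_⟩
      rw [hm q (hC1 hq), hpy, hΦ.right]
  have h2 : Isot I (fun y => F' (Φ (F (Φ' y)))) (fun y => F' (F y)) :=
    hG1.comp (hΦ.isot.comp (hF1.comp hΦ.isot'))
  exact h2.symm.trans (key.trans hW0.symm)

end

end Pool.Agent.Helper65.Barb
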